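import Mathlib
import Pool.Agent.Lib.MP_fd1949_P.Base
import Pool.Agent.Lib.MP_fd1949_P.Struct

/-!
# Combings: columns, lifts, chains
-/

namespace Pool.Agent.MP_fd1949_C

open Pool.Agent.MP_fd1949_co Pool.Agent.MP_fd1949_P

/-- `f x` is the distance of `x` to the root `F x 0` of its component, `F x 0, F x 1, ..., F x (f x)`
is a geodesic from the root to `x` (the column of `x`), and the columns of adjacent vertices `x`, `y`
are at distance at most `κ` at all depths `m` with `f x ≤ m + H`. -/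
structure Combing {V : Type} (G : SimpleGraph V) (κ H : ℕ) (f : V → ℕ) (F : V → ℕ → V) : Prop where
  lip : ∀ x y, G.Adj x y → f x ≤ f y + 1
  self : ∀ x, F x (f x) = x
  adj : ∀ x m, m < f x → G.Adj (F x m) (F x (m + 1))
  lev : ∀ x m, m ≤ f x → f (F x m) = m
  root : ∀ x y, G.Reachable x y → F x 0 = F y 0
  fellow : ∀ x y, G.Adj x y → ∀ m, m ≤ f x → m ≤ f y → f x ≤ m + H → NearN G κ (F x m) (F y m)

/-- The point at depth `m` of the column of `x` (for `m ≤ f x`). -/
def pt {V : Type} (_ : V → ℕ) (F : V → ℕ → V) (x : V) (m : ℕ) : V := F x m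

/-- The slab `a ≤ f < a + w`. -/
def Slab {V : Type} (f : V → ℕ) (a w : ℕ) : Set V := {x | a ≤ f x ∧ f x < a + w}

/-- The lift of `Y` to depth `m`, thickened by `k`. -/
def lift {V : Type} (G : SimpleGraph V) (f : V → ℕ) (F : V → ℕ → V) (k : ℕ) (Y : Set V) (m : ℕ) :
    Set V :=
  nbhd G k {p | ∃ y ∈ Y, p = pt f F y m}

/-- `x` and `y` are joined by a chain of points of `Y` with steps of length at most `s`. -/
def JChain {V : Type} (G : SimpleGraph V) (s : ℕ) (Y : Set V) (x y : V) : Prop :=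
  Relation.ReflTransGen (fun u v => u ∈ Y ∧ v ∈ Y ∧ NearN G s u v) x y

/-- Any two points of `Y` are joined by a chain in `Y` with steps of length at most `s`. -/
def JConn {V : Type} (G : SimpleGraph V) (s : ℕ) (Y : Set V) : Prop :=
  ∀ x ∈ Y, ∀ y ∈ Y, JChain G s Y x y

/-- The star exclusion for the subset `Y`, jumps `s`, distance `C`: there is no hub `D₀` with arms
`A e`, one for every pair `e` of numbers `< t`, such that the point `z e` of the arm `A e` is at
distance at least `C` of the hub and of the other arms. -/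
def StarAt {V : Type} (G : SimpleGraph V) (Y : Set V) (t s C : ℕ) : Prop :=
  ∀ (D₀ : Set V) (A : Sym2 (Fin t) → Set V) (z : Sym2 (Fin t) → V), D₀.Nonempty → D₀ ⊆ Y →
    (∀ e, A e ⊆ Y) → JConn G s D₀ → (∀ e, JConn G s (D₀ ∪ A e)) → (∀ e, z e ∈ A e) →
    (∀ e, Far G C {z e} D₀) → (∀ e e', e ≠ e' → Far G C {z e} (A e')) → False

/-- The two sheet exclusion for the subset `Y`: there are no `r`-connected sets `E`, `σ` at distance
more than `s`, with `N` points `z c` of `σ`, pairwise at distance more than `Δ`, at distance at most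
`ρ` of points `e c` of `E`. -/
def SheetsAt {V : Type} (G : SimpleGraph V) (Y : Set V) (N r s ρ Δ : ℕ) : Prop :=
  ∀ (E σ : Set V) (z e : Fin N → V), E ⊆ Y → σ ⊆ Y → JConn G r E → JConn G r σ →
    Far G (s + 1) σ E → (∀ c, z c ∈ σ ∧ e c ∈ E ∧ NearN G ρ (z c) (e c)) →
    (∀ c c', c ≠ c' → ¬ NearN G Δ (z c) (z c')) → False

/-- The close pairs of points of `Y`: joined by a chain with steps `≤ s` inside a part of diameter
`≤ 2 R` of one `r`-component of `Y`. -/
def gam {V : Type} (G : SimpleGraph V) (Y : Set V) (r s R : ℕ) : SimpleGraph V where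
  Adj x y := x ≠ y ∧ ∃ z, ∃ Z : Set V, Z ⊆ Y ∧ (∀ p ∈ Z, NearN G R z p) ∧
    (∀ p ∈ Z, ∀ p' ∈ Z, JChain G r Y p p') ∧ x ∈ Z ∧ y ∈ Z ∧ JChain G s Z x y ∧ JChain G s Z y x
  symm := ⟨fun x y h => ⟨h.1.symm, by
    obtain ⟨z, Z, h1, h2, h3, h4, h5, h6, h7⟩ := h.2
    exact ⟨z, Z, h1, h2, h3, h5, h4, h7, h6⟩⟩⟩
  loopless := ⟨fun x h => h.1 rfl⟩

/-- The book with `k` rows in each of the three pages and `M` columns: three `k × M` grids; the
vertices `(p, k - 1, b)`, `p = 0, 1, 2`, are joined to the vertex `b` of the spine. -/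
def bookG (k M : ℕ) : SimpleGraph ((Fin 3 × Fin k × Fin M) ⊕ Fin M) where
  Adj x y := match x, y with
    | Sum.inl u, Sum.inl v => u.1 = v.1 ∧
        ((u.2.1 = v.2.1 ∧ (u.2.2.val + 1 = v.2.2.val ∨ v.2.2.val + 1 = u.2.2.val)) ∨
          (u.2.2 = v.2.2 ∧ (u.2.1.val + 1 = v.2.1.val ∨ v.2.1.val + 1 = u.2.1.val)))
    | Sum.inl u, Sum.inr c => u.2.1.val + 1 = k ∧ u.2.2 = c
    | Sum.inr c, Sum.inl u => u.2.1.val + 1 = k ∧ u.2.2 = c
    | Sum.inr _, Sum.inr _ => False
  symm := ⟨by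
    rintro (u | c) (v | d) h
    · refine ⟨h.1.symm, ?_⟩
      rcases h.2 with ⟨h1, h2⟩ | ⟨h1, h2⟩
      · exact Or.inl ⟨h1.symm, h2.symm⟩
      · exact Or.inr ⟨h1.symm, h2.symm⟩
    · exact h
    · exact h
    · exact h⟩
  loopless := ⟨by
    rintro (u | c) h
    · rcases h.2 with ⟨_, h2⟩ | ⟨_, h2⟩ <;> omega
    · exact h⟩

/-- Three combs (pages) whose columns are glued at sets `J c`: the set `J c` contains the ends
`col c 0` of the columns `c` of all three pages. The pages are far apart. -/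
structure BookS {V : Type} (G : SimpleGraph V) (k N q S q₁ Δ : ℕ) (ω₀ ω η Θ : Fin 3 → ℕ) where
  C : ∀ p : Fin 3, Comb G k N q₁ (ω₀ p) (η p) Δ (Θ p)
  J : Fin N → Set V
  connJ : ∀ c, Conn G (J c)
  memJ : ∀ p c, (C p).col c 0 ∈ J c
  low : ∀ p m, 2 * q ≤ (C p).t m
  farJJ : ∀ c c', c ≠ c' → Far G q (J c) (J c')
  farJR : ∀ p m c, Far G q (J c) (nbhd G (2 * ω p + S) ((C p).Row m))
  farJC : ∀ p c c', c ≠ c' → Far G q (J c) ((C p).Col c')
  farJV : ∀ p c n, q ≤ n → n ≤ Θ p → Far G q (J c) {(C p).col c n}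
  farRR : ∀ p p' m m', p ≠ p' → Far G q (nbhd G (2 * ω p + S) ((C p).Row m))
    (nbhd G (2 * ω p' + S) ((C p').Row m'))
  farRC : ∀ p p' m c, p ≠ p' → Far G q (nbhd G (2 * ω p + S) ((C p).Row m)) ((C p').Col c)
  farCC : ∀ p p' c c', p ≠ p' → Far G q ((C p).Col c) ((C p').Col c')

end Pool.Agent.MP_fd1949_C
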