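import Mathlib
import Pool.Agent.Lib.MP_fd1949_C.Defs

/-!
# The book contains the complete graph as a minor
-/

namespace Pool.Agent.MP_fd1949_C

open Pool.Agent.MP_fd1949_co Pool.Agent.MP_fd1949_P

/-- Membership in the branch set of `m`: page `p` (`3` is the spine), row `a`, block `(i, j)`,
offset `o`. -/
private def BkMem (t m p a i j o : ℕ) : Prop :=
  (p = 0 ∧ ((a = m ∧ ¬ (i < j ∧ i < m ∧ o < t + (m - i) ∧ t < o + (m - i))) ∨
    (i < j ∧ i < m ∧ (o = t + (m - i) ∨ t = o + (m - i)) ∧ m ≤ a) ∨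
    (i < j ∧ i = m ∧ o = t ∧ m ≤ a))) ∨
  (p = 1 ∧ i < j ∧ i < m ∧ (((o = t + (m - i) ∨ t = o + (m - i)) ∧ t ≤ a + (m - i)) ∨
    (o ≤ t + (m - i) ∧ t ≤ o + (m - i) ∧ a + (m - i) = t))) ∨
  (p = 2 ∧ a + 1 = t ∧ i < j ∧ i = m ∧ o ≤ t ∧ t ≤ o + (j - m)) ∨
  (p = 3 ∧ i < j ∧ ((i < m ∧ (o = t + (m - i) ∨ t = o + (m - i))) ∨ (i = m ∧ o = t)))

private theorem bkm0 {t m a i j o : ℕ} : BkMem t m 0 a i j o ↔
    ((a = m ∧ ¬ (i < j ∧ i < m ∧ o < t + (m - i) ∧ t < o + (m - i))) ∨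
    (i < j ∧ i < m ∧ (o = t + (m - i) ∨ t = o + (m - i)) ∧ m ≤ a) ∨
    (i < j ∧ i = m ∧ o = t ∧ m ≤ a)) := by
  unfold BkMem
  constructor
  · rintro (⟨-, h⟩ | ⟨h, -⟩ | ⟨h, -⟩ | ⟨h, -⟩)
    · exact h
    · exact absurd h (by decide)
    · exact absurd h (by decide)
    · exact absurd h (by decide)
  · exact fun h => Or.inl ⟨rfl, h⟩

private theorem bkm1 {t m a i j o : ℕ} : BkMem t m 1 a i j o ↔
    (i < j ∧ i < m ∧ (((o = t + (m - i) ∨ t = o + (m - i)) ∧ t ≤ a + (m - i)) ∨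
    (o ≤ t + (m - i) ∧ t ≤ o + (m - i) ∧ a + (m - i) = t))) := by
  unfold BkMem
  constructor
  · rintro (⟨h, -⟩ | ⟨-, h⟩ | ⟨h, -⟩ | ⟨h, -⟩)
    · exact absurd h (by decide)
    · exact h
    · exact absurd h (by decide)
    · exact absurd h (by decide)
  · exact fun h => Or.inr (Or.inl ⟨rfl, h⟩)

private theorem bkm2 {t m a i j o : ℕ} : BkMem t m 2 a i j o ↔
    (a + 1 = t ∧ i < j ∧ i = m ∧ o ≤ t ∧ t ≤ o + (j - m)) := by
  unfold BkMem
  constructor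
  · rintro (⟨h, -⟩ | ⟨h, -⟩ | ⟨-, h⟩ | ⟨h, -⟩)
    · exact absurd h (by decide)
    · exact absurd h (by decide)
    · exact h
    · exact absurd h (by decide)
  · exact fun h => Or.inr (Or.inr (Or.inl ⟨rfl, h⟩))

private theorem bkm3 {t m a i j o : ℕ} : BkMem t m 3 a i j o ↔
    (i < j ∧ ((i < m ∧ (o = t + (m - i) ∨ t = o + (m - i))) ∨ (i = m ∧ o = t))) := by
  unfold BkMem
  constructor
  · rintro (⟨h, -⟩ | ⟨h, -⟩ | ⟨h, -⟩ | ⟨-, h⟩)
    · exact absurd h (by decide)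
    · exact absurd h (by decide)
    · exact absurd h (by decide)
    · exact h
  · exact fun h => Or.inr (Or.inr (Or.inr ⟨rfl, h⟩))

private theorem bk_30 {t m a i j o : ℕ} (h : BkMem t m 3 0 i j o) (ha : m ≤ a) :
    BkMem t m 0 a i j o := by
  obtain ⟨h1, ⟨h2, h3⟩ | ⟨h2, h3⟩⟩ := bkm3.1 h
  · exact bkm0.2 (Or.inr (Or.inl ⟨h1, h2, h3, ha⟩))
  · exact bkm0.2 (Or.inr (Or.inr ⟨h1, h2, h3, ha⟩))

private def bkSet (t M m : ℕ) : Set ((Fin 3 × Fin t × Fin M) ⊕ Fin M) :=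
  {x | match x with
    | Sum.inl v => BkMem t m v.1.val v.2.1.val (v.2.2.val / (2 * t + 1) / t)
        (v.2.2.val / (2 * t + 1) % t) (v.2.2.val % (2 * t + 1))
    | Sum.inr c => BkMem t m 3 0 (c.val / (2 * t + 1) / t) (c.val / (2 * t + 1) % t)
        (c.val % (2 * t + 1))}

private def Rw {V : Type} (G : SimpleGraph V) (S : Set V) (x y : V) : Prop :=
  ∃ w : G.Walk x y, ∀ u ∈ w.support, u ∈ S

private theorem Rw.rfl {V : Type} {G : SimpleGraph V} {S : Set V} {x : V} (h : x ∈ S) :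
    Rw G S x x := by
  refine ⟨.nil, fun u hu => ?_⟩
  rw [SimpleGraph.Walk.support_nil, List.mem_singleton] at hu
  rw [hu]
  exact h

private theorem Rw.step {V : Type} {G : SimpleGraph V} {S : Set V} {x y : V} (hx : x ∈ S)
    (hy : y ∈ S) (h : G.Adj x y) : Rw G S x y := by
  refine ⟨.cons h .nil, fun u hu => ?_⟩
  rw [SimpleGraph.Walk.support_cons, SimpleGraph.Walk.support_nil, List.mem_cons,
    List.mem_singleton] at hu
  rcases hu with rfl | rfl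
  · exact hx
  · exact hy

private theorem Rw.trans {V : Type} {G : SimpleGraph V} {S : Set V} {x y z : V}
    (h1 : Rw G S x y) (h2 : Rw G S y z) : Rw G S x z := by
  obtain ⟨w, hw⟩ := h1
  obtain ⟨w', hw'⟩ := h2
  refine ⟨w.append w', fun u hu => ?_⟩
  rcases (SimpleGraph.Walk.mem_support_append_iff _ _).1 hu with hu | hu
  · exact hw u hu
  · exact hw' u hu

private theorem Rw.symm {V : Type} {G : SimpleGraph V} {S : Set V} {x y : V}
    (h1 : Rw G S x y) : Rw G S y x := by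
  obtain ⟨w, hw⟩ := h1
  refine ⟨w.reverse, fun u hu => ?_⟩
  rw [SimpleGraph.Walk.support_reverse, List.mem_reverse] at hu
  exact hw u hu

private theorem bk_col {t M : ℕ} {S : Set ((Fin 3 × Fin t × Fin M) ⊕ Fin M)} (p : Fin 3)
    (b : Fin M) (a₁ a₂ : ℕ) (h1 : a₁ ≤ a₂) (h2 : a₂ < t)
    (H : ∀ a (ha : a < t), a₁ ≤ a → a ≤ a₂ → Sum.inl (p, ⟨a, ha⟩, b) ∈ S) :
    Rw (bookG t M) S (Sum.inl (p, ⟨a₁, h1.trans_lt h2⟩, b)) (Sum.inl (p, ⟨a₂, h2⟩, b)) := by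
  induction a₂, h1 using Nat.le_induction with
  | base => exact Rw.rfl (H _ _ le_rfl le_rfl)
  | succ k hk ih =>
    refine (ih (by omega) fun a ha h3 h4 => H a ha h3 (by omega)).trans
      (Rw.step (H _ _ hk (by omega)) (H _ _ (by omega) le_rfl) ?_)
    exact ⟨rfl, Or.inr ⟨rfl, Or.inl rfl⟩⟩

private theorem bk_row {t M : ℕ} {S : Set ((Fin 3 × Fin t × Fin M) ⊕ Fin M)} (p : Fin 3)
    (a : Fin t) (b₁ b₂ : ℕ) (h1 : b₁ ≤ b₂) (h2 : b₂ < M)
    (H : ∀ b (hb : b < M), b₁ ≤ b → b ≤ b₂ → Sum.inl (p, a, ⟨b, hb⟩) ∈ S) :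
    Rw (bookG t M) S (Sum.inl (p, a, ⟨b₁, h1.trans_lt h2⟩)) (Sum.inl (p, a, ⟨b₂, h2⟩)) := by
  induction b₂, h1 using Nat.le_induction with
  | base => exact Rw.rfl (H _ _ le_rfl le_rfl)
  | succ k hk ih =>
    refine (ih (by omega) fun b hb h3 h4 => H b hb h3 (by omega)).trans
      (Rw.step (H _ _ hk (by omega)) (H _ _ (by omega) le_rfl) ?_)
    exact ⟨rfl, Or.inl ⟨rfl, Or.inl rfl⟩⟩

private theorem bk_spine {t M : ℕ} {S : Set ((Fin 3 × Fin t × Fin M) ⊕ Fin M)} (p : Fin 3)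
    (a : Fin t) (b : Fin M) (ha : a.val + 1 = t) (h1 : Sum.inl (p, a, b) ∈ S)
    (h2 : Sum.inr b ∈ S) : Rw (bookG t M) S (Sum.inl (p, a, b)) (Sum.inr b) :=
  Rw.step h1 h2 ⟨ha, rfl⟩

/-- Block and offset of a position. -/
private theorem bk_pos (t u o : ℕ) (ho : o ≤ 2 * t) :
    ((2 * t + 1) * u + o) / (2 * t + 1) = u ∧ ((2 * t + 1) * u + o) % (2 * t + 1) = o := by
  constructor
  · rw [Nat.mul_add_div (by omega), Nat.div_eq_of_lt (by omega), add_zero]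
  · rw [Nat.mul_add_mod, Nat.mod_eq_of_lt (by omega)]

private theorem bk_lt (t u o : ℕ) (ho : o ≤ 2 * t) (hu : u < t ^ 2) :
    (2 * t + 1) * u + o < (2 * t + 1) * t ^ 2 := by
  have h1 : (2 * t + 1) * (u + 1) ≤ (2 * t + 1) * t ^ 2 := Nat.mul_le_mul_left _ hu
  have h2 : (2 * t + 1) * (u + 1) = (2 * t + 1) * u + (2 * t + 1) := by ring
  omega

private theorem bk_inl {t m : ℕ} (p : Fin 3) (a : ℕ) (ha : a < t) (u o : ℕ)
    (ho : o ≤ 2 * t) (hb : (2 * t + 1) * u + o < (2 * t + 1) * t ^ 2) :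
    (Sum.inl (p, ⟨a, ha⟩, ⟨(2 * t + 1) * u + o, hb⟩) ∈ bkSet t ((2 * t + 1) * t ^ 2) m) ↔
      BkMem t m p.val a (u / t) (u % t) o := by
  show BkMem t m p.val a (((2 * t + 1) * u + o) / (2 * t + 1) / t)
    (((2 * t + 1) * u + o) / (2 * t + 1) % t) (((2 * t + 1) * u + o) % (2 * t + 1)) ↔ _
  rw [(bk_pos t u o ho).1, (bk_pos t u o ho).2]

private theorem bk_in0 {t m : ℕ} (a : ℕ) (ha : a < t) (u o : ℕ)
    (ho : o ≤ 2 * t) (hb : (2 * t + 1) * u + o < (2 * t + 1) * t ^ 2) :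
    (Sum.inl ((0 : Fin 3), ⟨a, ha⟩, ⟨(2 * t + 1) * u + o, hb⟩) ∈
      bkSet t ((2 * t + 1) * t ^ 2) m) ↔ BkMem t m 0 a (u / t) (u % t) o :=
  bk_inl 0 a ha u o ho hb

private theorem bk_in1 {t m : ℕ} (a : ℕ) (ha : a < t) (u o : ℕ)
    (ho : o ≤ 2 * t) (hb : (2 * t + 1) * u + o < (2 * t + 1) * t ^ 2) :
    (Sum.inl ((1 : Fin 3), ⟨a, ha⟩, ⟨(2 * t + 1) * u + o, hb⟩) ∈
      bkSet t ((2 * t + 1) * t ^ 2) m) ↔ BkMem t m 1 a (u / t) (u % t) o :=
  bk_inl 1 a ha u o ho hb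

private theorem bk_in2 {t m : ℕ} (a : ℕ) (ha : a < t) (u o : ℕ)
    (ho : o ≤ 2 * t) (hb : (2 * t + 1) * u + o < (2 * t + 1) * t ^ 2) :
    (Sum.inl ((2 : Fin 3), ⟨a, ha⟩, ⟨(2 * t + 1) * u + o, hb⟩) ∈
      bkSet t ((2 * t + 1) * t ^ 2) m) ↔ BkMem t m 2 a (u / t) (u % t) o :=
  bk_inl 2 a ha u o ho hb

private theorem bk_inr {t m : ℕ} (u o : ℕ)
    (ho : o ≤ 2 * t) (hb : (2 * t + 1) * u + o < (2 * t + 1) * t ^ 2) :
    (Sum.inr ⟨(2 * t + 1) * u + o, hb⟩ ∈ bkSet t ((2 * t + 1) * t ^ 2) m) ↔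
      BkMem t m 3 0 (u / t) (u % t) o := by
  show BkMem t m 3 0 (((2 * t + 1) * u + o) / (2 * t + 1) / t)
    (((2 * t + 1) * u + o) / (2 * t + 1) % t) (((2 * t + 1) * u + o) % (2 * t + 1)) ↔ _
  rw [(bk_pos t u o ho).1, (bk_pos t u o ho).2]

/-- A column of page `0` over a position of type (2) or (3), with the spine vertex. -/
private theorem bk_up0 {t m : ℕ} (hm : m < t) (u o : ℕ) (ho : o ≤ 2 * t)
    (hb : (2 * t + 1) * u + o < (2 * t + 1) * t ^ 2)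
    (h : BkMem t m 3 0 (u / t) (u % t) o) (a : ℕ) (ha : a < t) (hma : m ≤ a) :
    Rw (bookG t ((2 * t + 1) * t ^ 2)) (bkSet t ((2 * t + 1) * t ^ 2) m)
      (Sum.inl (0, ⟨m, hm⟩, ⟨(2 * t + 1) * u + o, hb⟩))
      (Sum.inl (0, ⟨a, ha⟩, ⟨(2 * t + 1) * u + o, hb⟩)) := by
  exact bk_col 0 _ m a hma ha fun a' ha' h1 h2 => (bk_in0 a' ha' u o ho hb).2 (bk_30 h h1)

private theorem bk_up {t m : ℕ} (hm : m < t) (u o : ℕ) (ho : o ≤ 2 * t)
    (hb : (2 * t + 1) * u + o < (2 * t + 1) * t ^ 2)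
    (h : BkMem t m 3 0 (u / t) (u % t) o) :
    Rw (bookG t ((2 * t + 1) * t ^ 2)) (bkSet t ((2 * t + 1) * t ^ 2) m)
      (Sum.inl (0, ⟨m, hm⟩, ⟨(2 * t + 1) * u + o, hb⟩))
      (Sum.inr ⟨(2 * t + 1) * u + o, hb⟩) := by
  have h1 : t - 1 < t := by clear hb; omega
  have h2 : m ≤ t - 1 := by clear hb; omega
  exact (bk_up0 hm u o ho hb h (t - 1) h1 h2).trans
    (bk_spine 0 _ _ (show t - 1 + 1 = t by clear hb; omega) ((bk_in0 _ _ u o ho hb).2 (bk_30 h h2))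
      ((bk_inr u o ho hb).2 h))

/-- A column of page `1` over the spine. -/
private theorem bk_dn {t m : ℕ} (u o : ℕ) (ho : o ≤ 2 * t)
    (hb : (2 * t + 1) * u + o < (2 * t + 1) * t ^ 2)
    (h1 : u / t < u % t) (h2 : u / t < m) (h3 : o = t + (m - u / t) ∨ t = o + (m - u / t))
    (a : ℕ) (ha : a < t) (h4 : t ≤ a + (m - u / t)) :
    Rw (bookG t ((2 * t + 1) * t ^ 2)) (bkSet t ((2 * t + 1) * t ^ 2) m)
      (Sum.inl (1, ⟨a, ha⟩, ⟨(2 * t + 1) * u + o, hb⟩))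
      (Sum.inr ⟨(2 * t + 1) * u + o, hb⟩) := by
  have hmem : ∀ a' (ha' : a' < t), a ≤ a' → Sum.inl ((1 : Fin 3), ⟨a', ha'⟩,
      ⟨(2 * t + 1) * u + o, hb⟩) ∈ bkSet t ((2 * t + 1) * t ^ 2) m := by
    intro a' ha' h5
    exact (bk_in1 a' ha' u o ho hb).2 (bkm1.2 ⟨h1, h2, Or.inl ⟨h3, h4.trans (by clear hb; omega)⟩⟩)
  have g1 : t - 1 < t := by clear hmem hb; omega
  have g2 : a ≤ t - 1 := by clear hmem hb; omega
  exact (bk_col 1 _ a (t - 1) g2 g1 fun a' ha' h5 h6 => hmem a' ha' h5).trans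
    (bk_spine 1 _ _ (show t - 1 + 1 = t by clear hmem hb; omega) (hmem _ _ g2)
      ((bk_inr u o ho hb).2 (bkm3.2 ⟨h1, Or.inl ⟨h2, h3⟩⟩)))

/-- The row of page `1` in an active block. -/
private theorem bk_row1 {t m : ℕ} (u o o' : ℕ) (ho : o ≤ o')
    (hb : (2 * t + 1) * u + o' < (2 * t + 1) * t ^ 2)
    (h1 : u / t < u % t) (h2 : u / t < m) (h3 : t ≤ o + (m - u / t))
    (h4 : o' ≤ t + (m - u / t)) (a : ℕ) (ha : a < t) (h5 : a + (m - u / t) = t) :
    Rw (bookG t ((2 * t + 1) * t ^ 2)) (bkSet t ((2 * t + 1) * t ^ 2) m)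
      (Sum.inl (1, ⟨a, ha⟩, ⟨(2 * t + 1) * u + o, by omega⟩))
      (Sum.inl (1, ⟨a, ha⟩, ⟨(2 * t + 1) * u + o', hb⟩)) := by
  refine bk_row 1 _ _ _ (by omega) hb fun b hb' h6 h7 => ?_
  obtain ⟨o₁, rfl⟩ : ∃ o₁, b = (2 * t + 1) * u + o₁ := ⟨b - (2 * t + 1) * u, by omega⟩
  have h8 : o ≤ o₁ := by omega
  have h9 : o₁ ≤ o' := by omega
  refine (bk_in1 a ha u o₁ (by omega) hb').2 (bkm1.2 ⟨h1, h2, Or.inr ⟨?_, ?_, h5⟩⟩)
  · exact h9.trans h4
  · exact h3.trans (Nat.add_le_add_right h8 _)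

/-- The detour in an active block. -/
private theorem bk_jump {t m : ℕ} (hm : m < t) (u δ : ℕ)
    (hb : (2 * t + 1) * u + (t + δ) < (2 * t + 1) * t ^ 2)
    (h1 : u / t < u % t) (h2 : u / t < m) (hδ : δ = m - u / t) :
    Rw (bookG t ((2 * t + 1) * t ^ 2)) (bkSet t ((2 * t + 1) * t ^ 2) m)
      (Sum.inl (0, ⟨m, hm⟩, ⟨(2 * t + 1) * u + (t - δ), by omega⟩))
      (Sum.inl (0, ⟨m, hm⟩, ⟨(2 * t + 1) * u + (t + δ), hb⟩)) := by
  have hδt : δ < t := by
    have := Nat.zero_le (u / t)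
    omega
  have hb' : (2 * t + 1) * u + (t - δ) < (2 * t + 1) * t ^ 2 := by omega
  have s1 : BkMem t m 3 0 (u / t) (u % t) (t - δ) := by
    refine bkm3.2 ⟨h1, Or.inl ⟨h2, Or.inr ?_⟩⟩
    rw [← hδ]
    clear hb hb'
    omega
  have s2 : BkMem t m 3 0 (u / t) (u % t) (t + δ) := by
    refine bkm3.2 ⟨h1, Or.inl ⟨h2, Or.inl ?_⟩⟩
    rw [← hδ]
  refine (bk_up hm u (t - δ) (by omega) hb' s1).trans (Rw.trans ?_
    (bk_up hm u (t + δ) (by omega) hb s2).symm)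
  refine (bk_dn u (t - δ) (by omega) hb' h1 h2 (Or.inr (by omega)) (t - δ) (by omega)
    (by omega)).symm.trans (Rw.trans ?_ (bk_dn u (t + δ) (by omega) hb h1 h2
      (Or.inl (by omega)) (t - δ) (by omega) (by omega)))
  exact bk_row1 u (t - δ) (t + δ) (by omega) hb h1 h2 (by omega) (by omega) (t - δ)
    (by omega) (by omega)

/-- The vertices `(0, m, b)`. -/
private theorem bk_main {t m : ℕ} (hm : m < t) (h0 : 0 < (2 * t + 1) * t ^ 2) (b : ℕ) :
    ∀ (hb : b < (2 * t + 1) * t ^ 2),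
      Sum.inl ((0 : Fin 3), ⟨m, hm⟩, ⟨b, hb⟩) ∈ bkSet t ((2 * t + 1) * t ^ 2) m →
      Rw (bookG t ((2 * t + 1) * t ^ 2)) (bkSet t ((2 * t + 1) * t ^ 2) m)
        (Sum.inl (0, ⟨m, hm⟩, ⟨0, h0⟩)) (Sum.inl (0, ⟨m, hm⟩, ⟨b, hb⟩)) := by
  induction b using Nat.strong_induction_on with
  | _ b ih =>
    intro hb hmem
    rcases Nat.eq_zero_or_pos b with rfl | hpos
    · exact Rw.rfl hmem
    by_cases hprev : Sum.inl ((0 : Fin 3), ⟨m, hm⟩, ⟨b - 1, by omega⟩) ∈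
        bkSet t ((2 * t + 1) * t ^ 2) m
    · refine (ih (b - 1) (by omega) (by omega) hprev).trans (Rw.step hprev hmem ?_)
      exact ⟨rfl, Or.inl ⟨rfl, Or.inl (by show b - 1 + 1 = b; omega)⟩⟩
    · obtain ⟨u, hu⟩ : ∃ u, u = (b - 1) / (2 * t + 1) := ⟨_, rfl⟩
      obtain ⟨o, ho⟩ : ∃ o, o = (b - 1) % (2 * t + 1) := ⟨_, rfl⟩
      have hbo : b - 1 = (2 * t + 1) * u + o := by
        rw [hu, ho]
        exact (Nat.div_add_mod _ _).symm
      have ho2 : o < 2 * t + 1 := by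
        rw [ho]
        exact Nat.mod_lt _ (by omega)
      have hp : ¬ BkMem t m 0 m (u / t) (u % t) o := by
        intro h
        refine hprev ?_
        show BkMem t m 0 m ((b - 1) / (2 * t + 1) / t) ((b - 1) / (2 * t + 1) % t)
          ((b - 1) % (2 * t + 1))
        rw [← hu, ← ho]
        exact h
      have hp' : u / t < u % t ∧ u / t < m ∧ o < t + (m - u / t) ∧ t < o + (m - u / t) := by
        by_contra hcon
        exact hp (bkm0.2 (Or.inl ⟨rfl, hcon⟩))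
      obtain ⟨h1, h2, h3, h4⟩ := hp'
      have hb2 : b = (2 * t + 1) * u + (o + 1) := by omega
      subst hb2
      have h6 : m - u / t ≤ m := Nat.sub_le _ _
      have hq := (bk_in0 m hm u (o + 1) (by omega) hb).1 hmem
      clear h6
      have h5 : o + 1 = t + (m - u / t) := by
        clear hprev ih hp
        rcases bkm0.1 hq with ⟨-, hq⟩ | ⟨-, -, hq, -⟩ | ⟨-, hq, -, -⟩
        · by_contra hne
          exact hq ⟨h1, h2, lt_of_le_of_ne h3 hne, by rw [Nat.add_right_comm]; exact h4.trans (Nat.lt_succ_self _)⟩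
        · rcases hq with hq | hq
          · exact hq
          · rw [Nat.add_right_comm] at hq
            exact absurd hq (h4.trans (Nat.lt_succ_self _)).ne
        · exact absurd hq h2.ne
      obtain ⟨δ, hδ⟩ : ∃ δ, δ = m - u / t := ⟨_, rfl⟩
      rw [← hδ] at h5
      have hδt : δ < t := by
        have := Nat.zero_le (u / t)
        omega
      clear hu ho hprev hp
      have hj := bk_jump hm u δ (by omega) h1 h2 hδ
      have hmem2 : Sum.inl ((0 : Fin 3), ⟨m, hm⟩, ⟨(2 * t + 1) * u + (t - δ), by omega⟩) ∈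
          bkSet t ((2 * t + 1) * t ^ 2) m := by
        obtain ⟨w, hw⟩ := hj
        exact hw _ w.start_mem_support
      have hlt : (2 * t + 1) * u + (t - δ) < (2 * t + 1) * u + (o + 1) := by
        generalize (2 * t + 1) * u = c
        omega
      refine (ih ((2 * t + 1) * u + (t - δ)) hlt (hlt.trans hb) hmem2).trans ?_
      have h6 : (2 * t + 1) * u + (t + δ) = (2 * t + 1) * u + (o + 1) := by omega
      have h7 : (⟨(2 * t + 1) * u + (t + δ), by omega⟩ : Fin ((2 * t + 1) * t ^ 2)) =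
          ⟨(2 * t + 1) * u + (o + 1), hb⟩ := Fin.ext h6
      rw [← h7]
      exact hj

private theorem bk_dis_lt {t m m' p a i j o : ℕ} (hne : m < m') (h : BkMem t m p a i j o)
    (h' : BkMem t m' p a i j o) : False := by
  rcases h with ⟨rfl, h | ⟨h1, h2, h3, h4⟩ | ⟨h1, h2, h3, h4⟩⟩ |
    ⟨rfl, h1, h2, ⟨h3, h4⟩ | ⟨h3, h4, h5⟩⟩ | ⟨rfl, h1, h2, h3, h4, h5⟩ |
    ⟨rfl, h1, ⟨h2, h3⟩ | ⟨h2, h3⟩⟩
  -- p = 0, h : row m
  · rcases h' with ⟨-, h' | ⟨h1', h2', h3', h4'⟩ | ⟨h1', h2', h3', h4'⟩⟩ | ⟨hp, -⟩ | ⟨hp, -⟩ | ⟨hp, -⟩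
    · omega
    · omega
    · omega
    · omega
    · omega
    · omega
  · rcases h' with ⟨-, ⟨h1', h2'⟩ | ⟨h1', h2', h3', h4'⟩ | ⟨h1', h2', h3', h4'⟩⟩ | ⟨hp, -⟩ | ⟨hp, -⟩ | ⟨hp, -⟩
    · apply h2'
      refine ⟨h1, by omega, ?_, ?_⟩
      · rcases h3 with h3 | h3 <;> omega
      · rcases h3 with h3 | h3 <;> omega
    · rcases h3 with h3 | h3 <;> rcases h3' with h3' | h3' <;> omega
    · rcases h3 with h3 | h3 <;> omega
    · omega
    · omega
    · omega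
  · rcases h' with ⟨-, ⟨h1', h2'⟩ | ⟨h1', h2', h3', h4'⟩ | ⟨h1', h2', h3', h4'⟩⟩ | ⟨hp, -⟩ | ⟨hp, -⟩ | ⟨hp, -⟩
    · apply h2'
      refine ⟨h1, by omega, by omega, by omega⟩
    · rcases h3' with h3' | h3' <;> omega
    · omega
    · omega
    · omega
    · omega
  · rcases h' with ⟨hp, -⟩ | ⟨-, h1', h2', ⟨h3', h4'⟩ | ⟨h3', h4', h5'⟩⟩ | ⟨hp, -⟩ | ⟨hp, -⟩
    · omega
    · rcases h3 with h3 | h3 <;> rcases h3' with h3' | h3' <;> omega
    · rcases h3 with h3 | h3 <;> omega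
    · omega
    · omega
  · rcases h' with ⟨hp, -⟩ | ⟨-, h1', h2', ⟨h3', h4'⟩ | ⟨h3', h4', h5'⟩⟩ | ⟨hp, -⟩ | ⟨hp, -⟩
    · omega
    · rcases h3' with h3' | h3' <;> omega
    · omega
    · omega
    · omega
  · rcases h' with ⟨hp, -⟩ | ⟨hp, -⟩ | ⟨-, h1', h2', h3', h4', h5'⟩ | ⟨hp, -⟩
    · omega
    · omega
    · omega
    · omega
  · rcases h' with ⟨hp, -⟩ | ⟨hp, -⟩ | ⟨hp, -⟩ | ⟨-, h1', ⟨h2', h3'⟩ | ⟨h2', h3'⟩⟩
    · omega
    · omega
    · omega
    · rcases h3 with h3 | h3 <;> rcases h3' with h3' | h3' <;> omega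
    · omega
  · rcases h' with ⟨hp, -⟩ | ⟨hp, -⟩ | ⟨hp, -⟩ | ⟨-, h1', ⟨h2', h3'⟩ | ⟨h2', h3'⟩⟩
    · omega
    · omega
    · omega
    · rcases h3' with h3' | h3' <;> omega
    · omega

private theorem bk_dis {t m m' p a i j o : ℕ} (hne : m ≠ m') (h : BkMem t m p a i j o)
    (h' : BkMem t m' p a i j o) : False := by
  rcases lt_or_gt_of_ne hne with h1 | h1
  · exact bk_dis_lt h1 h h'
  · exact bk_dis_lt h1 h' h

/-- The book with `t` rows in each page and many columns has a `K_t` minor.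
PROOF. `M = (2 * t + 1) * t ^ 2`. For a position `b < M` let `u = b / (2 t + 1) < t ^ 2` (the block), `i = u / t`, `j = u % t`, `o = b % (2 t + 1)`
(so `b = (2 t + 1) (t i + j) + o`, the centre of the block is `o = t`); the block is active if `i < j`. Write `|o - t|` for the distance. The branch set of `m`:
* page 0, vertex `(0, a, b)`: (1) `a = m` and not (active, `i < m`, `|o - t| < m - i`); or (2) active, `i < m`, `|o - t| = m - i`, `m ≤ a`; or
  (3) active, `i = m`, `o = t`, `m ≤ a`;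
* spine vertex `b`: active and (`i < m`, `|o - t| = m - i`, or `i = m`, `o = t`);
* page 1, vertex `(1, a, b)`: active, `i < m`, and (`|o - t| = m - i` and `t ≤ a + (m - i)`, or `|o - t| ≤ m - i` and `a + (m - i) = t`);
* page 2, vertex `(2, a, b)`: `a + 1 = t`, active, `i = m`, `o ≤ t`, `t ≤ o + (j - m)`.
(In words: row `m` runs in page 0; in a block `(i, j)` with `i < m` it leaves page 0 at the positions `t - (m - i)`, `t + (m - i)`, passes the spine and runs in page 1 in the row `t - (m - i)`; in the block `(m, j)` it goes up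
at the centre, over the spine, and in page 2 to the position `t - (j - m)`, which is next to the spine vertex of `j`.)
Disjoint: for `m ≠ m'` all cases by `omega`. Edge for `m < m'`: block `u = t * m + m'`, `b = (2 t + 1) * u + t - (m' - m)`: the vertices `(2, t - 1, b)` and the spine vertex `b`.
Connected (prove that every vertex is joined to `(0, m, 0)` by a walk inside the branch set, then `Conn.induce` / `conn_of_root`; block 0 is not active): strong induction on `b` for the vertices `(0, m, b)` of the branch set: if `(0, m, b - 1)` is in the branch set it is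
adjacent; otherwise the block of `b - 1` is active, `i < m`, `|o - t| < m - i =: δ` there, and `b` is in the same block with `o(b) = t + δ`; walk: column `b` of page 0 from row `m` to row `t - 1`, spine `b`, column `b` of page 1 down to row `t - δ`, row `t - δ` of page 1 to the
position `b - 2 δ`, column up, spine `b - 2 δ`, column of page 0 down to `(0, m, b - 2 δ)`, which is in the branch set (type (2)). The other vertices are on these walks, or in columns over `(0, m, b)` (type (3)), the spine vertex over them, or in row `t - 1` of page 2 between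
`t - (j - m)` and the centre, which is adjacent to the spine vertex of the centre. -/
theorem book_top (t : ℕ) : ∃ (M : ℕ) (β : Fin t → Set ((Fin 3 × Fin t × Fin M) ⊕ Fin M)),
    (∀ m, ((bookG t M).induce (β m)).Connected) ∧
    (∀ m m', m ≠ m' → Disjoint (β m) (β m')) ∧
    ∀ m m', m < m' → ∃ x ∈ β m, ∃ y ∈ β m', (bookG t M).Adj x y := by
  classical
  rcases Nat.eq_zero_or_pos t with rfl | ht
  · exact ⟨0, fun m => m.elim0, fun m => m.elim0, fun m => m.elim0, fun m => m.elim0⟩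
  have h0 : 0 < (2 * t + 1) * t ^ 2 := by positivity
  refine ⟨(2 * t + 1) * t ^ 2, fun m => bkSet t ((2 * t + 1) * t ^ 2) m, fun m => ?_,
    fun m m' hne => ?_, fun m m' hlt => ?_⟩
  · have hm := m.2
    have hdec : ∀ b : ℕ, b < (2 * t + 1) * t ^ 2 → ∃ u o, b = (2 * t + 1) * u + o ∧
        o ≤ 2 * t ∧ u < t ^ 2 := by
      intro b hb
      refine ⟨b / (2 * t + 1), b % (2 * t + 1), (Nat.div_add_mod _ _).symm, ?_, ?_⟩
      · have := Nat.mod_lt b (show 0 < 2 * t + 1 by omega)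
        omega
      · exact Nat.div_lt_of_lt_mul hb
    have hroot : Sum.inl ((0 : Fin 3), m, ⟨0, h0⟩) ∈ bkSet t ((2 * t + 1) * t ^ 2) m := by
      show BkMem t m 0 m (0 / (2 * t + 1) / t) (0 / (2 * t + 1) % t) (0 % (2 * t + 1))
      rw [Nat.zero_div, Nat.zero_div, Nat.zero_mod, Nat.zero_mod]
      exact bkm0.2 (Or.inl ⟨rfl, fun h => absurd h.1 (lt_irrefl _)⟩)
    refine (conn_of_root (Sum.inl ((0 : Fin 3), m, ⟨0, h0⟩)) ?_).induce ⟨_, hroot⟩
    have hsp : ∀ (u o : ℕ) (hb : (2 * t + 1) * u + o < (2 * t + 1) * t ^ 2), o ≤ 2 * t →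
        BkMem t m 3 0 (u / t) (u % t) o →
        Rw (bookG t ((2 * t + 1) * t ^ 2)) (bkSet t ((2 * t + 1) * t ^ 2) m)
          (Sum.inl (0, m, ⟨0, h0⟩)) (Sum.inr ⟨(2 * t + 1) * u + o, hb⟩) := by
      intro u o hb ho h
      exact (bk_main hm h0 _ hb ((bk_in0 _ _ u o ho hb).2 (bk_30 h le_rfl))).trans
        (bk_up hm u o ho hb h)
    rintro (⟨p, a, b⟩ | b) hx
    · obtain ⟨u, o, hbo, ho, hu⟩ := hdec b.1 b.2
      obtain ⟨b, hb⟩ := b
      obtain ⟨a, ha⟩ := a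
      simp only at hbo
      subst hbo
      have hx' := (bk_inl p a ha u o ho hb).1 hx
      have hx2 := hx'
      unfold BkMem at hx2
      rcases hx2 with ⟨hp, h⟩ | ⟨hp, h1, h2, h⟩ | ⟨hp, h1, h2, h3, h4, h5⟩ | ⟨hp, -⟩
      · have hp0 : p = 0 := Fin.ext hp
        subst hp0
        by_cases hs : BkMem t m 3 0 (u / t) (u % t) o
        · refine (bk_main hm h0 _ hb ?_).trans (bk_up0 hm u o ho hb hs a ha ?_)
          · exact (bk_in0 _ _ u o ho hb).2 (bk_30 hs le_rfl)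
          · rcases h with ⟨h, -⟩ | ⟨-, -, -, h⟩ | ⟨-, -, -, h⟩
            · exact h.ge
            · exact h
            · exact h
        · have ham : a = m := by
            rcases h with ⟨h, -⟩ | ⟨h1, h2, h3, -⟩ | ⟨h1, h2, h3, -⟩
            · exact h
            · exact absurd (bkm3.2 ⟨h1, Or.inl ⟨h2, h3⟩⟩) hs
            · exact absurd (bkm3.2 ⟨h1, Or.inr ⟨h2, h3⟩⟩) hs
          subst ham
          exact bk_main hm h0 _ hb hx
      · have hp0 : p = 1 := Fin.ext hp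
        subst hp0
        rcases h with ⟨h3, h4⟩ | ⟨h3, h4, h5⟩
        · exact (hsp u o hb ho (bkm3.2 ⟨h1, Or.inl ⟨h2, h3⟩⟩)).trans
            (bk_dn u o ho hb h1 h2 h3 a ha h4).symm
        · obtain ⟨δ, hδ⟩ : ∃ δ, δ = (m : ℕ) - u / t := ⟨_, rfl⟩
          have hb' : (2 * t + 1) * u + (t + δ) < (2 * t + 1) * t ^ 2 :=
            bk_lt t u _ (by omega) hu
          have g1 : t + δ ≤ 2 * t := by clear hb hb' hx hx'; omega
          exact (hsp u (t + δ) hb' g1 (bkm3.2 ⟨h1, Or.inl ⟨h2, Or.inl (by rw [hδ])⟩⟩)).trans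
            (Rw.trans (bk_dn u (t + δ) g1 hb' h1 h2 (Or.inl (by rw [hδ])) a ha h5.ge).symm
            (bk_row1 u o (t + δ) (by rw [hδ]; exact h3) hb' h1 h2 h4 (by rw [hδ]) a ha h5).symm)
      · have hp0 : p = 2 := Fin.ext hp
        subst hp0
        have hb' : (2 * t + 1) * u + t < (2 * t + 1) * t ^ 2 := bk_lt t u _ (by omega) hu
        have hs : BkMem t m 3 0 (u / t) (u % t) t := bkm3.2 ⟨h2, Or.inr ⟨h3, rfl⟩⟩
        have hmem2 : ∀ o₁, o ≤ o₁ → o₁ ≤ t → BkMem t m 2 a (u / t) (u % t) o₁ :=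
          fun o₁ h6 h7 => bkm2.2 ⟨h1, h2, h3, h7, h5.trans (Nat.add_le_add_right h6 _)⟩
        refine (hsp u t hb' (by omega) hs).trans (Rw.trans (bk_spine 2 ⟨a, ha⟩ _ h1
          ((bk_in2 a ha u t (by omega) hb').2 (hmem2 t h4 le_rfl))
          ((bk_inr u t (by omega) hb').2 hs)).symm ?_)
        refine (bk_row 2 ⟨a, ha⟩ _ _ (by omega) hb' fun b hb2 h6 h7 => ?_).symm
        obtain ⟨o₁, rfl⟩ : ∃ o₁, b = (2 * t + 1) * u + o₁ := ⟨b - (2 * t + 1) * u, by omega⟩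
        exact (bk_in2 a ha u o₁ (by omega) hb2).2 (hmem2 o₁ (by omega) (by omega))
      · have := p.2
        omega
    · obtain ⟨u, o, hbo, ho, hu⟩ := hdec b.1 b.2
      obtain ⟨b, hb⟩ := b
      simp only at hbo
      subst hbo
      exact hsp u o hb ho ((bk_inr u o ho hb).1 hx)
  · have hne' : (m : ℕ) ≠ m' := fun h => hne (Fin.ext h)
    rw [Set.disjoint_left]
    rintro (⟨p, a, b⟩ | b) h h'
    · exact bk_dis hne' h h'
    · exact bk_dis hne' h h'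
  · have hlt' : (m : ℕ) < m' := hlt
    have hm' := m'.2
    have hu : t * (m : ℕ) + m' < t ^ 2 := by
      have h1 : t * ((m : ℕ) + 1) ≤ t * t := Nat.mul_le_mul_left _ m.2
      have h2 : t * ((m : ℕ) + 1) = t * m + t := by ring
      have h3 : t ^ 2 = t * t := by ring
      omega
    have hd1 : (t * (m : ℕ) + m') / t = m := by
      rw [Nat.mul_add_div ht, Nat.div_eq_of_lt hm', add_zero]
    have hd2 : (t * (m : ℕ) + m') % t = m' := by
      rw [Nat.mul_add_mod, Nat.mod_eq_of_lt hm']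
    have hb := bk_lt t _ (t - ((m' : ℕ) - m)) (by omega) hu
    refine ⟨Sum.inl (2, ⟨t - 1, by omega⟩, ⟨_, hb⟩), (bk_in2 _ _ _ _ (by omega) hb).2 ?_,
      Sum.inr ⟨_, hb⟩, (bk_inr _ _ (by omega) hb).2 ?_, ?_, rfl⟩
    · rw [hd1, hd2]
      refine bkm2.2 ⟨?_, hlt', rfl, Nat.sub_le _ _, ?_⟩
      · clear hb hu; omega
      · clear hb hu; omega
    · rw [hd1, hd2]
      refine bkm3.2 ⟨hlt', Or.inl ⟨hlt', Or.inr ?_⟩⟩
      clear hb hu; omega
    · show t - 1 + 1 = t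
      omega

end Pool.Agent.MP_fd1949_C
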