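import Mathlib
import Pool.Agent.Lib.MP_fd1949_C.Defs

/-!
# Chains with jumps
-/

namespace Pool.Agent.MP_fd1949_C

open Pool.Agent.MP_fd1949_co Pool.Agent.MP_fd1949_P

variable {V : Type} {G : SimpleGraph V} {s s' : ℕ} {Y Y' : Set V} {x y z : V}

lemma JChain.refl (x : V) : JChain G s Y x x := Relation.ReflTransGen.refl

lemma JChain.trans (h : JChain G s Y x y) (h' : JChain G s Y y z) : JChain G s Y x z :=
  Relation.ReflTransGen.trans h h'

lemma JChain.mono (hs : s ≤ s') (hY : Y ⊆ Y') (h : JChain G s Y x y) : JChain G s' Y' x y := by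
  induction h with
  | refl => exact JChain.refl _
  | tail _ h ih => exact Relation.ReflTransGen.tail ih ⟨hY h.1, hY h.2.1, h.2.2.mono hs⟩

lemma JChain.of_near (hx : x ∈ Y) (hy : y ∈ Y) (h : NearN G s x y) : JChain G s Y x y :=
  Relation.ReflTransGen.single ⟨hx, hy, h⟩

lemma JChain.symm (h : JChain G s Y x y) : JChain G s Y y x := by
  induction h with
  | refl => exact JChain.refl _
  | tail _ h ih => exact (JChain.of_near h.2.1 h.1 h.2.2.symm).trans ih

lemma JChain.mem (h : JChain G s Y x y) (hx : x ∈ Y) : y ∈ Y := by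
  rcases Relation.ReflTransGen.cases_tail h with h | ⟨_, _, h⟩
  · rw [h]
    exact hx
  · exact h.2.1

lemma JChain.reachable (h : JChain G s Y x y) : G.Reachable x y := by
  induction h with
  | refl => exact SimpleGraph.Reachable.refl _
  | tail _ h ih => exact ih.trans h.2.2.reachable

/-- Induction along a chain starting in `Y`: a chain in `Y` stays in the set of all points `y` with
`JChain G s Y x y`. -/
lemma JChain.sub (h : JChain G s Y x y) :
    JChain G s {p | p ∈ Y ∧ JChain G s Y x p} x y := by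
  induction h with
  | refl => exact JChain.refl _
  | @tail b c h1 h2 ih =>
    refine ih.trans (JChain.of_near ⟨h2.1, h1⟩ ⟨h2.2.1, h1.tail h2⟩ h2.2.2)

/-- The set of all points `y` with `JChain G s Y x y`. -/
lemma jconn_comp : JConn G s {p | p ∈ Y ∧ JChain G s Y x p} := by
  rintro u ⟨hu, hxu⟩ v ⟨hv, hxv⟩
  exact hxu.sub.symm.trans hxv.sub

lemma JConn.mono_s (hs : s ≤ s') (h : JConn G s Y) : JConn G s' Y :=
  fun x hx y hy => (h x hx y hy).mono hs subset_rfl

/-- Two connected sets with points at distance at most `s`. -/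
lemma JConn.union (hY : JConn G s Y) (hY' : JConn G s Y') (hx : x ∈ Y) (hy : y ∈ Y')
    (h : NearN G s x y) : JConn G s (Y ∪ Y') := by
  have key : ∀ u ∈ Y ∪ Y', JChain G s (Y ∪ Y') x u := by
    rintro u (hu | hu)
    · exact (hY x hx u hu).mono le_rfl Set.subset_union_left
    · have h1 : JChain G s (Y ∪ Y') y u := (hY' y hy u hu).mono le_rfl Set.subset_union_right
      have h2 : JChain G s (Y ∪ Y') x y :=
        JChain.of_near (Set.mem_union_left _ hx) (Set.mem_union_right _ hy) h
      exact h2.trans h1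
  exact fun u hu v hv => (key u hu).symm.trans (key v hv)

/-- A hub with many arms. -/
lemma jconn_iUnion {ι : Type} {D₀ : Set V} (A : ι → Set V) (I : Set ι) (hne : D₀.Nonempty)
    (hD : JConn G s D₀) (hA : ∀ i ∈ I, JConn G s (D₀ ∪ A i)) :
    JConn G s (D₀ ∪ ⋃ i ∈ I, A i) := by
  obtain ⟨x, hx⟩ := hne
  have key : ∀ u ∈ D₀ ∪ ⋃ i ∈ I, A i, JChain G s (D₀ ∪ ⋃ i ∈ I, A i) x u := by
    rintro u (hu | hu)
    · exact (hD x hx u hu).mono le_rfl Set.subset_union_left
    · obtain ⟨i, hi, hu⟩ := Set.mem_iUnion₂.1 hu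
      refine (hA i hi x (Or.inl hx) u (Or.inr hu)).mono le_rfl ?_
      exact Set.union_subset_union_right _ (Set.subset_iUnion₂ (s := fun i _ => A i) i hi)
  exact fun u hu v hv => (key u hu).symm.trans (key v hv)

end Pool.Agent.MP_fd1949_C
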