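import Mathlib
import Pool.Agent.Lib.MP_fd1949_C.Defs
import Pool.Agent.Lib.MP_fd1949_C.Jump

/-!
# Columns and lifts
-/

namespace Pool.Agent.MP_fd1949_C

open Pool.Agent.MP_fd1949_co Pool.Agent.MP_fd1949_P

variable {V : Type} {G : SimpleGraph V} {κ H : ℕ} {f : V → ℕ} {F : V → ℕ → V}

lemma f_near (hlip : ∀ x y, G.Adj x y → f x ≤ f y + 1) {n : ℕ} {x y : V} (h : NearN G n x y) :
    f x ≤ f y + n := by
  obtain ⟨w, hw⟩ := h
  have key : ∀ (x y : V) (w : G.Walk x y), f x ≤ f y + w.length := by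
    intro x y w
    induction w with
    | nil => simp
    | cons h _ ih =>
      have := hlip _ _ h
      rw [SimpleGraph.Walk.length_cons]
      omega
  have := key x y w
  omega

lemma Combing.f_near (hC : Combing G κ H f F) {n : ℕ} {x y : V} (h : NearN G n x y) :
    f x ≤ f y + n := MP_fd1949_C.f_near hC.lip h

lemma Combing.f_pt (hC : Combing G κ H f F) {x : V} {m : ℕ} (h : m ≤ f x) : f (pt f F x m) = m :=
  hC.lev x m h

lemma Combing.pt_self (hC : Combing G κ H f F) (x : V) : pt f F x (f x) = x := hC.self x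

lemma Combing.pt_adj (hC : Combing G κ H f F) {x : V} {m : ℕ} (h : m + 1 ≤ f x) :
    G.Adj (pt f F x m) (pt f F x (m + 1)) := hC.adj x m h

lemma Combing.pt_near' (hC : Combing G κ H f F) {x : V} {m m' : ℕ} (h : m ≤ m') (h' : m' ≤ f x) :
    NearN G (m' - m) (pt f F x m) (pt f F x m') :=
  seq_near (pt f F x) h fun n _ hn => hC.pt_adj (by omega)

lemma Combing.pt_near (hC : Combing G κ H f F) {x : V} {m : ℕ} (h : m ≤ f x) :
    NearN G (f x - m) x (pt f F x m) := by
  have := hC.pt_near' h le_rfl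
  rw [hC.pt_self] at this
  exact this.symm

/-- Columns of far points are far. -/
lemma Combing.near_cols (hC : Combing G κ H f F) {x y : V} {m m' D : ℕ} (h : m ≤ f x)
    (h' : m' ≤ f y) (hn : NearN G D (pt f F x m) (pt f F y m')) :
    NearN G (f x - m + D + (f y - m')) x y :=
  ((hC.pt_near h).trans hn).trans (hC.pt_near h').symm

lemma Combing.fellow_adj (hC : Combing G κ H f F) {x y : V} {m : ℕ} (hxy : G.Adj x y)
    (hx : m ≤ f x) (hy : m ≤ f y) (hx' : f x ≤ m + H) :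
    NearN G κ (pt f F x m) (pt f F y m) := hC.fellow x y hxy m hx hy hx'

/-- Columns of points at distance at most `s`. -/
lemma Combing.fellow_near (hC : Combing G κ H f F) {x y : V} {m s : ℕ} (h : NearN G s x y)
    (hx : m + s ≤ f x) (hx' : f x + s ≤ m + H) :
    NearN G (κ * s) (pt f F x m) (pt f F y m) := by
  obtain ⟨w, hw⟩ := h
  have key : ∀ (x y : V) (w : G.Walk x y), m + w.length ≤ f x → f x + w.length ≤ m + H →
      NearN G (κ * w.length) (pt f F x m) (pt f F y m) := by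
    intro x y w
    induction w with
    | nil => intro _ _; exact NearN.refl _ _
    | @cons x z y hxz w ih =>
      intro h1 h2
      rw [SimpleGraph.Walk.length_cons] at h1 h2 ⊢
      have h3 := hC.lip _ _ hxz
      have h4 := hC.lip _ _ hxz.symm
      have h5 := hC.fellow_adj hxz (m := m) (by omega) (by omega) (by omega)
      refine (h5.trans (ih (by omega) (by omega))).mono ?_
      rw [Nat.mul_add, Nat.mul_one]
      omega
  exact (key x y w (by omega) (by omega)).mono (Nat.mul_le_mul_left _ hw)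

lemma conn_lift (hC : Combing G κ H f F) {Y : Set V} {s m : ℕ} (hY : JConn G s Y)
    (h : ∀ y ∈ Y, m + s ≤ f y ∧ f y + s ≤ m + H) : Conn G (lift G f F (κ * s) Y m) := by
  have hsub : ∀ y ∈ Y, ball G (pt f F y m) (κ * s) ⊆ lift G f F (κ * s) Y m :=
    fun y hy z hz => ⟨_, ⟨y, hy, rfl⟩, hz⟩
  have hball : ∀ y ∈ Y, ∀ u ∈ ball G (pt f F y m) (κ * s), ∀ v ∈ ball G (pt f F y m) (κ * s),
      ∃ w : G.Walk u v, ∀ z ∈ w.support, z ∈ lift G f F (κ * s) Y m := by
    intro y hy u hu v hv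
    obtain ⟨w, hw⟩ := conn_ball (G := G) (pt f F y m) (κ * s) u hu v hv
    exact ⟨w, fun z hz => hsub y hy (hw z hz)⟩
  have hchain : ∀ x y, x ∈ Y → JChain G s Y x y →
      ∃ w : G.Walk (pt f F x m) (pt f F y m), ∀ z ∈ w.support, z ∈ lift G f F (κ * s) Y m := by
    intro x y hx hxy
    induction hxy with
    | refl => exact hball x hx _ (mem_ball_self _ _) _ (mem_ball_self _ _)
    | @tail b c _ h2 ih =>
      obtain ⟨w, hw⟩ := ih
      obtain ⟨w', hw'⟩ := hball b h2.1 _ (mem_ball_self _ _) (pt f F c m)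
        (hC.fellow_near h2.2.2 (h b h2.1).1 (h b h2.1).2)
      refine ⟨w.append w', fun z hz => ?_⟩
      rcases (SimpleGraph.Walk.mem_support_append_iff _ _).1 hz with hz | hz
      · exact hw z hz
      · exact hw' z hz
  rintro u ⟨_, ⟨x, hx, rfl⟩, hu⟩ v ⟨_, ⟨y, hy, rfl⟩, hv⟩
  obtain ⟨w1, h1⟩ := hball x hx u hu _ (mem_ball_self _ _)
  obtain ⟨w2, h2⟩ := hchain x y hx (hY x hx y hy)
  obtain ⟨w3, h3⟩ := hball y hy _ (mem_ball_self _ _) v hv
  refine ⟨w1.append (w2.append w3), fun z hz => ?_⟩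
  rcases (SimpleGraph.Walk.mem_support_append_iff _ _).1 hz with hz | hz
  · exact h1 z hz
  rcases (SimpleGraph.Walk.mem_support_append_iff _ _).1 hz with hz | hz
  · exact h2 z hz
  · exact h3 z hz

lemma lift_f (hC : Combing G κ H f F) {Y : Set V} {k m : ℕ} (hY : ∀ y ∈ Y, m ≤ f y) {z : V}
    (hz : z ∈ lift G f F k Y m) : m ≤ f z + k ∧ f z ≤ m + k := by
  obtain ⟨_, ⟨y, hy, rfl⟩, hyz⟩ := hz
  have h1 := hC.f_near hyz
  have h2 := hC.f_near hyz.symm
  rw [hC.f_pt (hY y hy)] at h1 h2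
  exact ⟨h1, h2⟩

lemma mem_lift {Y : Set V} {k m : ℕ} {y : V} (hy : y ∈ Y) :
    pt f F y m ∈ lift G f F k Y m := ⟨_, ⟨y, hy, rfl⟩, NearN.refl _ _⟩

end Pool.Agent.MP_fd1949_C
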