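import Mathlib
import Pool.Agent.Lib.MP_fd1949_C.Jump

/-!
# The graph of close pairs
-/

namespace Pool.Agent.MP_fd1949_C

open Pool.Agent.MP_fd1949_co Pool.Agent.MP_fd1949_P

variable {V : Type} {G : SimpleGraph V} {r s R : ℕ} {Y : Set V} {x y : V}

lemma gam_of_near (hr : r ≤ s) (hR : r ≤ R) (hx : x ∈ Y) (hy : y ∈ Y) (h : NearN G r x y)
    (hne : x ≠ y) : (gam G Y r s R).Adj x y := by
  have hxy : JChain G r Y x y := JChain.of_near hx hy h
  have hZ : JChain G s ({x, y} : Set V) x y :=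
    JChain.of_near (by simp) (by simp) (h.mono hr)
  refine ⟨hne, x, {x, y}, ?_, ?_, ?_, by simp, by simp, hZ, hZ.symm⟩
  · rintro p (rfl | rfl)
    · exact hx
    · exact hy
  · rintro p (rfl | rfl)
    · exact NearN.refl _ _
    · exact h.mono hR
  · rintro p (rfl | rfl) p' (rfl | rfl)
    · exact JChain.refl _
    · exact hxy
    · exact hxy.symm
    · exact JChain.refl _

/-- One edge. -/
lemma gam_edge (h : (gam G Y r s R).Adj x y) : ∃ L ⊆ Y, x ∈ L ∧ y ∈ L ∧ JConn G s L ∧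
    (∀ p ∈ L, NearN G (2 * R) x p) ∧ ∀ p ∈ L, ∀ p' ∈ L, JChain G r Y p p' := by
  obtain ⟨-, z, Z, h1, h2, h3, h4, h5, h6, -⟩ := h
  refine ⟨{p | p ∈ Z ∧ JChain G s Z x p}, fun p hp => h1 hp.1, ⟨h4, JChain.refl _⟩, ⟨h5, h6⟩,
    jconn_comp, fun p hp => ?_, fun p hp p' hp' => h3 p hp.1 p' hp'.1⟩
  exact ((h2 x h4).symm.trans (h2 p hp.1)).mono (by omega)

/-- Legs. -/
theorem gam_leg {n : ℕ} (h : NearN (gam G Y r s R) n x y) (hx : x ∈ Y) :
    ∃ L ⊆ Y, x ∈ L ∧ y ∈ L ∧ JConn G s L ∧ (∀ p ∈ L, NearN G (2 * R * n) x p) ∧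
      JChain G r Y x y := by
  obtain ⟨w, hw⟩ := h
  have key : ∀ (x y : V) (w : (gam G Y r s R).Walk x y), x ∈ Y → ∃ L ⊆ Y, x ∈ L ∧ y ∈ L ∧
      JConn G s L ∧ (∀ p ∈ L, NearN G (2 * R * w.length) x p) ∧ JChain G r Y x y := by
    intro x y w
    induction w with
    | nil =>
      intro hx
      rename_i u
      refine ⟨{u}, Set.singleton_subset_iff.2 hx, rfl, rfl, ?_, ?_, JChain.refl _⟩
      · rintro p rfl p' rfl
        exact JChain.refl _
      · rintro p rfl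
        exact NearN.refl _ _
    | @cons x z y hxz w ih =>
      intro hx
      obtain ⟨L, h1, h2, h3, h4, h5, h6⟩ := gam_edge hxz
      obtain ⟨L', g1, g2, g3, g4, g5, g6⟩ := ih (h1 h3)
      refine ⟨L ∪ L', Set.union_subset h1 g1, Or.inl h2, Or.inr g3,
        h4.union g4 h3 g2 (NearN.refl _ _), ?_, (h6 x h2 z h3).trans g6⟩
      rw [SimpleGraph.Walk.length_cons, Nat.mul_add, Nat.mul_one]
      rintro p (hp | hp)
      · exact (h5 p hp).mono (by omega)
      · exact ((h5 z h3).trans (g5 p hp)).mono (by omega)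
  obtain ⟨L, h1, h2, h3, h4, h5, h6⟩ := key x y w hx
  exact ⟨L, h1, h2, h3, h4, fun p hp => (h5 p hp).mono (Nat.mul_le_mul_left _ hw), h6⟩

end Pool.Agent.MP_fd1949_C
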