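import Mathlib
import Pool.Agent.Lib.MP_fd1949_C.Gam

/-!
# The exit set
-/

namespace Pool.Agent.MP_fd1949_C

open Pool.Agent.MP_fd1949_co Pool.Agent.MP_fd1949_P

/-- The component of `y` in a ball does not come close to `E`, but it leaves the smaller ball. -/
theorem exit_set {V : Type} {G : SimpleGraph V} {Y E : Set V} {r s R R₁ : ℕ} (hrs : r ≤ s)
    (hR : R₁ + s ≤ R) (hrR : r ≤ R₁) (g : V → ℕ)
    (hg : ∀ x y, (gam G Y r s R).Adj x y → g x ≤ g y + 1) (hEY : E ⊆ Y) (hE : JConn G r E)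
    {y e : V} (hy : y ∈ Y) (he : e ∈ E) (hch : JChain G r Y y e)
    (hlow : ∀ e' ∈ E, g y + 1 < g e') :
    ∃ σ ⊆ Y, JConn G r σ ∧ y ∈ σ ∧ (∀ p ∈ σ, NearN G R₁ y p) ∧ Far G (s + 1) σ E ∧
      ∃ p ∈ σ, ¬ NearN G (R₁ - r) y p := by
  set B : Set V := {p | p ∈ Y ∧ NearN G R₁ y p} with hB
  set σ : Set V := {p | p ∈ B ∧ JChain G r B y p} with hσ
  have hyB : y ∈ B := ⟨hy, NearN.refl _ _⟩
  have hBY : B ⊆ Y := fun p hp => hp.1
  have hyσ : y ∈ σ := ⟨hyB, JChain.refl _⟩
  have hfar : Far G (s + 1) σ E := by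
    rw [far_succ_iff]
    intro p hp e' he' hn
    have h1 := hlow e' he'
    -- `y` and `e'` are adjacent in `gam`
    have hsub : σ ∪ {e'} ⊆ Y := Set.union_subset (fun p hp => hBY hp.1)
      (Set.singleton_subset_iff.2 (hEY he'))
    have hYy : ∀ u ∈ σ ∪ {e'}, JChain G r Y y u := by
      rintro u (hu | hu)
      · exact hu.2.mono le_rfl hBY
      · have hu' : u = e' := hu
        subst hu'
        exact hch.trans ((hE e he u he').mono le_rfl hEY)
    have hZ : JChain G s (σ ∪ {e'}) y e' := by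
      have h2 : JChain G r σ y p := jconn_comp y hyσ p hp
      have h3 : JChain G s (σ ∪ {e'}) y p := h2.mono hrs Set.subset_union_left
      exact h3.trans (JChain.of_near (Set.mem_union_left _ hp)
        (Set.mem_union_right _ (Set.mem_singleton e')) hn)
    have hadj : (gam G Y r s R).Adj e' y := by
      refine ⟨?_, y, σ ∪ {e'}, hsub, ?_, ?_, Or.inr rfl, Or.inl hyσ, hZ.symm, hZ⟩
      · rintro rfl
        omega
      · rintro u (hu | hu)
        · exact hu.1.2.mono (by omega)
        · have hu' : u = e' := hu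
          subst hu'
          exact (hp.1.2.trans hn).mono hR
      · intro u hu u' hu'
        exact (hYy u hu).symm.trans (hYy u' hu')
    have := hg _ _ hadj
    omega
  refine ⟨σ, fun p hp => hBY hp.1, jconn_comp, hyσ, fun p hp => hp.1.2, hfar, ?_⟩
  by_contra hcon
  push Not at hcon
  have key : ∀ z, JChain G r Y y z → z ∈ σ := by
    intro z hz
    induction hz with
    | refl => exact hyσ
    | @tail b c _ h2 ih =>
      have hc : c ∈ B := ⟨h2.2.1, ((hcon b ih).trans h2.2.2).mono (by omega)⟩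
      exact ⟨hc, ih.2.trans (JChain.of_near ih.1 hc h2.2.2)⟩
  exact hfar.not_near (m := 0) (by omega) (key e hch) he (NearN.refl _ _)

end Pool.Agent.MP_fd1949_C
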