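import Mathlib
import Pool.Agent.Lib.MP_fd1949_C.Jump

/-!
# Many far apart points in a large connected set
-/

namespace Pool.Agent.MP_fd1949_C

open Pool.Agent.MP_fd1949_co Pool.Agent.MP_fd1949_P

lemma not_near_iff {V : Type} {G : SimpleGraph V} {n : ℕ} {x y : V} (hr : G.Reachable x y) :
    ¬ NearN G n x y ↔ n < G.dist x y := by
  rw [nearN_iff, not_and, not_le]
  exact ⟨fun h => h hr, fun h _ => h⟩

lemma dist_le_add {V : Type} {G : SimpleGraph V} {n : ℕ} {u x y : V} (hr : G.Reachable u x)
    (h : NearN G n x y) : G.dist u y ≤ G.dist u x + n := by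
  obtain ⟨w, hw⟩ := h
  obtain ⟨w', hw'⟩ := hr.exists_walk_length_eq_dist
  have := SimpleGraph.dist_le (w'.append w)
  rw [SimpleGraph.Walk.length_append] at this
  omega

/-- On a chain from `u` the distance to `u` takes all values up to jumps of length `s`. -/
lemma chain_ivt {V : Type} {G : SimpleGraph V} {s : ℕ} {E : Set V} {u v : V} (hu : u ∈ E)
    (h : JChain G s E u v) (T : ℕ) (hT : T ≤ G.dist u v) :
    ∃ p ∈ E, JChain G s E u p ∧ T ≤ G.dist u p ∧ G.dist u p ≤ T + s := by
  induction h with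
  | refl =>
    refine ⟨u, hu, JChain.refl u, hT, ?_⟩
    rw [SimpleGraph.dist_self]
    omega
  | @tail b c h1 h2 ih =>
    rcases le_total T (G.dist u b) with h | h
    · exact ih h
    · refine ⟨c, h2.2.1, Relation.ReflTransGen.tail h1 h2, hT, ?_⟩
      have h3 : G.Reachable u b := JChain.reachable h1
      have := dist_le_add h3 h2.2.2
      omega

theorem spread {V : Type} {G : SimpleGraph V} {r : ℕ} {E : Set V} (hE : JConn G r E) {u v : V}
    (hu : u ∈ E) (hv : v ∈ E) (M A : ℕ) (h : ¬ NearN G (M * (A + r + 1)) u v) :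
    ∃ x : Fin M → V, (∀ i, x i ∈ E) ∧ ∀ i j, i ≠ j → ¬ NearN G A (x i) (x j) := by
  have huv : JChain G r E u v := hE u hu v hv
  rw [not_near_iff huv.reachable] at h
  have key : ∀ i : Fin M, ∃ p ∈ E, JChain G r E u p ∧ i * (A + r + 1) ≤ G.dist u p ∧
      G.dist u p ≤ i * (A + r + 1) + r := by
    intro i
    refine chain_ivt hu huv _ ?_
    have : (i : ℕ) * (A + r + 1) ≤ M * (A + r + 1) := Nat.mul_le_mul_right _ i.2.le
    omega
  choose x hx hux h1 h2 using key
  refine ⟨x, hx, ?_⟩
  have main : ∀ i j : Fin M, i < j → ¬ NearN G A (x i) (x j) := by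
    intro i j hij hn
    have h3 := dist_le_add (hux i).reachable hn
    have h4 : ((i : ℕ) + 1) * (A + r + 1) ≤ j * (A + r + 1) := Nat.mul_le_mul_right _ hij
    rw [Nat.add_mul, Nat.one_mul] at h4
    have h5 := h1 j
    have h6 := h2 i
    omega
  intro i j hij
  rcases lt_or_gt_of_ne hij with h | h
  · exact main i j h
  · exact fun hn => main j i h hn.symm

end Pool.Agent.MP_fd1949_C
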