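import Mathlib
import Pool.Agent.Lib.MP_fd1949_C.Exit
import Pool.Agent.Lib.MP_fd1949_C.Spread

/-!
# Clusters are bounded
-/

namespace Pool.Agent.MP_fd1949_C

open Pool.Agent.MP_fd1949_co Pool.Agent.MP_fd1949_P

private lemma not_far {V : Type} {G : SimpleGraph V} {n : ℕ} {y : V} {E : Set V}
    (h : ¬ Far G n {y} E) : ∃ e ∈ E, NearN G n y e := by
  by_contra hcon
  push Not at hcon
  apply h
  rintro x rfl e he w
  by_contra hlt
  exact hcon e he ⟨w, by omega⟩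

theorem cluster {V : Type} {G : SimpleGraph V} {Y : Set V} {r r₁ r₂ r₃ R R₁ t N₃ Δ A : ℕ}
    (g : V → ℕ) (hg1 : ∀ x y, (gam G Y r r₁ R).Adj x y → g x ≤ g y + 1)
    (hg2 : ∀ x n, n ≤ g x → ∃ y, NearN (gam G Y r r₁ R) n x y ∧ g y + n = g x)
    (h1 : StarAt G Y t r₁ r₂) (h2 : StarAt G Y t r₂ r₃) (h3 : SheetsAt G Y N₃ r r₁ r₃ Δ)
    (hr1 : r ≤ r₁) (hr2 : r₁ ≤ r₂) (hR : R₁ + r₁ ≤ R) (hR₁ : N₃ * (Δ + r + 1) + r ≤ R₁)
    (hA1 : 20 * R + r₂ ≤ A) (hA2 : 20 * R + 2 * R₁ + r₃ ≤ A) {b : ℕ} (hb : 3 ≤ b) {u v : V}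
    (hu : u ∈ {p | p ∈ Y ∧ b ≤ g p ∧ g p ≤ b + 2})
    (huv : JChain G r {p | p ∈ Y ∧ b ≤ g p ∧ g p ≤ b + 2} u v) :
    NearN G (2 * Fintype.card (Sym2 (Fin t)) * (A + r + 1)) u v := by
  classical
  by_contra hnn
  set N := Fintype.card (Sym2 (Fin t)) with hN
  set Yb : Set V := {p | p ∈ Y ∧ b ≤ g p ∧ g p ≤ b + 2} with hYb
  set E : Set V := {p | p ∈ Yb ∧ JChain G r Yb u p} with hE
  have hEc : JConn G r E := jconn_comp
  have hEY : E ⊆ Y := fun p hp => hp.1.1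
  have huE : u ∈ E := ⟨hu, JChain.refl _⟩
  have hvE : v ∈ E := ⟨huv.mem hu, huv⟩
  obtain ⟨x, hxE, hxx⟩ := spread hEc huE hvE (2 * N) A hnn
  have hleg : ∀ i, ∃ y L, g y + 3 = b ∧ L ⊆ Y ∧ x i ∈ L ∧ y ∈ L ∧ JConn G r₁ L ∧
      (∀ p ∈ L, NearN G (10 * R) (x i) p) ∧ JChain G r Y (x i) y := by
    intro i
    have hxi := (hxE i).1
    obtain ⟨y, hy1, hy2⟩ := hg2 (x i) (g (x i) - (b - 3)) (by omega)
    obtain ⟨L, k1, k2, k3, k4, k5, k6⟩ := gam_leg hy1 hxi.1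
    have h5 : g (x i) - (b - 3) ≤ 5 := by
      have := hxi.2.2
      omega
    have h10 : 2 * R * (g (x i) - (b - 3)) ≤ 10 * R := by
      calc 2 * R * (g (x i) - (b - 3)) ≤ 2 * R * 5 := Nat.mul_le_mul_left _ h5
        _ = 10 * R := by ring
    have := hxi.2.1
    exact ⟨y, L, by omega, k1, k2, k3, k4, fun p hp => (k5 p hp).mono h10, k6⟩
  choose y L hy hLY hxL hyL hLc hLb hxy using hleg
  have hyY : ∀ i, y i ∈ Y := fun i => hLY i (hyL i)
  have hex : ∀ i, ∃ σ ⊆ Y, JConn G r σ ∧ y i ∈ σ ∧ (∀ p ∈ σ, NearN G R₁ (y i) p) ∧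
      Far G (r₁ + 1) σ E ∧ ∃ p ∈ σ, ¬ NearN G (R₁ - r) (y i) p := by
    intro i
    refine exit_set hr1 hR (by omega) g hg1 hEY hEc (hyY i) (hxE i) (hxy i).symm ?_
    intro e' he'
    have h6 := he'.1.2.1
    have h7 := hy i
    omega
  choose σ hσY hσc hyσ hσb hσfar hσout using hex
  -- embedding of the pairs into a large set of indices
  have hemb : ∀ T : Finset (Fin (2 * N)), N ≤ T.card → ∃ φ : Sym2 (Fin t) → Fin (2 * N),
      Function.Injective φ ∧ ∀ s, φ s ∈ T := by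
    intro T hT
    refine ⟨fun s => T.orderEmbOfCardLe hT (Fintype.equivFin _ s), ?_, fun s =>
      Finset.orderEmbOfCardLe_mem _ hT _⟩
    exact (T.orderEmbOfCardLe hT).injective.comp (Fintype.equivFin _).injective
  set S₁ : Finset (Fin (2 * N)) := Finset.univ.filter fun i => Far G r₂ {y i} E with hS₁
  by_cases hc1 : N ≤ S₁.card
  · obtain ⟨φ, hφ, hφS⟩ := hemb S₁ hc1
    refine h1 E (fun s => L (φ s)) (fun s => y (φ s)) ⟨u, huE⟩ hEY (fun s => hLY _)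
      (hEc.mono_s hr1) (fun s => ?_) (fun s => hyL _) (fun s => ?_) fun s s' hss => ?_
    · exact (hEc.mono_s hr1).union (hLc _) (hxE _) (hxL _) (NearN.refl _ _)
    · exact (Finset.mem_filter.1 (hφS s)).2
    · rintro _ rfl p hp w
      by_contra hlt
      have hne : φ s ≠ φ s' := fun h => hss (hφ h)
      refine hxx (φ s) (φ s') hne ?_
      have k1 := hLb (φ s) _ (hyL (φ s))
      have k2 := hLb (φ s') p hp
      have k3 : NearN G w.length (y (φ s)) p := ⟨w, le_rfl⟩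
      exact ((k1.trans k3).trans k2.symm).mono (by omega)
  set S₂ : Finset (Fin (2 * N)) :=
    Finset.univ.filter fun i => i ∉ S₁ ∧ ∃ p ∈ σ i, Far G r₃ {p} E with hS₂
  have hnear : ∀ i, i ∉ S₁ → ∃ e ∈ E, NearN G r₂ (y i) e := by
    intro i hi
    refine not_far fun h => hi ?_
    rw [hS₁, Finset.mem_filter]
    exact ⟨Finset.mem_univ _, h⟩
  by_cases hc2 : N ≤ S₂.card
  · obtain ⟨φ, hφ, hφS⟩ := hemb S₂ hc2
    have hS : ∀ s, φ s ∉ S₁ ∧ ∃ p ∈ σ (φ s), Far G r₃ {p} E := fun s =>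
      (Finset.mem_filter.1 (hφS s)).2
    choose hS1 z hzσ hzE using hS
    refine h2 E (fun s => σ (φ s)) z ⟨u, huE⟩ hEY (fun s => hσY _)
      (hEc.mono_s (hr1.trans hr2)) (fun s => ?_) hzσ hzE fun s s' hss => ?_
    · obtain ⟨e, he, hne⟩ := hnear (φ s) (hS1 s)
      exact (hEc.mono_s (hr1.trans hr2)).union ((hσc _).mono_s (hr1.trans hr2)) he (hyσ _)
        hne.symm
    · rintro _ rfl p hp w
      by_contra hlt
      have hne : φ s ≠ φ s' := fun h => hss (hφ h)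
      refine hxx (φ s) (φ s') hne ?_
      have k1 := hLb (φ s) _ (hyL (φ s))
      have k2 := hLb (φ s') _ (hyL (φ s'))
      have k3 : NearN G w.length (z s) p := ⟨w, le_rfl⟩
      have k4 := hσb _ _ (hzσ s)
      have k5 := hσb _ _ hp
      exact ((((k1.trans k4).trans k3).trans k5.symm).trans k2.symm).mono (by omega)
  -- an index which is in neither set
  obtain ⟨i, hi⟩ : ∃ i, i ∉ S₁ ∪ S₂ := by
    by_contra hcon
    push Not at hcon
    have k1 : (S₁ ∪ S₂).card ≤ S₁.card + S₂.card := Finset.card_union_le _ _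
    have k2 : S₁ ∪ S₂ = Finset.univ := Finset.eq_univ_iff_forall.2 hcon
    rw [k2, Finset.card_univ, Fintype.card_fin] at k1
    omega
  rw [Finset.mem_union, not_or] at hi
  have hclose : ∀ p ∈ σ i, ∃ e ∈ E, NearN G r₃ p e := by
    intro p hp
    refine not_far fun h => hi.2 ?_
    rw [hS₂, Finset.mem_filter]
    exact ⟨Finset.mem_univ _, hi.1, p, hp, h⟩
  obtain ⟨p, hp, hpn⟩ := hσout i
  obtain ⟨z, hz, hzz⟩ := spread (hσc i) (hyσ i) hp N₃ Δ fun h => hpn (h.mono (by omega))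
  choose e he hze using fun c => hclose (z c) (hz c)
  exact h3 E (σ i) z e hEY (hσY i) hEc (hσc i) (hσfar i) (fun c => ⟨hz c, he c, hze c⟩) hzz

end Pool.Agent.MP_fd1949_C
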