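import Mathlib
import Pool.Agent.Lib.MP_fd1949_P.Base

/-!
# Distances to one root in every component
-/

namespace Pool.Agent.MP_fd1949_C

open Pool.Agent.MP_fd1949_co Pool.Agent.MP_fd1949_P

theorem exists_level {V : Type} (Γ : SimpleGraph V) : ∃ g : V → ℕ,
    (∀ x y, Γ.Adj x y → g x ≤ g y + 1) ∧
    (∀ x n, n ≤ g x → ∃ y, NearN Γ n x y ∧ g y + n = g x) ∧
    (∀ x y, Γ.Reachable x y → NearN Γ (g x + g y) x y) := by
  classical
  set o : V → V := fun x => (Γ.connectedComponentMk x).out with ho
  have hr : ∀ x, Γ.Reachable (o x) x := fun x =>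
    SimpleGraph.ConnectedComponent.exact (Quot.out_eq (Γ.connectedComponentMk x))
  have hoo : ∀ x y, Γ.Reachable x y → o x = o y := by
    intro x y h
    simp only [ho]
    rw [SimpleGraph.ConnectedComponent.sound h]
  refine ⟨fun x => Γ.dist (o x) x, ?_, ?_, ?_⟩
  · intro x y hxy
    have h1 := hoo x y hxy.reachable
    dsimp only
    rw [h1]
    obtain ⟨w, hw⟩ := (hr y).exists_walk_length_eq_dist
    have := SimpleGraph.dist_le (w.concat hxy.symm)
    rw [SimpleGraph.Walk.length_concat] at this
    omega
  · intro x n hn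
    obtain ⟨w, hw⟩ := (hr x).exists_walk_length_eq_dist
    have hn' : n ≤ w.length := by rw [hw]; exact hn
    refine ⟨w.getVert (w.length - n), ?_, ?_⟩
    · refine ⟨(w.drop (w.length - n)).reverse, ?_⟩
      rw [SimpleGraph.Walk.length_reverse, SimpleGraph.Walk.drop_length]
      omega
    · have hxy : Γ.Reachable (w.getVert (w.length - n)) x := ⟨w.drop (w.length - n)⟩
      have h1 : Γ.dist (o x) (w.getVert (w.length - n)) ≤ w.length - n := by
        have := SimpleGraph.dist_le (w.take (w.length - n))
        rw [SimpleGraph.Walk.take_length] at this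
        omega
      have h2 : Γ.dist (o x) x ≤ Γ.dist (o x) (w.getVert (w.length - n)) + n := by
        obtain ⟨w1, hw1⟩ := ((hr x).trans hxy.symm).exists_walk_length_eq_dist
        have := SimpleGraph.dist_le (w1.append (w.drop (w.length - n)))
        rw [SimpleGraph.Walk.length_append, SimpleGraph.Walk.drop_length] at this
        omega
      have h3 := hoo _ x hxy
      have h4 : n ≤ Γ.dist (o x) x := hn
      show Γ.dist (o (w.getVert (w.length - n))) (w.getVert (w.length - n)) + n = Γ.dist (o x) x
      rw [h3]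
      omega
  · intro x y h
    have h1 := hoo x y h
    obtain ⟨w, hw⟩ := (hr x).exists_walk_length_eq_dist
    obtain ⟨w', hw'⟩ := (hr y).exists_walk_length_eq_dist
    have h2 : NearN Γ (Γ.dist (o x) x) (o x) x := ⟨w, hw.le⟩
    have h3 : NearN Γ (Γ.dist (o y) y) (o y) y := ⟨w', hw'.le⟩
    rw [← h1] at h3
    dsimp only
    rw [← h1]
    exact h2.symm.trans h3

end Pool.Agent.MP_fd1949_C
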