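import Mathlib
import Pool.Agent.Lib.MP_fd1949_C.Cluster
import Pool.Agent.Lib.MP_fd1949_C.Level
import Pool.Agent.Lib.MP_fd1949_C.Lift

/-!
# Two colours in a slab
-/

namespace Pool.Agent.MP_fd1949_C

open Pool.Agent.MP_fd1949_co Pool.Agent.MP_fd1949_P

theorem slab2 {V : Type} {G : SimpleGraph V} {Y : Set V} {r r₁ r₂ r₃ R R₁ t N₃ Δ A D : ℕ}
    (h1 : StarAt G Y t r₁ r₂) (h2 : StarAt G Y t r₂ r₃) (h3 : SheetsAt G Y N₃ r r₁ r₃ Δ)
    (hr1 : r ≤ r₁) (hr2 : r₁ ≤ r₂) (hR : R₁ + r₁ ≤ R) (hR₁ : N₃ * (Δ + r + 1) + r ≤ R₁)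
    (hA1 : 20 * R + r₂ ≤ A) (hA2 : 20 * R + 2 * R₁ + r₃ ≤ A) (hD1 : 8 * R ≤ D)
    (hD2 : 2 * Fintype.card (Sym2 (Fin t)) * (A + r + 1) ≤ D) :
    ∃ χ : V → Bool, ∀ x y, x ∈ Y → JChain G r {p | p ∈ Y ∧ χ p = χ x} x y → NearN G D x y := by
  classical
  obtain ⟨g, hg1, hg2, hg3⟩ := exists_level (gam G Y r r₁ R)
  refine ⟨fun p => decide (g p / 3 % 2 = 1), fun x y hx hxy => ?_⟩
  set b := 3 * (g x / 3) with hb
  have key : ∀ z, JChain G r {p | p ∈ Y ∧ decide (g p / 3 % 2 = 1) = decide (g x / 3 % 2 = 1)} x z →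
      z ∈ Y ∧ g z / 3 = g x / 3 ∧ (gam G Y r r₁ R).Reachable x z ∧
      JChain G r {p | p ∈ Y ∧ b ≤ g p ∧ g p ≤ b + 2} x z := by
    intro z hz
    induction hz with
    | refl => exact ⟨hx, rfl, SimpleGraph.Reachable.refl _, JChain.refl _⟩
    | @tail p p' _ h ih =>
      obtain ⟨k1, k2, k3, k4⟩ := ih
      obtain ⟨⟨hp, -⟩, ⟨hp', hcol⟩, hn⟩ := h
      have hcol' : (g p' / 3 % 2 = 1) ↔ (g x / 3 % 2 = 1) := by simpa using hcol
      have hclose : g p ≤ g p' + 1 ∧ g p' ≤ g p + 1 ∧ (gam G Y r r₁ R).Reachable p p' := by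
        by_cases hpp : p = p'
        · subst hpp
          exact ⟨by omega, by omega, SimpleGraph.Reachable.refl _⟩
        · have hadj : (gam G Y r r₁ R).Adj p p' := gam_of_near hr1 (by omega) hp hp' hn hpp
          exact ⟨hg1 _ _ hadj, hg1 _ _ hadj.symm, hadj.reachable⟩
      obtain ⟨c1, c2, c3⟩ := hclose
      have hfl : g p' / 3 = g x / 3 := by omega
      refine ⟨hp', hfl, k3.trans c3, k4.trans (JChain.of_near ⟨hp, ?_, ?_⟩ ⟨hp', ?_, ?_⟩ hn)⟩ <;>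
        omega
  obtain ⟨hy, hfl, hreach, hch⟩ := key y hxy
  by_cases hb3 : 3 ≤ b
  · exact (cluster g hg1 hg2 h1 h2 h3 hr1 hr2 hR hR₁ hA1 hA2 hb3 ⟨hx, by omega, by omega⟩
      hch).mono hD2
  · have h4 : g x + g y ≤ 4 := by omega
    obtain ⟨L, -, -, hyL, -, hL, -⟩ := gam_leg (hg3 x y hreach) hx
    refine (hL y hyL).mono (le_trans ?_ hD1)
    calc 2 * R * (g x + g y) ≤ 2 * R * 4 := Nat.mul_le_mul_left _ h4
      _ = 8 * R := by ring

/-- Points of one component are joined through the root. -/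
lemma Combing.near_root {V : Type} {G : SimpleGraph V} {κ H : ℕ} {f : V → ℕ} {F : V → ℕ → V}
    (hC : Combing G κ H f F) {x y : V} (h : G.Reachable x y) : NearN G (f x + f y) x y := by
  have h1 := hC.pt_near (x := x) (m := 0) (Nat.zero_le _)
  have h2 := hC.pt_near (x := y) (m := 0) (Nat.zero_le _)
  have h3 : pt f F x 0 = pt f F y 0 := hC.root x y h
  rw [← h3] at h2
  exact (h1.trans h2.symm).mono (by omega)

end Pool.Agent.MP_fd1949_C
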