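import Mathlib
import Pool.Agent.Lib.MP_fd1949_C.Lift

/-!
# The comb of a connected set in a slab
-/

namespace Pool.Agent.MP_fd1949_C

open Pool.Agent.MP_fd1949_co Pool.Agent.MP_fd1949_P

private lemma combOf_walk {V : Type} {G : SimpleGraph V} {A : Set V} (hA : Conn G A) {x₀ : V}
    (hx₀ : x₀ ∈ A) : ∀ (N : ℕ) (x : Fin N → V), (∀ c, x c ∈ A) →
    ∃ (y : V) (w : G.Walk x₀ y), (∀ z ∈ w.support, z ∈ A) ∧ ∀ c, x c ∈ w.support := by
  intro N
  induction N with
  | zero =>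
    intro x _
    refine ⟨x₀, .nil, fun z hz => ?_, fun c => c.elim0⟩
    rw [SimpleGraph.Walk.support_nil, List.mem_singleton] at hz
    rw [hz]
    exact hx₀
  | succ N ih =>
    intro x hx
    obtain ⟨y, w, hw, hc⟩ := ih (fun c => x c.castSucc) (fun c => hx _)
    obtain ⟨w', hw'⟩ := hA y (hw y w.end_mem_support) (x (Fin.last N)) (hx _)
    refine ⟨x (Fin.last N), w.append w', fun z hz => ?_, fun c => ?_⟩
    · rcases (SimpleGraph.Walk.mem_support_append_iff _ _).1 hz with hz | hz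
      · exact hw z hz
      · exact hw' z hz
    · refine Fin.lastCases ?_ (fun c => ?_) c
      · exact (SimpleGraph.Walk.mem_support_append_iff _ _).2 (Or.inr w'.end_mem_support)
      · exact (SimpleGraph.Walk.mem_support_append_iff _ _).2 (Or.inl (hc c))

/-- A walk inside a connected set through finitely many given points.
PROOF. Induction on `N`: walks inside `A` from `x₀` through `x 0, ..., x (j - 1)`, append a walk to
`x j`; `R = w.getVert`, `len = w.length`. -/
theorem walk_through {V : Type} {G : SimpleGraph V} {A : Set V} (hA : Conn G A) {x₀ : V}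
    (hx₀ : x₀ ∈ A) {N : ℕ} (x : Fin N → V) (hx : ∀ c, x c ∈ A) :
    ∃ (R : ℕ → V) (len : ℕ), (∀ n < len, G.Adj (R n) (R (n + 1))) ∧ (∀ n ≤ len, R n ∈ A) ∧
      ∀ c, ∃ n ≤ len, R n = x c := by
  obtain ⟨y, w, hw, hc⟩ := combOf_walk hA hx₀ N x hx
  refine ⟨w.getVert, w.length, fun n hn => w.adj_getVert_succ hn,
    fun n _ => hw _ (w.getVert_mem_support n), fun c => ?_⟩
  obtain ⟨n, h1, h2⟩ := SimpleGraph.Walk.mem_support_iff_exists_getVert.1 (hc c)
  exact ⟨n, h2, h1⟩

/-- The page of `E`. `dep n` is the depth of the points `col c n`.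
PROOF. `t m = (k - m) * η'`, `col c n = pt f F (e c) (dep n)`. `walk_through` in
`lift G f F (κ * r) E (dep (t m))` (`conn_lift`, `mem_lift`) gives `R m`, `len m`; `row_adj`,
`meet` (`NearN.refl`). `t m ≤ Θ` and `t_gap`: `(k - m) * η'`. `col_adj`: `hstep`, `pt_adj` (or its
symmetric version).
`col_geo`: `f (col c n) = dep n` (`f_pt`), `hgeo`, `Combing.f_near`. `col_far`: `near_cols`, `hfar`
(`f (e c) - dep n ≤ a + w - dm`). `row_far`: `lift_f`, `dep (t m)` and `dep (t m')` differ by at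
least `η'`, `hη'`. `cp`: `NearN G q₁ (R m n) (col c n')`: by `f_near` and `lift_f`
`|dep (t m) - dep n'| ≤ q₁ + κ r ≤ ω₀`; with `hgeo` `|t m - n'| ≤ ω₀`. -/
theorem combOf {V : Type} {G : SimpleGraph V} {κ H : ℕ} {f : V → ℕ} {F : V → ℕ → V}
    (hC : Combing G κ H f F) {k N q₁ ω₀ η η' Δ Θ a w r dm : ℕ} {E : Set V} (hE : JConn G r E)
    (hEY : E ⊆ Slab f a w) (hne : E.Nonempty) (e : Fin N → V) (he : ∀ c, e c ∈ E)
    (dep : ℕ → ℕ) (hstep : ∀ n < Θ, dep (n + 1) = dep n + 1 ∨ dep n = dep (n + 1) + 1)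
    (hgeo : ∀ n n', n ≤ n' → n' ≤ Θ → dep n + (n' - n) ≤ dep n' ∨ dep n' + (n' - n) ≤ dep n)
    (hdep : ∀ n ≤ Θ, dm ≤ dep n ∧ dep n + r ≤ a) (hH : a + w + r ≤ dm + H)
    (hΘ : (k + 1) * η' ≤ Θ) (hη' : η + 2 * (κ * r) ≤ η') (hω₀ : q₁ + κ * r ≤ ω₀)
    (hη : 1 ≤ η)
    (hfar : ∀ c c', c ≠ c' → ¬ NearN G (Δ + 2 * (a + w - dm)) (e c) (e c')) :
    ∃ C : Comb G k N q₁ ω₀ η Δ Θ, (∀ c n, C.col c n = pt f F (e c) (dep n)) ∧
      (∀ m, C.Row m ⊆ lift G f F (κ * r) E (dep (C.t m))) ∧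
      ∀ m, η' ≤ C.t m ∧ C.t m + η' ≤ Θ := by
  -- heights of the rows
  obtain ⟨t, ht1, ht2, ht3⟩ : ∃ t : Fin k → ℕ, (∀ m, η' ≤ t m) ∧ (∀ m, t m + η' ≤ Θ) ∧
      ∀ m m', m < m' → t m' + η' ≤ t m := by
    refine ⟨fun m => (k - m.val) * η', fun m => ?_, fun m => ?_, fun m m' hmm' => ?_⟩
    · have h1 : 1 ≤ k - m.val := by have := m.isLt; omega
      calc η' = 1 * η' := (one_mul _).symm
        _ ≤ (k - m.val) * η' := Nat.mul_le_mul_right _ h1
    · calc (k - m.val) * η' + η' = (k - m.val + 1) * η' := by ring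
        _ ≤ (k + 1) * η' := Nat.mul_le_mul_right _ (by omega)
        _ ≤ Θ := hΘ
    · have h1 : k - m'.val + 1 ≤ k - m.val := by
        have h2 : m.val < m'.val := hmm'
        have h3 := m'.isLt
        omega
      calc (k - m'.val) * η' + η' = (k - m'.val + 1) * η' := by ring
        _ ≤ (k - m.val) * η' := Nat.mul_le_mul_right _ h1
  have htΘ : ∀ m, t m ≤ Θ := fun m => by have := ht2 m; omega
  have hfe : ∀ y ∈ E, ∀ n ≤ Θ, dep n + r ≤ f y ∧ f y + r ≤ dep n + H := by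
    intro y hy n hn
    have h1 := hEY hy
    have h2 : a ≤ f y := h1.1
    have h3 : f y < a + w := h1.2
    have h4 := hdep n hn
    omega
  have hle : ∀ y ∈ E, ∀ n ≤ Θ, dep n ≤ f y := fun y hy n hn => by
    have := (hfe y hy n hn).1; omega
  obtain ⟨y₀, hy₀⟩ := hne
  have hrow : ∀ m : Fin k, ∃ (R : ℕ → V) (len : ℕ), (∀ n < len, G.Adj (R n) (R (n + 1))) ∧
      (∀ n ≤ len, R n ∈ lift G f F (κ * r) E (dep (t m))) ∧
      ∀ c, ∃ n ≤ len, R n = pt f F (e c) (dep (t m)) := fun m =>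
    walk_through (conn_lift hC hE fun y hy => hfe y hy _ (htΘ m)) (mem_lift hy₀)
      (fun c => pt f F (e c) (dep (t m))) (fun c => mem_lift (he c))
  choose R len hR1 hR2 hR3 using hrow
  have hfcol : ∀ c n, n ≤ Θ → f (pt f F (e c) (dep n)) = dep n :=
    fun c n hn => hC.f_pt (hle _ (he c) n hn)
  have hfrow : ∀ m n, n ≤ len m → dep (t m) ≤ f (R m n) + κ * r ∧ f (R m n) ≤ dep (t m) + κ * r :=
    fun m n hn => lift_f hC (fun y hy => hle y hy _ (htΘ m)) (hR2 m n hn)
  refine ⟨⟨fun c n => pt f F (e c) (dep n), t, R, len, ?_, ?_, ?_, ?_, ?_, htΘ, ?_, ?_, ?_⟩,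
    fun c n => rfl, ?_, fun m => ⟨ht1 m, ht2 m⟩⟩
  · -- col_adj
    intro c n hn
    show G.Adj (pt f F (e c) (dep n)) (pt f F (e c) (dep (n + 1)))
    rcases hstep n hn with h | h
    · have h1 := hle _ (he c) (n + 1) hn
      rw [h] at h1 ⊢
      exact hC.pt_adj h1
    · have h1 := hle _ (he c) n hn.le
      rw [h] at h1 ⊢
      exact (hC.pt_adj h1).symm
  · -- col_geo
    intro c n n' hnn' hn' w'
    have h1 := hC.f_near (n := w'.length) ⟨w', le_rfl⟩
    have h2 := hC.f_near (n := w'.length) (NearN.symm ⟨w', le_rfl⟩)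
    have h3 := hfcol c n (hnn'.trans hn')
    have h4 := hfcol c n' hn'
    rcases hgeo n n' hnn' hn' with h | h
    · omega
    · omega
  · -- col_far
    intro c c' hcc' n n' hn hn' w'
    by_contra hlt
    refine hfar c c' hcc' ?_
    have h1 := hC.near_cols (hle _ (he c) n hn) (hle _ (he c') n' hn') (D := w'.length)
      ⟨w', le_rfl⟩
    refine h1.mono ?_
    have h2 : f (e c) < a + w := (hEY (he c)).2
    have h3 : f (e c') < a + w := (hEY (he c')).2
    have h4 := (hdep n hn).1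
    have h5 := (hdep n' hn').1
    omega
  · -- row_adj
    exact fun m n hn => hR1 m n hn
  · -- row_far
    intro m m' hmm' n n' hn hn' w'
    have h1 := hC.f_near (n := w'.length) ⟨w', le_rfl⟩
    have h2 := hC.f_near (n := w'.length) (NearN.symm ⟨w', le_rfl⟩)
    have h3 := hfrow m n hn
    have h4 := hfrow m' n' hn'
    rcases lt_or_gt_of_ne hmm' with h | h
    · have h5 := ht3 m m' h
      rcases hgeo (t m') (t m) (by omega) (htΘ m) with h6 | h6
      · omega
      · omega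
    · have h5 := ht3 m' m h
      rcases hgeo (t m) (t m') (by omega) (htΘ m') with h6 | h6
      · omega
      · omega
  · -- t_gap
    intro m m' hmm'
    have h1 := ht3 m m' hmm'
    omega
  · -- meet
    intro m c
    obtain ⟨n, hn, h⟩ := hR3 m c
    refine ⟨n, hn, ?_⟩
    rw [h]
    exact NearN.refl _ _
  · -- cp
    intro m c n n' hn hn' hnear
    have h1 := hC.f_near hnear
    have h2 := hC.f_near hnear.symm
    have h3 := hfrow m n hn
    have h4 := hfcol c n' hn'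
    rcases le_total (t m) n' with h | h
    · rcases hgeo (t m) n' h hn' with h6 | h6
      · omega
      · omega
    · rcases hgeo n' (t m) h (htΘ m) with h6 | h6
      · omega
      · omega
  · -- rows
    rintro m z ⟨n, hn, rfl⟩
    exact hR2 m n hn

end Pool.Agent.MP_fd1949_C
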