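import Mathlib
import Pool.Agent.Lib.MP_fd1949_P.Base

/-!
# Public definitions: graphs with slowly diverging geodesic combings, hyperbolic graphs
-/

namespace Pool.Agent.MP_fd1949_C

open Pool.Agent.MP_fd1949_co Pool.Agent.MP_fd1949_P

/-- `G` has a geodesic combing with divergence at most `κ`: `o x` is a root in the component of `x`
(the same one for all vertices of the component), `γ x` is a geodesic from `o x` to `x`, and for
adjacent vertices `x`, `y` the points `γ x m`, `γ y m` at the same distance `m` from the root are at
distance at most `κ n`, where `n = d(o x, x) - m` is the number of steps from `x` back to `γ x m`. -/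
def Combable {V : Type} (κ : ℕ → ℕ) (G : SimpleGraph V) : Prop :=
  ∃ (o : V → V) (γ : V → ℕ → V),
    (∀ x, G.Reachable (o x) x) ∧ (∀ x y, G.Adj x y → o x = o y) ∧
    (∀ x, γ x 0 = o x ∧ γ x (G.dist (o x) x) = x ∧
      ∀ m, m < G.dist (o x) x → G.Adj (γ x m) (γ x (m + 1))) ∧
    ∀ x y, G.Adj x y → ∀ m, m ≤ G.dist (o x) x → m ≤ G.dist (o y) y →
      NearN G (κ (G.dist (o x) x - m)) (γ x m) (γ y m)

/-- Gromov's four point condition with constant `δ`, in every component of `G`. -/
def FourPoint {V : Type} (δ : ℕ) (G : SimpleGraph V) : Prop :=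
  ∀ x y z w, G.Reachable x y → G.Reachable x z → G.Reachable x w →
    G.dist x y + G.dist z w ≤
      max (G.dist x z + G.dist y w) (G.dist x w + G.dist y z) + δ

end Pool.Agent.MP_fd1949_C
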