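import Mathlib
import Pool.Agent.Lib.MP_fd1949_C.Pub
import Pool.Agent.Lib.MP_fd1949_C.Defs

/-!
# Sublinear divergence
-/

namespace Pool.Agent.MP_fd1949_C

open Pool.Agent.MP_fd1949_co Pool.Agent.MP_fd1949_P

/-- `k n / n` tends to `0`. -/
def Sublinear (k : ℕ → ℕ) : Prop := ∀ M : ℕ, ∃ n₀, ∀ n, n₀ ≤ n → M * k n ≤ n

/-- The maximum of `k 0, ..., k H`. -/
def top (k : ℕ → ℕ) (H : ℕ) : ℕ := (Finset.range (H + 1)).sup k

lemma le_top (k : ℕ → ℕ) {n H : ℕ} (h : n ≤ H) : k n ≤ top k H :=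
  Finset.le_sup (f := k) (Finset.mem_range.2 (by omega))

lemma top_const (κ H : ℕ) : top (fun _ => κ) H = κ := by
  refine le_antisymm (Finset.sup_le fun _ _ => le_rfl) ?_
  exact le_top (fun _ => κ) (Nat.zero_le H)

theorem Sublinear.solve {k : ℕ → ℕ} (hk : Sublinear k) (α β : ℕ) :
    ∃ H, α + β * top k H ≤ H := by
  obtain ⟨n₀, hn₀⟩ := hk (2 * β)
  set K := top k n₀ with hK
  refine ⟨2 * α + 2 * (β * K) + n₀, ?_⟩
  set H := 2 * α + 2 * (β * K) + n₀ with hH
  obtain ⟨m, hm, hmt⟩ : ∃ m ≤ H, top k H = k m := by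
    obtain ⟨m, hm, hmt⟩ := Finset.exists_mem_eq_sup (Finset.range (H + 1))
      ⟨0, Finset.mem_range.2 (by omega)⟩ k
    exact ⟨m, by have := Finset.mem_range.1 hm; omega, hmt⟩
  rw [hmt]
  rcases le_total n₀ m with h | h
  · have h1 := hn₀ m h
    have h2 : 2 * (β * k m) = 2 * β * k m := by ring
    omega
  · have h1 : β * k m ≤ β * K := Nat.mul_le_mul_left _ (le_top k h)
    omega

lemma dist_tri {V : Type} {G : SimpleGraph V} {x y z : V} (h : G.Reachable x y)
    (h' : G.Reachable y z) : G.dist x z ≤ G.dist x y + G.dist y z := by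
  obtain ⟨w, hw⟩ := h.exists_walk_length_eq_dist
  obtain ⟨w', hw'⟩ := h'.exists_walk_length_eq_dist
  have := SimpleGraph.dist_le (w.append w')
  rw [SimpleGraph.Walk.length_append] at this
  omega

lemma dist_adj {V : Type} {G : SimpleGraph V} {o x y : V} (h : G.Reachable o y)
    (hxy : G.Adj x y) : G.dist o x ≤ G.dist o y + 1 := by
  have h1 := dist_tri h hxy.symm.reachable
  have h2 := SimpleGraph.dist_le hxy.symm.toWalk
  simp only [SimpleGraph.Walk.length_cons, SimpleGraph.Walk.length_nil] at h2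
  omega

/-- A combable graph has combings for every height. -/
lemma combing_of {V : Type} {G : SimpleGraph V} {k : ℕ → ℕ} {o : V → V} {γ : V → ℕ → V}
    (h1 : ∀ x, G.Reachable (o x) x) (h2 : ∀ x y, G.Adj x y → o x = o y)
    (h3 : ∀ x, γ x 0 = o x ∧ γ x (G.dist (o x) x) = x ∧
      ∀ m, m < G.dist (o x) x → G.Adj (γ x m) (γ x (m + 1)))
    (h4 : ∀ x y, G.Adj x y → ∀ m, m ≤ G.dist (o x) x → m ≤ G.dist (o y) y →
      NearN G (k (G.dist (o x) x - m)) (γ x m) (γ y m)) (H : ℕ) :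
    Combing G (top k H) H (fun x => G.dist (o x) x) γ := by
  have ho : ∀ x y, G.Reachable x y → o x = o y := by
    rintro x y ⟨w⟩
    induction w with
    | nil => rfl
    | cons h _ ih => exact (h2 _ _ h).trans ih
  refine ⟨fun x y hxy => ?_, fun x => (h3 x).2.1, fun x m hm => (h3 x).2.2 m hm, fun x m hm => ?_,
    fun x y hxy => ?_, fun x y hxy m hx hy hH => ?_⟩
  · show G.dist (o x) x ≤ G.dist (o y) y + 1
    rw [h2 x y hxy]
    exact dist_adj (h1 y) hxy
  · obtain ⟨g1, g2, g3⟩ := h3 x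
    have w1 := seq_near (G := G) (γ x) (Nat.zero_le m) fun n _ hn => g3 n (by omega)
    have w2 := seq_near (G := G) (γ x) (hm : m ≤ G.dist (o x) x) fun n _ hn => g3 n hn
    rw [g1] at w1
    rw [g2] at w2
    have h5 := (nearN_iff.1 w1).2
    have h6 := (nearN_iff.1 w2).2
    have h7 := dist_tri w1.reachable w2.reachable
    have hm' : m ≤ G.dist (o x) x := hm
    show G.dist (o (γ x m)) (γ x m) = m
    rw [ho _ _ w2.reachable]
    omega
  · rw [(h3 x).1, (h3 y).1]
    exact ho x y hxy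
  · have hH' : G.dist (o x) x ≤ m + H := hH
    exact (h4 x y hxy m hx hy).mono (le_top k (by omega))

end Pool.Agent.MP_fd1949_C
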