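import Mathlib
import Pool.Agent.Lib.MP_fd1949_P.MkFat
import Pool.Agent.Lib.MP_fd1949_C.Defs

/-!
# Linear rows in the three pages give a fat book
-/

namespace Pool.Agent.MP_fd1949_C

open Pool.Agent.MP_fd1949_co Pool.Agent.MP_fd1949_P

/-- A chain of connected sets, consecutive ones meet. -/
private theorem bookFat_chain {V : Type} {G : SimpleGraph V} (F : ℕ → Set V) {a b : ℕ}
    (hab : a ≤ b) (hc : ∀ j, a ≤ j → j ≤ b → Conn G (F j))
    (hm : ∀ j, a ≤ j → j < b → (F j ∩ F (j + 1)).Nonempty) :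
    ∀ x ∈ F a, ∀ y ∈ F b, ∃ w : G.Walk x y, ∀ z ∈ w.support, ∃ j, a ≤ j ∧ j ≤ b ∧ z ∈ F j := by
  induction b, hab using Nat.le_induction with
  | base =>
    intro x hx y hy
    obtain ⟨w, hw⟩ := hc a le_rfl le_rfl x hx y hy
    exact ⟨w, fun z hz => ⟨a, le_rfl, le_rfl, hw z hz⟩⟩
  | succ b hab ih =>
    intro x hx y hy
    obtain ⟨u, hu1, hu2⟩ := hm b hab (by omega)
    obtain ⟨w, hw⟩ := ih (fun j h1 h2 => hc j h1 (by omega)) (fun j h1 h2 => hm j h1 (by omega))
      x hx u hu1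
    obtain ⟨w', hw'⟩ := hc (b + 1) (by omega) le_rfl u hu2 y hy
    refine ⟨w.append w', fun z hz => ?_⟩
    rcases (SimpleGraph.Walk.mem_support_append_iff _ _).1 hz with hz | hz
    · obtain ⟨j, h1, h2, h3⟩ := hw z hz
      exact ⟨j, h1, by omega, h3⟩
    · exact ⟨b + 1, by omega, le_rfl, hw' z hz⟩

/-- The edges of the book are horizontal, vertical or go to the spine. -/
private theorem bookFat_edge {k M : ℕ} {s : Sym2 ((Fin 3 × Fin k × Fin M) ⊕ Fin M)}
    (hs : s ∈ (bookG k M).edgeSet) :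
    (∃ (p : Fin 3) (a : Fin k) (b b' : Fin M), b.val + 1 = b'.val ∧
        s = s(Sum.inl (p, a, b), Sum.inl (p, a, b'))) ∨
      (∃ (p : Fin 3) (a a' : Fin k) (b : Fin M), a.val + 1 = a'.val ∧
        s = s(Sum.inl (p, a, b), Sum.inl (p, a', b))) ∨
      ∃ (p : Fin 3) (a : Fin k) (b : Fin M), a.val + 1 = k ∧
        s = s(Sum.inl (p, a, b), Sum.inr b) := by
  induction s using Sym2.ind with
  | _ u v =>
    rw [SimpleGraph.mem_edgeSet] at hs
    rcases u with ⟨p, a, b⟩ | c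
    · rcases v with ⟨p', a', b'⟩ | d
      · obtain ⟨h1, h2⟩ := hs
        dsimp only at h1 h2
        subst h1
        rcases h2 with ⟨h2, h3 | h3⟩ | ⟨h2, h3 | h3⟩
        · subst h2
          exact Or.inl ⟨p, a, b, b', h3, rfl⟩
        · subst h2
          exact Or.inl ⟨p, a, b', b, h3, Sym2.eq_swap⟩
        · subst h2
          exact Or.inr (Or.inl ⟨p, a, a', b, h3, rfl⟩)
        · subst h2
          exact Or.inr (Or.inl ⟨p, a', a, b, h3, Sym2.eq_swap⟩)
      · obtain ⟨h1, h2⟩ := hs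
        dsimp only at h1 h2
        subst h2
        exact Or.inr (Or.inr ⟨p, a, b, h1, rfl⟩)
    · rcases v with ⟨p', a', b'⟩ | d
      · obtain ⟨h1, h2⟩ := hs
        dsimp only at h1 h2
        subst h2
        exact Or.inr (Or.inr ⟨p', a', b', h1, Sym2.eq_swap⟩)
      · exact hs.elim

/-- The edge `s` is the vertical edge (or the edge to the spine) below `(p, a, b)`; its part of the
column starts at the height `L`. -/
private def bookFatV {k M : ℕ} (q : ℕ) (τ : Fin 3 → Fin k → ℕ)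
    (s : Sym2 ((Fin 3 × Fin k × Fin M) ⊕ Fin M)) (p : Fin 3) (a : Fin k) (b : Fin M) (L : ℕ) :
    Prop :=
  (∃ a' : Fin k, a.val + 1 = a'.val ∧ s = s(Sum.inl (p, a, b), Sum.inl (p, a', b)) ∧
      L = τ p a' + q) ∨ (a.val + 1 = k ∧ s = s(Sum.inl (p, a, b), Sum.inr b) ∧ L = 0)

private theorem bookFatV_uniq {k M q : ℕ} {τ : Fin 3 → Fin k → ℕ}
    {s s' : Sym2 ((Fin 3 × Fin k × Fin M) ⊕ Fin M)} {p : Fin 3} {a : Fin k} {b : Fin M} {L L' : ℕ}
    (h : bookFatV q τ s p a b L) (h' : bookFatV q τ s' p a b L') : s = s' := by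
  rcases h with ⟨a', h1, rfl, -⟩ | ⟨h1, rfl, -⟩
  · rcases h' with ⟨a'', h2, rfl, -⟩ | ⟨h2, rfl, -⟩
    · have : a' = a'' := Fin.ext (by omega)
      rw [this]
    · have := a'.2
      omega
  · rcases h' with ⟨a'', h2, rfl, -⟩ | ⟨h2, rfl, -⟩
    · have := a''.2
      omega
    · rfl

private theorem bookFatV_mem {k M q : ℕ} {τ : Fin 3 → Fin k → ℕ}
    {s : Sym2 ((Fin 3 × Fin k × Fin M) ⊕ Fin M)} {p : Fin 3} {a : Fin k} {b : Fin M} {L : ℕ}
    (h : bookFatV q τ s p a b L) : Sum.inl (p, a, b) ∈ s := by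
  rcases h with ⟨a', h1, rfl, -⟩ | ⟨h1, rfl, -⟩
  · exact Sym2.mem_mk_left _ _
  · exact Sym2.mem_mk_left _ _

private theorem bookFatV_spine {k M q : ℕ} {τ : Fin 3 → Fin k → ℕ}
    {s : Sym2 ((Fin 3 × Fin k × Fin M) ⊕ Fin M)} {p : Fin 3} {a : Fin k} {b : Fin M} {L : ℕ}
    (h : bookFatV q τ s p a b L) (hb : Sum.inr b ∉ s) : q ≤ L := by
  rcases h with ⟨a', h1, rfl, h2⟩ | ⟨h1, rfl, -⟩
  · omega
  · exact absurd (Sym2.mem_mk_right _ _) hb

private theorem bookFatV_lo {k M q : ℕ} {τ : Fin 3 → Fin k → ℕ}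
    (hτ : ∀ p, ∀ a a' : Fin k, a ≤ a' → τ p a' ≤ τ p a)
    {s : Sym2 ((Fin 3 × Fin k × Fin M) ⊕ Fin M)} {p : Fin 3} {a : Fin k} {b : Fin M} {L : ℕ}
    (h : bookFatV q τ s p a b L) (a2 : Fin k) (ha : a < a2) : τ p a2 + q ≤ L := by
  rw [Fin.lt_def] at ha
  rcases h with ⟨a', h1, rfl, h2⟩ | ⟨h1, rfl, -⟩
  · have := hτ p a' a2 (by rw [Fin.le_def]; omega)
    omega
  · have := a2.2
    omega

private theorem bookFatV_lo' {k M q : ℕ} {τ : Fin 3 → Fin k → ℕ} {η : ℕ}
    {s : Sym2 ((Fin 3 × Fin k × Fin M) ⊕ Fin M)} {p : Fin 3} {a : Fin k} {b : Fin M} {L : ℕ}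
    (hτ : ∀ a a' : Fin k, a < a' → τ p a' + η ≤ τ p a)
    (h : bookFatV q τ s p a b L) (a2 : Fin k) (ha : a < a2) (hs : Sum.inl (p, a2, b) ∉ s) :
    τ p a2 + η ≤ L := by
  rw [Fin.lt_def] at ha
  rcases h with ⟨a', h1, rfl, h2⟩ | ⟨h1, rfl, -⟩
  · have hne : a'.val ≠ a2.val := by
      intro h3
      have h4 : a' = a2 := Fin.ext h3
      rw [h4] at hs
      exact hs (Sym2.mem_mk_right _ _)
    have := hτ a' a2 (by rw [Fin.lt_def]; omega)
    omega
  · have := a2.2
    omega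

/-- The analogue of `linB` (`Pool/Agent/Lib/MP_fd1949_P/LinB.lean`, copy and adapt) for three pages.
PROOF. `hlin p a` gives `P p a`, `F p a`, `J p a : Fin M → ℕ`. `mkFat` for `bookG k M` with `B (inl (p, a, b)) = F p a (J p a b)`, `B (inr b) = 𝔅.J (e b)` and
`Q s` = the union of
 `{z | ∃ p a b b', b.val + 1 = b'.val ∧ s = s(inl (p,a,b), inl (p,a,b')) ∧ ∃ j, J p a b < j ∧ j < J p a b' ∧ z ∈ F p a j}` (horizontal),
 `{z | ∃ p a a' b, a.val + 1 = a'.val ∧ s = s(inl (p,a,b), inl (p,a',b)) ∧ ∃ n, t (Mr p a') + q ≤ n ∧ n + q ≤ t (Mr p a) ∧ z = col (e b) n}` (vertical),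
 `{z | ∃ p a b, a.val + 1 = k ∧ s = s(inl (p,a,b), inr b) ∧ ∃ n, n + q ≤ t (Mr p a) ∧ z = col (e b) n}` (to the spine; `t`, `col` of the comb `𝔅.C p`).
(It may be convenient to treat the vertical and the spine edges together: `V(p, a, b)`, `a : Fin k`, is the part of the column `e b` between the heights `lo` and `t (Mr p a) - q`, `lo = t (Mr p (a+1)) + q` if `a + 1 < k` and `lo = 0` otherwise.)
`hQ`: as in `linB`; for the spine edges the part of the column from `0` to `t (Mr p a) - q` (`low`: `2 q ≤ t`), its ends are in `J (e b)` (`memJ`) and in the ball around `x` (`q ≤ ω p`).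
Distances: two sets in the same page not involving the spine: exactly as in `linB` (`hlin`, `col_far`, `col_geo`, `row_far`, `t_gap`, `Cst`). Different pages: `F p a j ⊆ nbhd G (2 ω p + S) Row`, parts of columns `⊆ Col`: `farRR`, `farRC`, `farCC`. `B (inr b)`: against
`F`: `farJR`; against `B (inr b')`: `farJJ`; against a vertical or spine edge in another column: `farJC`; against a vertical edge (not to the spine) in the same column: heights `≥ q`, `farJV`. Spine edge `(p, k-1, b)`: against `F p a j`: last clause of `LinSeq` if `j ≠ J p a b`; if `j = J p a b` and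
`a ≠ k - 1` then the heights `≤ t (Mr p (k-1)) - q` of the edge are at distance `≥ η p` of `t (Mr p a)` (`col_geo`, as in `linB`); against verticals of the same column: heights differ by `≥ 2 q`; other columns: `col_far`. -/
theorem bookFat {V : Type} {G : SimpleGraph V} {l N q S q₁ Δ k M : ℕ} {ω₀ ω η Θ : Fin 3 → ℕ}
    (𝔅 : BookS G l N q S q₁ Δ ω₀ ω η Θ) (hc : ∀ p, Cst N q S q₁ (ω₀ p) (ω p) (η p) Δ)
    (Mr : Fin 3 → Fin k → Fin l) (hM : ∀ p, StrictMono (Mr p)) (e : Fin M → Fin N)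
    (he : Function.Injective e)
    (hlin : ∀ p a, LinSeq G q S (fun c => ball G ((𝔅.C p).x (Mr p a) c) (ω p)) (𝔅.C p).Col
      (nbhd G (2 * ω p + S) ((𝔅.C p).Row (Mr p a))) e) :
    ∃ B P, IsFatMinor G (bookG k M) q B P := by
  choose P F J hF hmt hfar hJ hJm hcol using hlin
  -- heights
  have hgap : ∀ p, ∀ a a' : Fin k, a < a' →
      (𝔅.C p).t (Mr p a') + η p ≤ (𝔅.C p).t (Mr p a) := fun p a a' h =>
    (𝔅.C p).t_gap _ _ (hM p h)
  have hgap' : ∀ p, ∀ a a' : Fin k, a ≤ a' →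
      (𝔅.C p).t (Mr p a') ≤ (𝔅.C p).t (Mr p a) := by
    intro p a a' h
    rcases h.lt_or_eq with h | h
    · have := hgap p a a' h
      omega
    · rw [h]
  have hJm' : ∀ p a (b b' : Fin M), b ≤ b' → J p a b ≤ J p a b' := by
    intro p a b b' h
    rcases h.lt_or_eq with h | h
    · have := hJm p a b b' h
      omega
    · rw [h]
  have hlt : ∀ b b' : Fin M, b.val + 1 = b'.val → ∀ b2 : Fin M, b2 ≤ b ∨ b' ≤ b2 := by
    intro b b' h b2
    by_cases h1 : b2 ≤ b
    · exact Or.inl h1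
    · right
      rw [Fin.le_def] at h1 ⊢
      omega
  -- different rows
  have hrow : ∀ p, ∀ a a2 : Fin k, a ≠ a2 → ∀ j ≤ P p a, ∀ j2 ≤ P p a2,
      Far G q (F p a j) (F p a2 j2) := by
    intro p a a2 hne j hj j2 hj2
    obtain ⟨-, hS, hq₁, hω, hη, hΔ⟩ := hc p
    have h1 : Far G (q + (2 * ω p + S) + (2 * ω p + S)) ((𝔅.C p).Row (Mr p a))
        ((𝔅.C p).Row (Mr p a2)) := by
      rintro x ⟨n, hn, rfl⟩ y ⟨n', hn', rfl⟩ w
      have := (𝔅.C p).row_far (Mr p a) (Mr p a2) ((hM p).injective.ne hne) n n' hn hn' w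
      omega
    exact h1.nbhd.mono le_rfl (hF p a j hj).2 (hF p a2 j2 hj2).2
  -- same row
  have hsame : ∀ p a, ∀ j ≤ P p a, ∀ j2 ≤ P p a, j + 2 ≤ j2 ∨ j2 + 2 ≤ j →
      Far G q (F p a j) (F p a j2) := by
    intro p a j hj j2 hj2 h
    rcases h with h | h
    · exact hfar p a j j2 h hj2
    · exact (hfar p a j2 j h hj).symm
  have hb' : ∀ p a (b b' : Fin M), b.val + 1 = b'.val → ∀ j, J p a b < j → j < J p a b' →
      j ≤ P p a := by
    intro p a b b' _ j _ h2
    have := (hJ p a b').1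
    omega
  -- different pages
  have hpRR : ∀ p p2, p ≠ p2 → ∀ a a2 j j2, j ≤ P p a → j2 ≤ P p2 a2 →
      Far G q (F p a j) (F p2 a2 j2) := fun p p2 hne a a2 j j2 hj hj2 =>
    (𝔅.farRR p p2 (Mr p a) (Mr p2 a2) hne).mono le_rfl (hF p a j hj).2 (hF p2 a2 j2 hj2).2
  have hpRC : ∀ p p2, p ≠ p2 → ∀ a b j, j ≤ P p a → Far G q (F p a j) ((𝔅.C p2).Col (e b)) :=
    fun p p2 hne a b j hj =>
    (𝔅.farRC p p2 (Mr p a) (e b) hne).mono le_rfl (hF p a j hj).2 subset_rfl
  have hpJR : ∀ b p a j, j ≤ P p a → Far G q (𝔅.J (e b)) (F p a j) := fun b p a j hj =>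
    (𝔅.farJR p (Mr p a) (e b)).mono le_rfl subset_rfl (hF p a j hj).2
  -- horizontal against column
  have hHV : ∀ p a (b b' : Fin M), b.val + 1 = b'.val → ∀ j, J p a b < j → j < J p a b' →
      ∀ p2 b2, Far G q (F p a j) ((𝔅.C p2).Col (e b2)) := by
    intro p a b b' hbb j h1 h2 p2 b2
    by_cases hp : p = p2
    · subst hp
      refine hcol p a b2 j (hb' p a b b' hbb j h1 h2) ?_
      rcases hlt b b' hbb b2 with h | h
      · have := hJm' p a _ _ h
        omega
      · have := hJm' p a _ _ h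
        omega
    · exact hpRC p p2 hp a b2 j (hb' p a b b' hbb j h1 h2)
  -- two horizontal or branch sets
  have hFF : ∀ p a p2 a2 j j2, j ≤ P p a → j2 ≤ P p2 a2 →
      (p = p2 → a = a2 → j + 2 ≤ j2 ∨ j2 + 2 ≤ j) → Far G q (F p a j) (F p2 a2 j2) := by
    intro p a p2 a2 j j2 hj hj2 h
    by_cases hp : p = p2
    · subst hp
      by_cases ha : a = a2
      · subst ha
        exact hsame p a j hj j2 hj2 (h rfl rfl)
      · exact hrow p a a2 ha j hj j2 hj2
    · exact hpRR p p2 hp a a2 j j2 hj hj2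
  set τ : Fin 3 → Fin k → ℕ := fun p a => (𝔅.C p).t (Mr p a) with hτ
  refine mkFat (bookG k M) q
    (fun v => Sum.elim (fun u => F u.1 u.2.1 (J u.1 u.2.1 u.2.2)) (fun b => 𝔅.J (e b)) v)
    (fun s => {z | ∃ (p : Fin 3) (a : Fin k) (b b' : Fin M), b.val + 1 = b'.val ∧
        s = s(Sum.inl (p, a, b), Sum.inl (p, a, b')) ∧
        ∃ j, J p a b < j ∧ j < J p a b' ∧ z ∈ F p a j} ∪
      {z | ∃ (p : Fin 3) (a : Fin k) (b : Fin M) (L : ℕ), bookFatV q τ s p a b L ∧
        ∃ n, L ≤ n ∧ n + q ≤ τ p a ∧ z = (𝔅.C p).col (e b) n})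
    ?_ ?_ ?_ ?_ ?_ ?_
  · rintro (⟨p, a, b⟩ | b)
    · exact ⟨_, (hJ p a b).2.1 (mem_ball_self _ _)⟩
    · exact ⟨_, 𝔅.memJ 0 (e b)⟩
  · rintro (⟨p, a, b⟩ | b)
    · exact (hF p a _ (hJ p a b).1).1
    · exact 𝔅.connJ (e b)
  · intro s hs
    rcases bookFat_edge hs with ⟨p, a, b, b', hbb, rfl⟩ | ⟨p, a, a', b, haa, rfl⟩ |
      ⟨p, a, b, hak, rfl⟩
    · have hlt' : b < b' := by
        rw [Fin.lt_def]
        omega
      have h1 := hJm p a b b' hlt'
      have h2 := (hJ p a b').1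
      obtain ⟨x, hx1, hx2⟩ := hmt p a (J p a b) (by omega)
      obtain ⟨y, hy1, hy2⟩ := hmt p a (J p a b' - 1) (by omega)
      rw [Nat.sub_add_cancel (by omega)] at hy2
      obtain ⟨w, hw⟩ := bookFat_chain (F p a) (a := J p a b + 1) (b := J p a b' - 1) (by omega)
        (fun j _ h4 => (hF p a j (by omega)).1) (fun j _ h4 => hmt p a j (by omega)) x hx2 y hy1
      refine ⟨Sum.inl (p, a, b), Sum.inl (p, a, b'), rfl, x, hx1, y, hy2, w, fun z hz => ?_⟩
      obtain ⟨j, h3, h4, h5⟩ := hw z hz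
      exact Or.inl ⟨p, a, b, b', hbb, rfl, j, by omega, by omega, h5⟩
    · obtain ⟨hq, hS, hq₁, hω, hη, hΔ⟩ := hc p
      have hlt' : a < a' := by
        rw [Fin.lt_def]
        omega
      have h1 := hgap p a a' hlt'
      have h2 := (𝔅.C p).t_le (Mr p a)
      have hadj : ∀ n, n < (𝔅.C p).t (Mr p a) →
          G.Adj ((𝔅.C p).col (e b) n) ((𝔅.C p).col (e b) (n + 1)) :=
        fun n hn => (𝔅.C p).col_adj (e b) n (by omega)
      obtain ⟨w, -, hw⟩ := seq_walk ((𝔅.C p).col (e b)) (a := (𝔅.C p).t (Mr p a') + q)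
        (b := (𝔅.C p).t (Mr p a) - q) (by omega) (fun n _ hn => hadj n (by omega))
      have hx : (𝔅.C p).col (e b) ((𝔅.C p).t (Mr p a') + q) ∈ F p a' (J p a' b) := by
        refine (hJ p a' b).2.1 ?_
        have h3 := seq_near ((𝔅.C p).col (e b)) (a := (𝔅.C p).t (Mr p a'))
          (b := (𝔅.C p).t (Mr p a') + q) (by omega) (fun n _ hn => hadj n (by omega))
        exact h3.mono (by omega)
      have hy : (𝔅.C p).col (e b) ((𝔅.C p).t (Mr p a) - q) ∈ F p a (J p a b) := by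
        refine (hJ p a b).2.1 ?_
        have h3 := seq_near ((𝔅.C p).col (e b)) (a := (𝔅.C p).t (Mr p a) - q)
          (b := (𝔅.C p).t (Mr p a)) (by omega) (fun n _ hn => hadj n (by omega))
        exact h3.symm.mono (by omega)
      refine ⟨Sum.inl (p, a', b), Sum.inl (p, a, b), Sym2.eq_swap, _, hx, _, hy, w,
        fun z hz => ?_⟩
      obtain ⟨n, h3, h4, h5⟩ := hw z hz
      refine Or.inr ⟨p, a, b, _, Or.inl ⟨a', haa, rfl, rfl⟩, n, h3, ?_, h5⟩
      change n + q ≤ (𝔅.C p).t (Mr p a)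
      omega
    · obtain ⟨hq, hS, hq₁, hω, hη, hΔ⟩ := hc p
      have h2 := (𝔅.C p).t_le (Mr p a)
      have h1 := 𝔅.low p (Mr p a)
      have hadj : ∀ n, n < (𝔅.C p).t (Mr p a) →
          G.Adj ((𝔅.C p).col (e b) n) ((𝔅.C p).col (e b) (n + 1)) :=
        fun n hn => (𝔅.C p).col_adj (e b) n (by omega)
      obtain ⟨w, -, hw⟩ := seq_walk ((𝔅.C p).col (e b)) (a := 0)
        (b := (𝔅.C p).t (Mr p a) - q) (by omega) (fun n _ hn => hadj n (by omega))
      have hx : (𝔅.C p).col (e b) 0 ∈ 𝔅.J (e b) := 𝔅.memJ p (e b)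
      have hy : (𝔅.C p).col (e b) ((𝔅.C p).t (Mr p a) - q) ∈ F p a (J p a b) := by
        refine (hJ p a b).2.1 ?_
        have h3 := seq_near ((𝔅.C p).col (e b)) (a := (𝔅.C p).t (Mr p a) - q)
          (b := (𝔅.C p).t (Mr p a)) (by omega) (fun n _ hn => hadj n (by omega))
        exact h3.symm.mono (by omega)
      refine ⟨Sum.inr b, Sum.inl (p, a, b), Sym2.eq_swap, _, hx, _, hy, w, fun z hz => ?_⟩
      obtain ⟨n, h3, h4, h5⟩ := hw z hz
      refine Or.inr ⟨p, a, b, _, Or.inr ⟨hak, rfl, rfl⟩, n, h3, ?_, h5⟩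
      change n + q ≤ (𝔅.C p).t (Mr p a)
      omega
  · rintro (⟨p, a, b⟩ | b) (⟨p2, a2, b2⟩ | b2) hne
    · dsimp only [Sum.elim_inl]
      refine hFF p a p2 a2 _ _ (hJ p a b).1 (hJ p2 a2 b2).1 ?_
      rintro rfl rfl
      have hb : b ≠ b2 := fun h => hne (by rw [h])
      rcases lt_or_gt_of_ne hb with h | h
      · exact Or.inl (hJm p a _ _ h)
      · exact Or.inr (hJm p a _ _ h)
    · exact (hpJR b2 p a _ (hJ p a b).1).symm
    · exact hpJR b p2 a2 _ (hJ p2 a2 b2).1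
    · exact 𝔅.farJJ _ _ (he.ne fun h => hne (by rw [h]))
  · intro s _ s' _ hss
    rintro z (⟨p, a, b, b', hbb, rfl, j, hj1, hj2, hz⟩ | ⟨p, a, b, L, hV, n, hn1, hn2, rfl⟩)
      z' (⟨p2, a2, b2, b2', hbb2, rfl, j2, hj3, hj4, hz'⟩ |
        ⟨p2, a2, b2, L2, hV2, n2, hn3, hn4, rfl⟩)
    · have hjp := hb' p a b b' hbb j hj1 hj2
      have hjp2 := hb' p2 a2 b2 b2' hbb2 j2 hj3 hj4
      refine hFF p a p2 a2 j j2 hjp hjp2 ?_ z hz z' hz'
      rintro rfl rfl
      by_cases hb : b = b2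
      · subst hb
        have : b' = b2' := Fin.ext (by omega)
        subst this
        exact absurd rfl hss
      · rcases hlt b b' hbb b2 with h | h
        · right
          have h1 : b2' ≤ b := by
            rw [Fin.le_def] at h ⊢
            have h2 : b2.val ≠ b.val := fun h3 => hb (Fin.ext h3.symm)
            omega
          have := hJm' p a _ _ h1
          omega
        · left
          have := hJm' p a _ _ h
          omega
    · have h2 := (𝔅.C p2).t_le (Mr p2 a2)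
      replace hn4 : n2 + q ≤ (𝔅.C p2).t (Mr p2 a2) := hn4
      exact hHV p a b b' hbb j hj1 hj2 p2 b2 z hz _ ⟨n2, by omega, rfl⟩
    · have h2 := (𝔅.C p).t_le (Mr p a)
      replace hn2 : n + q ≤ (𝔅.C p).t (Mr p a) := hn2
      exact (hHV p2 a2 b2 b2' hbb2 j2 hj3 hj4 p b).symm _ ⟨n, by omega, rfl⟩ z' hz'
    · have h2 := (𝔅.C p).t_le (Mr p a)
      have h3 := (𝔅.C p2).t_le (Mr p2 a2)
      replace hn2 : n + q ≤ (𝔅.C p).t (Mr p a) := hn2
      replace hn4 : n2 + q ≤ (𝔅.C p2).t (Mr p2 a2) := hn4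
      by_cases hp : p = p2
      · subst hp
        obtain ⟨hq, hS, hq₁, hω, hη, hΔ⟩ := hc p
        intro w
        by_cases hb : b = b2
        · subst hb
          rcases lt_trichotomy a a2 with h | h | h
          · have h4 : (𝔅.C p).t (Mr p a2) + q ≤ L := bookFatV_lo hgap' hV a2 h
            have h5 := (𝔅.C p).col_geo (e b) n2 n (by omega) (by omega) w.reverse
            rw [SimpleGraph.Walk.length_reverse] at h5
            omega
          · subst h
            exact absurd (bookFatV_uniq hV hV2) hss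
          · have h4 : (𝔅.C p).t (Mr p a) + q ≤ L2 := bookFatV_lo hgap' hV2 a h
            have h5 := (𝔅.C p).col_geo (e b) n n2 (by omega) (by omega) w
            omega
        · have h4 := (𝔅.C p).col_far (e b) (e b2) (he.ne hb) n n2 (by omega) (by omega) w
          omega
      · exact 𝔅.farCC p p2 (e b) (e b2) hp _ ⟨n, by omega, rfl⟩ _ ⟨n2, by omega, rfl⟩
  · rintro s _ v hv z
      (⟨p, a, b, b', hbb, rfl, j, hj1, hj2, hz⟩ | ⟨p, a, b, L, hV, n, hn1, hn2, rfl⟩) z' hz'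
    · have hjp := hb' p a b b' hbb j hj1 hj2
      rcases v with ⟨p2, a2, b2⟩ | b2
      · refine hFF p a p2 a2 j _ hjp (hJ p2 a2 b2).1 ?_ z hz z' hz'
        rintro rfl rfl
        have hn1 : b2 ≠ b := by
          rintro rfl
          exact hv (Sym2.mem_mk_left _ _)
        have hn2 : b2 ≠ b' := by
          rintro rfl
          exact hv (Sym2.mem_mk_right _ _)
        rcases hlt b b' hbb b2 with h | h
        · right
          have := hJm p a _ _ (lt_of_le_of_ne h hn1)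
          omega
        · left
          have := hJm p a _ _ (lt_of_le_of_ne h hn2.symm)
          omega
      · exact (hpJR b2 p a j hjp).symm z hz z' hz'
    · have h2 := (𝔅.C p).t_le (Mr p a)
      replace hn2 : n + q ≤ (𝔅.C p).t (Mr p a) := hn2
      rcases v with ⟨p2, a2, b2⟩ | b2
      · have hz2 : z' ∈ F p2 a2 (J p2 a2 b2) := hz'
        by_cases hp : p = p2
        · subst hp
          have h3 := (𝔅.C p).t_le (Mr p a2)
          by_cases hb : b = b2
          · subst hb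
            obtain ⟨hq, hS, hq₁, hω, hη, hΔ⟩ := hc p
            have hn3 : a2 ≠ a := by
              rintro rfl
              exact hv (bookFatV_mem hV)
            obtain ⟨y, hy, hyz⟩ := (hJ p a2 b).2.2 hz2
            have hyc : NearN G (ω p) ((𝔅.C p).col (e b) ((𝔅.C p).t (Mr p a2))) y := hy
            intro w
            by_contra hlt2
            have hw : NearN G w.length ((𝔅.C p).col (e b) n) z' := ⟨w, le_rfl⟩
            obtain ⟨w', hw'⟩ := (hw.trans hyz.symm).trans hyc.symm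
            rcases lt_or_gt_of_ne hn3 with h | h
            · have h4 := hgap p _ _ h
              have h5 := (𝔅.C p).col_geo (e b) n ((𝔅.C p).t (Mr p a2)) (by omega) h3 w'
              omega
            · have h4 : (𝔅.C p).t (Mr p a2) + η p ≤ L := bookFatV_lo' (hgap p) hV a2 h hv
              have h5 := (𝔅.C p).col_geo (e b) ((𝔅.C p).t (Mr p a2)) n (by omega) (by omega)
                w'.reverse
              rw [SimpleGraph.Walk.length_reverse] at h5
              omega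
          · refine (hcol p a2 b (J p a2 b2) (hJ p a2 b2).1 ?_).symm _ ⟨n, by omega, rfl⟩ z' hz2
            rcases lt_or_gt_of_ne hb with h | h
            · have := hJm p a2 _ _ h
              omega
            · have := hJm p a2 _ _ h
              omega
        · exact (hpRC p2 p (Ne.symm hp) a2 b _ (hJ p2 a2 b2).1).symm _ ⟨n, by omega, rfl⟩ z' hz2
      · have hz2 : z' ∈ 𝔅.J (e b2) := hz'
        by_cases hb : b = b2
        · subst hb
          have h3 := bookFatV_spine hV hv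
          exact (𝔅.farJV p (e b) n (by omega) (by omega)).symm _ rfl z' hz2
        · exact (𝔅.farJC p (e b2) (e b) (he.ne (Ne.symm hb))).symm _ ⟨n, by omega, rfl⟩ z' hz2

end Pool.Agent.MP_fd1949_C
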