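import Mathlib
import Pool.Agent.Lib.MP_fd1949_C.Lift
import Pool.Agent.Lib.MP_fd1949_C.CombOf

/-!
# Two sheets give three glued pages
-/

namespace Pool.Agent.MP_fd1949_C

open Pool.Agent.MP_fd1949_co Pool.Agent.MP_fd1949_P

/-- The inequalities between the numbers of the two sheet exclusion; the pages `p = 0, 1` are low,
the page `p = 2` is high. -/
structure ShCst (t q r w a s ρ Δ₀ Δ S q₁ T U Λ : ℕ) (κ H ω₀ ω η η' Θ : Fin 3 → ℕ) : Prop where
  hq : 1 ≤ q
  hq₁ : q + S ≤ q₁
  hω₀ : ∀ p, q₁ + κ p * r ≤ ω₀ p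
  hω : ∀ p, q₁ + ω₀ p + 1 ≤ ω p
  hη : ∀ p, 4 * ω p + 2 * S + q ≤ η p
  hη' : ∀ p, η p + 2 * (κ p * r) ≤ η' p
  hΘ : ∀ p, (2 * t + 1) * η' p ≤ Θ p
  hT : ∀ p, p ≠ 2 → Θ p ≤ T
  hU : ∀ p, p ≠ 2 → 2 * ω p + S + κ p * r ≤ U
  hΔ : ∀ p, 2 * ω p + S + q₁ + 2 ≤ Δ
  hs : 2 * U + q + 2 * (w + r + T) ≤ s
  hΛ : r + T + 2 * (κ 2 * ρ) + ρ + 2 * q + Θ 2 ≤ Λ
  ha : Λ ≤ a
  hH : ∀ p, p ≠ 2 → w + 2 * r + T ≤ H p
  hH2 : w + r + ρ + Λ ≤ H 2
  hΔ₀ : Δ + 2 * (w + Λ + ρ + κ 2 * ρ) + q ≤ Δ₀

theorem sheets_book {V : Type} {G : SimpleGraph V} {f : V → ℕ} {F : V → ℕ → V}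
    {t N q r w a s ρ Δ₀ Δ S q₁ T U Λ : ℕ} {κ H ω₀ ω η η' Θ : Fin 3 → ℕ}
    (hC : ∀ p, Combing G (κ p) (H p) f F)
    (hc : ShCst t q r w a s ρ Δ₀ Δ S q₁ T U Λ κ H ω₀ ω η η' Θ)
    {E σ : Set V} {z e : Fin N → V} (hEY : E ⊆ Slab f a w) (hσY : σ ⊆ Slab f a w)
    (hE : JConn G r E) (hσ : JConn G r σ) (hEne : E.Nonempty) (hσne : σ.Nonempty)
    (hfar : Far G (s + 1) σ E) (hze : ∀ c, z c ∈ σ ∧ e c ∈ E ∧ NearN G ρ (z c) (e c))
    (hzz : ∀ c c', c ≠ c' → ¬ NearN G Δ₀ (z c) (z c')) :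
    Nonempty (BookS G (2 * t) N q S q₁ Δ ω₀ ω η Θ) := by
  classical
  obtain ⟨hq, hq₁, hω₀, hω, hη, hη', hΘ, hT, hU, hΔ, hs, hΛ, ha, hH, hH2, hΔ₀⟩ := hc
  have hC0 := hC 0
  set aJ := a - r - T with haJ
  set mJ := aJ - κ 2 * ρ - ρ - q with hmJ
  set aC := mJ - κ 2 * ρ - q with haC
  -- the data of the pages
  set P : Fin 3 → Set V := fun p => if p = 1 then σ else E with hP
  set x : Fin 3 → Fin N → V := fun p => if p = 1 then z else e with hx
  set dep : Fin 3 → ℕ → ℕ := fun p n => if p = 2 then aC - n else aJ + n with hdep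
  have dep2 : ∀ n, dep 2 n = aC - n := fun n => if_pos rfl
  have depA : ∀ p n, p ≠ 2 → dep p n = aJ + n := fun p n hp => if_neg hp
  have P1 : P 1 = σ := if_pos rfl
  have PE : ∀ p, p ≠ 1 → P p = E := fun p hp => if_neg hp
  have hPx : ∀ p c, x p c ∈ P p ∧ NearN G ρ (z c) (x p c) := by
    intro p c
    by_cases hp : p = 1
    · have h1 : x p c = z c := by simp only [hx]; rw [if_pos hp]
      rw [h1, hp, P1]
      exact ⟨(hze c).1, NearN.refl _ _⟩
    · have h1 : x p c = e c := by simp only [hx]; rw [if_neg hp]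
      rw [h1, PE p hp]
      exact (hze c).2
  have hPY : ∀ p, P p ⊆ Slab f a w := by
    intro p
    by_cases hp : p = 1
    · rw [hp, P1]; exact hσY
    · rw [PE p hp]; exact hEY
  have hPc : ∀ p, JConn G r (P p) := by
    intro p
    by_cases hp : p = 1
    · rw [hp, P1]; exact hσ
    · rw [PE p hp]; exact hE
  have hPne : ∀ p, (P p).Nonempty := by
    intro p
    by_cases hp : p = 1
    · rw [hp, P1]; exact hσne
    · rw [PE p hp]; exact hEne
  have hxf : ∀ p c, a ≤ f (x p c) ∧ f (x p c) < a + w := fun p c => hPY p (hPx p c).1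
  -- depths
  have hdepA : ∀ p n, p ≠ 2 → n ≤ Θ p → aJ ≤ dep p n ∧ dep p n + r ≤ a := by
    intro p n hp hn
    have h1 := hT p hp
    rw [depA p n hp]
    omega
  have hdepC : ∀ n, n ≤ Θ 2 → a - Λ ≤ dep 2 n ∧ dep 2 n ≤ aC ∧ dep 2 n + r ≤ a := by
    intro n hn
    rw [dep2]
    omega
  have hJC : aC + κ 2 * ρ + q ≤ mJ ∧ mJ + κ 2 * ρ + ρ + q ≤ aJ ∧ aJ + r + T = a := by omega
  have hdepall : ∀ p n, n ≤ Θ p → a - Λ ≤ dep p n ∧ dep p n + r ≤ a := by
    intro p n hn
    by_cases hp : p = 2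
    · subst hp
      have := hdepC n hn
      omega
    · have := hdepA p n hp hn
      omega
  -- far apart columns
  have hxx : ∀ p c c', c ≠ c' → ¬ NearN G (Δ + 2 * (w + Λ)) (x p c) (x p c') := by
    intro p c c' hcc hn
    refine hzz c c' hcc ?_
    exact (((hPx p c).2.trans hn).trans (hPx p c').2.symm).mono (by omega)
  have hcomb : ∀ p : Fin 3, ∃ C : Comb G (2 * t) N q₁ (ω₀ p) (η p) Δ (Θ p),
      (∀ c n, C.col c n = pt f F (x p c) (dep p n)) ∧
      (∀ m, C.Row m ⊆ lift G f F (κ p * r) (P p) (dep p (C.t m))) ∧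
      ∀ m, η' p ≤ C.t m ∧ C.t m + η' p ≤ Θ p := by
    intro p
    have h1 := hη p
    have h2 := hω p
    by_cases hp : p = 2
    · refine combOf (hC p) (dm := a - Λ) (a := a) (w := w) (hPc p) (hPY p) (hPne p) (x p)
        (fun c => (hPx p c).1) (dep p) ?_ ?_ (hdepall p) ?_ (hΘ p) (hη' p) (hω₀ p) (by omega) ?_
      · subst hp
        intro n hn
        rw [dep2, dep2]
        omega
      · subst hp
        intro n n' hn hn'
        rw [dep2, dep2]
        omega
      · subst hp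
        omega
      · intro c c' hcc hn
        exact hxx p c c' hcc (hn.mono (by omega))
    · refine combOf (hC p) (dm := aJ) (a := a) (w := w) (hPc p) (hPY p) (hPne p) (x p)
        (fun c => (hPx p c).1) (dep p) ?_ ?_ (fun n hn => hdepA p n hp hn) ?_ (hΘ p) (hη' p)
        (hω₀ p) (by omega) ?_
      · intro n hn
        rw [depA p _ hp, depA p _ hp]
        omega
      · intro n n' hn hn'
        rw [depA p _ hp, depA p _ hp]
        omega
      · have := hH p hp
        omega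
      · intro c c' hcc hn
        exact hxx p c c' hcc (hn.mono (by omega))
  choose C hcol hrow ht using hcomb
  -- columns
  have hcolf : ∀ p c n, n ≤ Θ p → f ((C p).col c n) = dep p n := by
    intro p c n hn
    rw [hcol]
    have h1 := hdepall p n hn
    have h2 := hxf p c
    exact (hC p).f_pt (by omega)
  have hcoln : ∀ p c n, n ≤ Θ p → NearN G (a + w - dep p n) (x p c) ((C p).col c n) := by
    intro p c n hn
    rw [hcol]
    have h1 := hdepall p n hn
    have h2 := hxf p c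
    exact ((hC p).pt_near (by omega)).mono (by omega)
  have hcolz : ∀ p c n, n ≤ Θ p → NearN G (w + Λ + ρ) (z c) ((C p).col c n) := by
    intro p c n hn
    have h1 := hdepall p n hn
    exact ((hPx p c).2.trans (hcoln p c n hn)).mono (by omega)
  -- rows
  have hrowf : ∀ p m y, y ∈ nbhd G (2 * ω p + S) ((C p).Row m) →
      dep p ((C p).t m) ≤ f y + (κ p * r + (2 * ω p + S)) ∧
      f y ≤ dep p ((C p).t m) + (κ p * r + (2 * ω p + S)) := by
    rintro p m y ⟨y', hy', hyy⟩
    have h1 := ht p m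
    have h2 := hdepall p ((C p).t m) (by omega)
    have h3 := lift_f (hC p) (fun u hu => by
      have := hPY p hu
      simp only [Slab, Set.mem_ofPred_eq] at this
      omega) (hrow p m hy')
    have h4 := (hC p).f_near hyy
    have h5 := (hC p).f_near hyy.symm
    omega
  have hrowA : ∀ p m y, p ≠ 2 → y ∈ nbhd G (2 * ω p + S) ((C p).Row m) → aJ + q ≤ f y := by
    intro p m y hp hy
    have h1 := hrowf p m y hy
    have h2 := ht p m
    have h3 := hη p
    have h4 := hη' p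
    rw [depA p _ hp] at h1
    omega
  have hrowC : ∀ m y, y ∈ nbhd G (2 * ω 2 + S) ((C 2).Row m) → f y + q ≤ aC := by
    intro m y hy
    have h1 := hrowf 2 m y hy
    have h2 := ht 2 m
    have h3 := hη 2
    have h4 := hη' 2
    rw [dep2] at h1
    omega
  have hrown : ∀ p m y, p ≠ 2 → y ∈ nbhd G (2 * ω p + S) ((C p).Row m) →
      ∃ u ∈ P p, NearN G (U + (w + r + T)) u y := by
    rintro p m y hp ⟨y', hy', hyy⟩
    obtain ⟨_, ⟨u, hu, rfl⟩, huy⟩ := hrow p m hy'
    have h1 := ht p m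
    have h2 := hdepA p ((C p).t m) hp (by omega)
    have h3 := hPY p hu
    simp only [Slab, Set.mem_ofPred_eq] at h3
    have h4 := (hC p).pt_near (x := u) (m := dep p ((C p).t m)) (by omega)
    have h5 := hU p hp
    exact ⟨u, hu, ((h4.trans huy).trans hyy).mono (by omega)⟩
  -- the junctions
  set J : Fin N → Set V := fun c => {y | ∃ n, aC ≤ n ∧ n ≤ aJ ∧ y = pt f F (e c) n} ∪
    (ball G (pt f F (e c) mJ) (κ 2 * ρ) ∪ {y | ∃ n, mJ ≤ n ∧ n ≤ aJ ∧ y = pt f F (z c) n})
    with hJ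
  have hef : ∀ c, a ≤ f (e c) ∧ f (e c) < a + w := fun c => hEY (hze c).2.1
  have hzf : ∀ c, a ≤ f (z c) ∧ f (z c) < a + w := fun c => hσY (hze c).1
  have hJf : ∀ c y, y ∈ J c → aC ≤ f y ∧ f y ≤ aJ := by
    intro c y hy
    have h1 := hef c
    have h2 := hzf c
    rcases hy with ⟨n, hn1, hn2, rfl⟩ | hy | ⟨n, hn1, hn2, rfl⟩
    · rw [(hC 0).f_pt (by omega)]
      exact ⟨hn1, hn2⟩
    · have h3 := (hC 0).f_near (show NearN G (κ 2 * ρ) (pt f F (e c) mJ) y from hy)
      have h4 := (hC 0).f_near (show NearN G (κ 2 * ρ) (pt f F (e c) mJ) y from hy).symm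
      rw [(hC 0).f_pt (by omega)] at h3 h4
      omega
    · rw [(hC 0).f_pt (by omega)]
      omega
  have hJn : ∀ c y, y ∈ J c → NearN G (w + Λ + ρ + κ 2 * ρ) (z c) y := by
    intro c y hy
    have h1 := hef c
    have h2 := hzf c
    rcases hy with ⟨n, hn1, hn2, rfl⟩ | hy | ⟨n, hn1, hn2, rfl⟩
    · exact ((hze c).2.2.trans ((hC 0).pt_near (by omega))).mono (by omega)
    · exact (((hze c).2.2.trans ((hC 0).pt_near (m := mJ) (by omega))).trans
        (show NearN G (κ 2 * ρ) (pt f F (e c) mJ) y from hy)).mono (by omega)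
    · exact ((hC 0).pt_near (by omega)).mono (by omega)
  have hrung : ∀ c, NearN G (κ 2 * ρ) (pt f F (e c) mJ) (pt f F (z c) mJ) := by
    intro c
    have h1 := hef c
    exact (hC 2).fellow_near (hze c).2.2.symm (by omega) (by omega)
  have hJconn : ∀ c, Conn G (J c) := by
    intro c
    have h1 := hef c
    have h2 := hzf c
    have c1 : Conn G {y | ∃ n, aC ≤ n ∧ n ≤ aJ ∧ y = pt f F (e c) n} :=
      conn_seq _ fun n _ hn => (hC 0).pt_adj (by omega)
    have c3 : Conn G {y | ∃ n, mJ ≤ n ∧ n ≤ aJ ∧ y = pt f F (z c) n} :=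
      conn_seq _ fun n _ hn => (hC 0).pt_adj (by omega)
    have c2 := (conn_ball (G := G) (pt f F (e c) mJ) (κ 2 * ρ)).union c3 (hrung c)
      ⟨mJ, le_rfl, by omega, rfl⟩
    exact c1.union c2 (z := pt f F (e c) mJ) ⟨mJ, by omega, by omega, rfl⟩
      (Or.inl (mem_ball_self _ _))
  have hfarf : ∀ X Y : Set V, (∀ x ∈ X, ∀ y ∈ Y, f x + q ≤ f y ∨ f y + q ≤ f x) →
      Far G q X Y := by
    intro X Y h x hx y hy w
    have h0 : NearN G w.length x y := ⟨w, le_rfl⟩
    have h1 := (hC 0).f_near h0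
    have h2 := (hC 0).f_near h0.symm
    rcases h x hx y hy with h3 | h3 <;> omega
  -- two low pages are far apart
  have hlow : ∀ p p' : Fin 3, p ≠ p' → p ≠ 2 → p' ≠ 2 → ∀ X Y : Set V,
      (∀ y ∈ X, ∃ u ∈ P p, NearN G (U + (w + r + T)) u y) →
      (∀ y ∈ Y, ∃ u ∈ P p', NearN G (U + (w + r + T)) u y) → Far G q X Y := by
    intro p p' hpp hp hp' X Y hX hY y hy y' hy' w'
    by_contra hlt
    obtain ⟨u, hu, huy⟩ := hX y hy
    obtain ⟨u', hu', huy'⟩ := hY y' hy'
    have h0 : NearN G w'.length y y' := ⟨w', le_rfl⟩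
    have h1 : NearN G s u u' := ((huy.trans h0).trans huy'.symm).mono (by omega)
    have hcases : (p = 0 ∧ p' = 1) ∨ (p = 1 ∧ p' = 0) := by omega
    rcases hcases with ⟨rfl, rfl⟩ | ⟨rfl, rfl⟩
    · rw [PE 0 (by decide)] at hu
      rw [P1] at hu'
      exact hfar.not_near (Nat.lt_succ_self s) hu' hu h1.symm
    · rw [P1] at hu
      rw [PE 0 (by decide)] at hu'
      exact hfar.not_near (Nat.lt_succ_self s) hu hu' h1
  have hcolA : ∀ p c y, p ≠ 2 → y ∈ (C p).Col c → aJ ≤ f y ∧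
      ∃ u ∈ P p, NearN G (U + (w + r + T)) u y := by
    rintro p c y hp ⟨n, hn, rfl⟩
    have h1 := hdepA p n hp hn
    refine ⟨by rw [hcolf p c n hn]; exact h1.1, x p c, (hPx p c).1, ?_⟩
    exact (hcoln p c n hn).mono (by omega)
  have hcolC : ∀ c y, y ∈ (C 2).Col c → f y ≤ aC := by
    rintro c y ⟨n, hn, rfl⟩
    have h1 := hdepC n hn
    rw [hcolf 2 c n hn]
    exact h1.2.1
  refine ⟨{ C := C, J := J, connJ := hJconn, memJ := ?_, low := ?_, farJJ := ?_, farJR := ?_,
            farJC := ?_, farJV := ?_, farRR := ?_, farRC := ?_, farCC := ?_ }⟩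
  · intro p c
    rw [hcol]
    by_cases hp : p = 2
    · subst hp
      rw [dep2]
      have h1 : x 2 c = e c := rfl
      rw [h1]
      exact Or.inl ⟨aC, le_rfl, by omega, rfl⟩
    · rw [depA p _ hp]
      by_cases hp1 : p = 1
      · subst hp1
        exact Or.inr (Or.inr ⟨aJ, by omega, le_rfl, rfl⟩)
      · have h1 : x p c = e c := by simp only [hx]; rw [if_neg hp1]
        rw [h1]
        exact Or.inl ⟨aJ, by omega, le_rfl, rfl⟩
  · intro p m
    have h1 := ht p m
    have h2 := hη' p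
    have h3 := hη p
    have h4 := hω p
    omega
  · intro c c' hcc
    refine far_of ?_
    intro y hy y' hy' k hk hn
    refine hzz c c' hcc ?_
    exact (((hJn c y hy).trans hn).trans (hJn c' y' hy').symm).mono (by omega)
  · intro p m c
    refine hfarf _ _ fun y hy y' hy' => ?_
    have h1 := hJf c y hy
    by_cases hp : p = 2
    · subst hp
      have := hrowC m y' hy'
      omega
    · have := hrowA p m y' hp hy'
      omega
  · rintro p c c' hcc
    refine far_of ?_
    rintro y hy _ ⟨n, hn, rfl⟩ k hk hnn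
    refine hzz c c' hcc ?_
    exact (((hJn c y hy).trans hnn).trans (hcolz p c' n hn).symm).mono (by omega)
  · intro p c n hn hn'
    refine hfarf _ _ ?_
    rintro y hy _ rfl
    have h1 := hJf c y hy
    rw [hcolf p c n hn']
    by_cases hp : p = 2
    · subst hp
      have h2 := hdepC n hn'
      rw [dep2] at h2 ⊢
      omega
    · rw [depA p n hp]
      omega
  · intro p p' m m' hpp
    by_cases hp : p = 2
    · subst hp
      refine hfarf _ _ fun y hy y' hy' => ?_
      have h1 := hrowC m y hy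
      have h2 := hrowA p' m' y' (Ne.symm hpp) hy'
      omega
    · by_cases hp' : p' = 2
      · subst hp'
        refine hfarf _ _ fun y hy y' hy' => ?_
        have h1 := hrowA p m y hp hy
        have h2 := hrowC m' y' hy'
        omega
      · exact hlow p p' hpp hp hp' _ _ (fun y hy => hrown p m y hp hy)
          fun y hy => hrown p' m' y hp' hy
  · intro p p' m c hpp
    by_cases hp : p = 2
    · subst hp
      refine hfarf _ _ fun y hy y' hy' => ?_
      have h1 := hrowC m y hy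
      have h2 := (hcolA p' c y' (Ne.symm hpp) hy').1
      omega
    · by_cases hp' : p' = 2
      · subst hp'
        refine hfarf _ _ fun y hy y' hy' => ?_
        have h1 := hrowA p m y hp hy
        have h2 := hcolC c y' hy'
        omega
      · exact hlow p p' hpp hp hp' _ _ (fun y hy => hrown p m y hp hy)
          fun y hy => (hcolA p' c y hp' hy).2
  · intro p p' c c' hpp
    by_cases hp : p = 2
    · subst hp
      refine hfarf _ _ fun y hy y' hy' => ?_
      have h1 := hcolC c y hy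
      have h2 := (hcolA p' c' y' (Ne.symm hpp) hy').1
      omega
    · by_cases hp' : p' = 2
      · subst hp'
        refine hfarf _ _ fun y hy y' hy' => ?_
        have h1 := (hcolA p c y hp hy).1
        have h2 := hcolC c' y' hy'
        omega
      · exact hlow p p' hpp hp hp' _ _ (fun y hy => (hcolA p c y hp hy).2)
          fun y hy => (hcolA p' c' y hp' hy).2

end Pool.Agent.MP_fd1949_C
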