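import Mathlib
import Pool.Agent.Lib.MP_fd1949_P.MkFat
import Pool.Agent.Lib.MP_fd1949_C.Lift

/-!
# The star exclusion
-/

namespace Pool.Agent.MP_fd1949_C

open Pool.Agent.MP_fd1949_co Pool.Agent.MP_fd1949_P

/-- The star exclusion: `t` lifts of a hub with arms and the columns of the points `z e` give a
`q`-fat complete graph. -/
theorem star {V : Type} {G : SimpleGraph V} {κ H : ℕ} {f : V → ℕ} {F : V → ℕ → V}
    (hC : Combing G κ H f F) {q s w a t C : ℕ} (ha : s + t * (q + 2 * κ * s + 1) ≤ a)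
    (hH : w + 2 * s + t * (q + 2 * κ * s + 1) ≤ H)
    (hCC : 2 * (w + s + t * (q + 2 * κ * s + 1)) + κ * s + q ≤ C)
    (hfree : FatMinorFree G (⊤ : SimpleGraph (Fin t)) q) : StarAt G (Slab f a w) t s C := by
  intro D₀ A z hne hDY hAY hD hA hz far0 farA
  apply hfree
  set η := q + 2 * κ * s + 1 with hη
  set T := t * η with hT
  -- depths of the rows
  set d : Fin t → ℕ := fun m => a - s - m * η with hd
  have hmη : ∀ m : Fin t, (m : ℕ) * η + η ≤ T := by
    intro m
    have : ((m : ℕ) + 1) * η ≤ t * η := Nat.mul_le_mul_right _ m.2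
    rw [Nat.add_mul, Nat.one_mul] at this
    exact this
  have hd1 : ∀ m, a ≤ d m + s + T := by
    intro m
    have := hmη m
    simp only [hd]
    omega
  have hd2 : ∀ m, d m + s ≤ a := by
    intro m
    have := hmη m
    simp only [hd]
    omega
  have hdgap : ∀ m m' : Fin t, m < m' → d m' + η ≤ d m := by
    intro m m' h
    have h1 := hmη m'
    have h2 : ((m : ℕ) + 1) * η ≤ m' * η := Nat.mul_le_mul_right _ h
    rw [Nat.add_mul, Nat.one_mul] at h2
    simp only [hd]
    omega
  -- the hub with the arms of a row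
  set Y : Fin t → Set V := fun m => D₀ ∪ ⋃ e ∈ {e : Sym2 (Fin t) | m ∈ e}, A e with hY
  have hYs : ∀ m, Y m ⊆ Slab f a w := fun m =>
    Set.union_subset hDY (Set.iUnion₂_subset fun e _ => hAY e)
  have hYc : ∀ m, JConn G s (Y m) := fun m => jconn_iUnion A _ hne hD fun e _ => hA e
  have hYd : ∀ m, ∀ y ∈ Y m, a ≤ f y ∧ f y < a + w := fun m y hy => hYs m hy
  have hYf : ∀ m, ∀ y ∈ Y m, d m + s ≤ f y ∧ f y + s ≤ d m + H := by
    intro m y hy
    have h1 := hYd m y hy
    have h2 := hd1 m
    have h3 := hd2 m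
    omega
  have hzs : ∀ e, a ≤ f (z e) ∧ f (z e) < a + w := fun e => hAY e (hz e)
  have hzz : ∀ e e', e ≠ e' → Far G C {z e} {z e'} := fun e e' hee =>
    (farA e e' hee).mono le_rfl subset_rfl (Set.singleton_subset_iff.2 (hz e'))
  have hzY : ∀ e m, m ∉ e → Far G C {z e} (Y m) := by
    rintro e m hm x hx y (hy | hy) w
    · exact far0 e x hx y hy w
    · obtain ⟨e', he', hy⟩ := Set.mem_iUnion₂.1 hy
      refine farA e e' ?_ x hx y hy w
      rintro rfl
      exact hm he'
  refine mkFat ⊤ q (fun m => lift G f F (κ * s) (Y m) (d m))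
    (fun e => {p | ∃ n, a ≤ n + s + T ∧ n ≤ a ∧ p = pt f F (z e) n}) ?_ ?_ ?_ ?_ ?_ ?_
  · intro m
    obtain ⟨x, hx⟩ := hne
    exact ⟨_, mem_lift (Or.inl hx)⟩
  · exact fun m => conn_lift hC (hYc m) (hYf m)
  · intro e _
    induction e with
    | _ m m' =>
      have hm : z s(m, m') ∈ Y m :=
        Or.inr (Set.mem_iUnion₂.2 ⟨s(m, m'), Sym2.mem_mk_left m m', hz _⟩)
      have hm' : z s(m, m') ∈ Y m' :=
        Or.inr (Set.mem_iUnion₂.2 ⟨s(m, m'), Sym2.mem_mk_right m m', hz _⟩)
      refine ⟨m, m', rfl, pt f F (z s(m, m')) (d m), mem_lift hm, pt f F (z s(m, m')) (d m'),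
        mem_lift hm', ?_⟩
      have h1 := hd1 m
      have h2 := hd1 m'
      have h3 := hd2 m
      have h4 := hd2 m'
      have h5 := hzs s(m, m')
      rcases le_total (d m) (d m') with h | h
      · obtain ⟨w, -, hw⟩ := seq_walk (pt f F (z s(m, m'))) h
          fun n _ hn => hC.pt_adj (by omega)
        refine ⟨w, fun p hp => ?_⟩
        obtain ⟨n, h6, h7, h8⟩ := hw p hp
        exact ⟨n, by omega, by omega, h8⟩
      · obtain ⟨w, -, hw⟩ := seq_walk (pt f F (z s(m, m'))) h
          fun n _ hn => hC.pt_adj (by omega)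
        refine ⟨w.reverse, fun p hp => ?_⟩
        have hp' : p ∈ w.support := by
          have h1 := SimpleGraph.Walk.support_reverse w
          have h2 : p ∈ w.support.reverse := h1 ▸ hp
          exact List.mem_reverse.1 h2
        obtain ⟨n, h6, h7, h8⟩ := hw p hp'
        exact ⟨n, by omega, by omega, h8⟩
  · intro m m' hmm x hx y hy w
    have hx' := lift_f hC (fun y hy => by have := hYf m y hy; omega) hx
    have hy' := lift_f hC (fun y hy => by have := hYf m' y hy; omega) hy
    have h0 : NearN G w.length x y := ⟨w, le_rfl⟩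
    have h1 := hC.f_near h0
    have h2 := hC.f_near h0.symm
    have h3 : 2 * κ * s = κ * s + κ * s := by ring
    rcases lt_or_gt_of_ne hmm with h | h
    · have := hdgap m m' h
      omega
    · have := hdgap m' m h
      omega
  · rintro e _ e' _ hee _ ⟨n, hn1, hn2, rfl⟩ _ ⟨n', hn1', hn2', rfl⟩ w
    by_contra hlt
    have h1 := hzs e
    have h2 := hzs e'
    have hn := hC.near_cols (x := z e) (y := z e') (by omega) (by omega) ⟨w, le_rfl⟩
    refine (hzz e e' hee).not_near (m := f (z e) - n + w.length + (f (z e') - n')) ?_ rfl rfl hn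
    omega
  · rintro e _ m hm _ ⟨n, hn1, hn2, rfl⟩ p ⟨_, ⟨y, hy, rfl⟩, hyp⟩ w
    by_contra hlt
    have h1 := hzs e
    have h2 := hYd m y hy
    have h3 := hd1 m
    have h4 := hd2 m
    have hn := hC.near_cols (x := z e) (y := y) (m := n) (m' := d m) (D := w.length + κ * s)
      (by omega) (by omega) (NearN.trans ⟨w, le_rfl⟩ hyp.symm)
    refine (hzY e m hm).not_near (m := f (z e) - n + (w.length + κ * s) + (f y - d m)) ?_ rfl hy hn
    omega

end Pool.Agent.MP_fd1949_C
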