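import Mathlib
import Pool.Agent.Lib.MP_fd1949_C.Slab2
import Pool.Agent.Lib.MP_fd1949_C.Star
import Pool.Agent.Lib.MP_fd1949_C.Sheets
import Pool.Agent.Lib.MP_fd1949_C.BookAll

/-!
# The numbers
-/

namespace Pool.Agent.MP_fd1949_C

open Pool.Agent.MP_fd1949_co Pool.Agent.MP_fd1949_P

/-- The scale of the row lemma. -/
def nS (N q : ℕ) : ℕ := q * 10 ^ ((2 * N) ^ 2 + 1)

/-- The radius `ω` of a page. -/
def nω (N q r κ : ℕ) : ℕ := 2 * (q + nS N q) + κ * r + 1

/-- The distance `η'` of the heights of the rows of a page. -/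
def nη (N q r κ : ℕ) : ℕ := 4 * nω N q r κ + 2 * nS N q + q + 2 * (κ * r)

/-- The height of a page. -/
def nT (t N q r κ : ℕ) : ℕ := (2 * t + 1) * nη N q r κ

/-- The distance of the two sheets. -/
def nSep (t N q r w κ : ℕ) : ℕ :=
  2 * (2 * nω N q r κ + nS N q + κ * r) + q + 2 * (w + r + nT t N q r κ)

/-- The height of the lifts in the star exclusion. -/
def nY (t q s κ : ℕ) : ℕ := t * (q + 2 * κ * s + 1)

/-- The distance in the star exclusion. -/
def nC (t q w s κ : ℕ) : ℕ := 2 * (w + s + nY t q s κ) + κ * s + q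

/-- The total height of the three pages. -/
def nΛ (t N q r κ ρ κ' : ℕ) : ℕ :=
  r + nT t N q r κ + 2 * (κ' * ρ) + ρ + 2 * q + nT t N q r κ'

/-- The distance of the positions. -/
def nΔ (t N q r w κ ρ κ' : ℕ) : ℕ :=
  (2 * nω N q r κ + 2 * nω N q r κ' + nS N q + (q + nS N q) + 2) +
    2 * (w + nΛ t N q r κ ρ κ' + ρ + κ' * ρ) + q

/-- The radius of the balls in the definition of the exit set. -/
def nR (t N q r w κ ρ κ' : ℕ) : ℕ := N * (nΔ t N q r w κ ρ κ' + r + 1) + r

/-- The final bound as a function of `s = nSep`, `r₂`, `r₃`. -/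
def nD (t N q r w κ s r₂ r₃ κ₁ κ₂ κ' : ℕ) : ℕ :=
  8 * (nR t N q r w κ r₃ κ' + s) +
    2 * Fintype.card (Sym2 (Fin t)) *
      (20 * (nR t N q r w κ r₃ κ' + s) + 2 * nR t N q r w κ r₃ κ' + r₂ + r₃ + r + 1) +
    2 * (w + nΛ t N q r κ r₃ κ' + (s + nY t q s κ₁) + (r₂ + nY t q r₂ κ₂))

/-- The slab theorem with numbers: two colours in every slab. -/
theorem slab_num (t : ℕ) : ∃ N : ℕ, ∀ (V : Type) (G : SimpleGraph V) (f : V → ℕ) (F : V → ℕ → V)
    (q r w s r₂ r₃ κ κ₁ κ₂ κ' H H₁ H₂ H' : ℕ), 1 ≤ q →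
    Combing G κ H f F → Combing G κ₁ H₁ f F → Combing G κ₂ H₂ f F → Combing G κ' H' f F →
    FatMinorFree G (⊤ : SimpleGraph (Fin t)) q →
    s = nSep t N q r w κ → r₂ = nC t q w s κ₁ → r₃ = nC t q w r₂ κ₂ →
    w + 2 * r + nT t N q r κ ≤ H → w + 2 * s + nY t q s κ₁ ≤ H₁ →
    w + 2 * r₂ + nY t q r₂ κ₂ ≤ H₂ → w + r + r₃ + nΛ t N q r κ r₃ κ' ≤ H' →
    ∀ a, ∃ χ : V → Bool, ∀ x y, x ∈ Slab f a w →
      JChain G r {p | p ∈ Slab f a w ∧ χ p = χ x} x y →
      NearN G (nD t N q r w κ s r₂ r₃ κ₁ κ₂ κ') x y := by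
  obtain ⟨N₀, hN⟩ := book_all t
  obtain ⟨N, hNpos, hNN⟩ : ∃ N, 0 < N ∧ N₀ ≤ N := ⟨N₀ + 1, Nat.succ_pos _, Nat.le_succ _⟩
  refine ⟨N, ?_⟩
  intro V G f F q r w s r₂ r₃ κ κ₁ κ₂ κ' H H₁ H₂ H' hq hC hC₁ hC₂ hC' hfree hs hr₂ hr₃ hH hH₁
    hH₂ hH' a
  set Λ := nΛ t N q r κ r₃ κ' with hΛ
  by_cases hsmall : a < Λ + (s + nY t q s κ₁) + (r₂ + nY t q r₂ κ₂)
  · -- close to the root
    refine ⟨fun _ => true, fun x y hx hxy => ?_⟩
    have hy : y ∈ Slab f a w := (hxy.mono le_rfl (Y' := Slab f a w) fun p hp => hp.1).mem hx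
    have h1 := hx.2
    have h2 := hy.2
    refine (hC.near_root hxy.reachable).mono ?_
    unfold nD
    omega
  -- the general case
  have h1 : StarAt G (Slab f a w) t s r₂ := by
    refine star hC₁ (q := q) ?_ ?_ ?_ hfree
    · unfold nY at hsmall; omega
    · unfold nY at hH₁; omega
    · rw [hr₂]; unfold nC nY; omega
  have h2 : StarAt G (Slab f a w) t r₂ r₃ := by
    refine star hC₂ (q := q) ?_ ?_ ?_ hfree
    · unfold nY at hsmall; omega
    · unfold nY at hH₂; omega
    · rw [hr₃]; unfold nC nY; omega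
  have h3 : SheetsAt G (Slab f a w) N r s r₃ (nΔ t N q r w κ r₃ κ') := by
    intro E σ z e hEY hσY hE hσ hfar hze hzz
    apply hfree
    have hne : E.Nonempty := ⟨e ⟨0, hNpos⟩, (hze _).2.1⟩
    have hne' : σ.Nonempty := ⟨z ⟨0, hNpos⟩, (hze _).1⟩
    set κp : Fin 3 → ℕ := fun p => if p = 2 then κ' else κ with hκp
    have k2 : κp 2 = κ' := if_pos rfl
    have kA : ∀ p, p ≠ 2 → κp p = κ := fun p hp => if_neg hp
    have hcst : ShCst t q r w a s r₃ (nΔ t N q r w κ r₃ κ')
        (2 * nω N q r κ + 2 * nω N q r κ' + nS N q + (q + nS N q) + 2) (nS N q) (q + nS N q)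
        (nT t N q r κ) (2 * nω N q r κ + nS N q + κ * r) Λ κp
        (fun p => if p = 2 then H' else H) (fun p => q + nS N q + κp p * r)
        (fun p => nω N q r (κp p)) (fun p => 4 * nω N q r (κp p) + 2 * nS N q + q)
        (fun p => nη N q r (κp p)) (fun p => nT t N q r (κp p)) := by
      constructor
      · exact hq
      · exact le_rfl
      · exact fun p => le_rfl
      · intro p
        simp only [nω]
        omega
      · exact fun p => le_rfl
      · intro p
        simp only [nη]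
        omega
      · exact fun p => le_rfl
      · intro p hp
        rw [kA p hp]
      · intro p hp
        rw [kA p hp]
      · intro p
        by_cases hp : p = 2
        · subst hp
          rw [k2]
          omega
        · rw [kA p hp]
          omega
      · rw [hs]
        unfold nSep
        omega
      · rw [hΛ, k2]
        unfold nΛ
        exact le_rfl
      · omega
      · intro p hp
        rw [if_neg hp]
        exact hH
      · simp only [if_true]
        omega
      · rw [k2, hΛ]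
        unfold nΔ
        omega
    obtain ⟨𝔅⟩ := sheets_book (fun p => by
      by_cases hp : p = 2
      · simp only [hκp, if_pos hp]
        exact hC'
      · simp only [hκp, if_neg hp]
        exact hC) hcst hEY hσY hE hσ hne hne' hfar hze hzz
    refine hN V G N q _ _ _ _ _ _ _ 𝔅 (fun p => ?_) hNN
    constructor
    · exact hq
    · exact le_rfl
    · exact le_rfl
    · simp only [nω]
      omega
    · exact le_rfl
    · by_cases hp : p = 2
      · subst hp
        simp only [k2]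
        omega
      · simp only [kA p hp]
        omega
  have hsr : r ≤ s := by
    rw [hs]
    unfold nSep
    omega
  have hsr₂ : s ≤ r₂ := by
    rw [hr₂]
    unfold nC
    omega
  exact slab2 (R := nR t N q r w κ r₃ κ' + s) (R₁ := nR t N q r w κ r₃ κ')
    (A := 20 * (nR t N q r w κ r₃ κ' + s) + 2 * nR t N q r w κ r₃ κ' + r₂ + r₃) h1 h2 h3 hsr hsr₂
    le_rfl (by unfold nR; exact le_rfl) (by omega) (by omega) (by unfold nD; omega)
    (by unfold nD; omega)

end Pool.Agent.MP_fd1949_C
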