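import Mathlib
import Pool.Agent.Lib.MP_fd1949_C.Num

/-!
# The numbers grow linearly
-/

namespace Pool.Agent.MP_fd1949_C

/-- Functions of `q`, `r`, `w` bounded by a multiple of `q + r + w + 1`. -/
def LinF (g : ℕ → ℕ → ℕ → ℕ) : Prop := ∃ C, ∀ q r w, g q r w ≤ C * (q + r + w + 1)

variable {g h : ℕ → ℕ → ℕ → ℕ}

lemma LinF.add (hg : LinF g) (hh : LinF h) : LinF fun q r w => g q r w + h q r w := by
  obtain ⟨C, hC⟩ := hg
  obtain ⟨C', hC'⟩ := hh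
  refine ⟨C + C', fun q r w => ?_⟩
  rw [Nat.add_mul]
  exact Nat.add_le_add (hC q r w) (hC' q r w)

lemma LinF.mul (c : ℕ) (hg : LinF g) : LinF fun q r w => c * g q r w := by
  obtain ⟨C, hC⟩ := hg
  refine ⟨c * C, fun q r w => ?_⟩
  rw [Nat.mul_assoc]
  exact Nat.mul_le_mul_left _ (hC q r w)

lemma LinF.q : LinF fun q _ _ => q := ⟨1, fun q r w => by simp only; omega⟩
lemma LinF.r : LinF fun _ r _ => r := ⟨1, fun q r w => by simp only; omega⟩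
lemma LinF.w : LinF fun _ _ w => w := ⟨1, fun q r w => by simp only; omega⟩
lemma LinF.const (c : ℕ) : LinF fun _ _ _ => c :=
  ⟨c, fun _ _ _ => Nat.le_mul_of_pos_right _ (Nat.succ_pos _)⟩

lemma LinF.mono (hh : LinF h) (hgh : ∀ q r w, g q r w ≤ h q r w) : LinF g := by
  obtain ⟨C, hC⟩ := hh
  exact ⟨C, fun q r w => (hgh q r w).trans (hC q r w)⟩

lemma lin_nS (N : ℕ) : LinF fun q _ _ => nS N q :=
  (LinF.q.mul (10 ^ ((2 * N) ^ 2 + 1))).mono fun _ _ _ => by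
    unfold nS
    rw [Nat.mul_comm]

lemma lin_nω (N κ : ℕ) : LinF fun q r _ => nω N q r κ :=
  ((((LinF.q.add (lin_nS N)).mul 2).add (LinF.r.mul κ)).add (LinF.const 1)).mono
    fun _ _ _ => le_rfl

lemma lin_nη (N κ : ℕ) : LinF fun q r _ => nη N q r κ :=
  (((((lin_nω N κ).mul 4).add ((lin_nS N).mul 2)).add LinF.q).add ((LinF.r.mul κ).mul 2)).mono
    fun _ _ _ => le_rfl

lemma lin_nT (t N κ : ℕ) : LinF fun q r _ => nT t N q r κ :=
  ((lin_nη N κ).mul (2 * t + 1)).mono fun _ _ _ => le_rfl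

lemma lin_nSep (t N κ : ℕ) : LinF fun q r w => nSep t N q r w κ :=
  ((((((lin_nω N κ).mul 2).add (lin_nS N)).add (LinF.r.mul κ)).mul 2).add LinF.q).add
    (((LinF.w.add LinF.r).add (lin_nT t N κ)).mul 2)

lemma lin_nY (t κ : ℕ) {s : ℕ → ℕ → ℕ → ℕ} (hs : LinF s) : LinF fun q r w => nY t q (s q r w) κ :=
  ((LinF.q.add (hs.mul (2 * κ))).add (LinF.const 1)).mul t

lemma lin_nC (t κ : ℕ) {s : ℕ → ℕ → ℕ → ℕ} (hs : LinF s) :
    LinF fun q r w => nC t q w (s q r w) κ :=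
  ((((LinF.w.add hs).add (lin_nY t κ hs)).mul 2).add (hs.mul κ)).add LinF.q

lemma lin_nΛ (t N κ κ' : ℕ) {s : ℕ → ℕ → ℕ → ℕ} (hs : LinF s) :
    LinF fun q r w => nΛ t N q r κ (s q r w) κ' :=
  ((((LinF.r.add (lin_nT t N κ)).add ((hs.mul κ').mul 2)).add hs).add (LinF.q.mul 2)).add
    (lin_nT t N κ')

lemma lin_nΔ (t N κ κ' : ℕ) {s : ℕ → ℕ → ℕ → ℕ} (hs : LinF s) :
    LinF fun q r w => nΔ t N q r w κ (s q r w) κ' :=
  (((((((lin_nω N κ).mul 2).add ((lin_nω N κ').mul 2)).add (lin_nS N)).add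
    (LinF.q.add (lin_nS N))).add (LinF.const 2)).add
    ((((LinF.w.add (lin_nΛ t N κ κ' hs)).add hs).add (hs.mul κ')).mul 2)).add LinF.q

lemma lin_nR (t N κ κ' : ℕ) {s : ℕ → ℕ → ℕ → ℕ} (hs : LinF s) :
    LinF fun q r w => nR t N q r w κ (s q r w) κ' :=
  ((((lin_nΔ t N κ κ' hs).add LinF.r).add (LinF.const 1)).mul N).add LinF.r

lemma lin_nD (t N κ κ₁ κ₂ κ' : ℕ) {s r₂ r₃ : ℕ → ℕ → ℕ → ℕ} (hs : LinF s) (h₂ : LinF r₂)
    (h₃ : LinF r₃) :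
    LinF fun q r w => nD t N q r w κ (s q r w) (r₂ q r w) (r₃ q r w) κ₁ κ₂ κ' :=
  ((((lin_nR t N κ κ' h₃).add hs).mul 8).add
    (((((((((lin_nR t N κ κ' h₃).add hs).mul 20).add ((lin_nR t N κ κ' h₃).mul 2)).add h₂).add
      h₃).add LinF.r).add (LinF.const 1)).mul (2 * Fintype.card (Sym2 (Fin t))))).add
    ((((LinF.w.add (lin_nΛ t N κ κ' h₃)).add (hs.add (lin_nY t κ₁ hs))).add
      (h₂.add (lin_nY t κ₂ h₂))).mul 2)

/-- The numbers of the slab theorem for constant divergence. -/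
theorem nD_lin (t N κ : ℕ) : ∃ C, ∀ q r w,
    nD t N q r w κ (nSep t N q r w κ) (nC t q w (nSep t N q r w κ) κ)
      (nC t q w (nC t q w (nSep t N q r w κ) κ) κ) κ κ κ ≤ C * (q + r + w + 1) :=
  lin_nD t N κ κ κ κ (lin_nSep t N κ) (lin_nC t κ (lin_nSep t N κ))
    (lin_nC t κ (lin_nC t κ (lin_nSep t N κ)))

end Pool.Agent.MP_fd1949_C
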