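import Mathlib
import Pool.Agent.Lib.MP_fd1949_C.Jump
import Pool.Agent.Lib.MP_fd1949_C.Lift

/-!
# Three colours from two colours in every slab
-/

namespace Pool.Agent.MP_fd1949_C

open Pool.Agent.MP_fd1949_co Pool.Agent.MP_fd1949_P

/-- The chain in the union of the two parts. -/
private lemma cover3_chain {V : Type} {G : SimpleGraph V} {r D₁ : ℕ} {O E Z : Set V}
    (hZ : ∀ p ∈ Z, p ∈ O ∨ p ∈ E)
    (hO : ∀ x y, x ∈ O → JChain G r O x y → NearN G D₁ x y) {x y : V} (hx : x ∈ Z)
    (h : JChain G r Z x y) :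
    (x ∈ O ∧ y ∈ O ∧ JChain G r O x y) ∨
      ∃ u v, u ∈ E ∧ v ∈ E ∧ JChain G (D₁ + 2 * r) E u v ∧
        (x = u ∨ ∃ u', x ∈ O ∧ u' ∈ O ∧ JChain G r O x u' ∧ NearN G r u' u) ∧
        (y = v ∨ ∃ v', v' ∈ O ∧ y ∈ O ∧ NearN G r v v' ∧ JChain G r O v' y) := by
  induction h with
  | refl =>
    rcases hZ x hx with h | h
    · exact Or.inl ⟨h, h, JChain.refl _⟩
    · exact Or.inr ⟨x, x, h, h, JChain.refl _, Or.inl rfl, Or.inl rfl⟩
  | @tail y z h1 h2 ih =>
    obtain ⟨hyZ, hzZ, hyz⟩ := h2
    rcases ih with ⟨hxO, hyO, hc⟩ | ⟨u, v, hu, hv, huv, hxu, hyv⟩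
    · rcases hZ z hzZ with hz | hz
      · exact Or.inl ⟨hxO, hz, hc.trans (JChain.of_near hyO hz hyz)⟩
      · exact Or.inr ⟨z, z, hz, hz, JChain.refl _, Or.inr ⟨y, hxO, hyO, hc, hyz⟩, Or.inl rfl⟩
    · rcases hyv with rfl | ⟨v', hv', hyO, hvv, hc⟩
      · rcases hZ z hzZ with hz | hz
        · exact Or.inr ⟨u, y, hu, hv, huv, hxu, Or.inr ⟨z, hz, hz, hyz, JChain.refl _⟩⟩
        · exact Or.inr ⟨u, z, hu, hz, huv.trans (JChain.of_near hv hz (hyz.mono (by omega))), hxu,
            Or.inl rfl⟩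
      · rcases hZ z hzZ with hz | hz
        · exact Or.inr ⟨u, v, hu, hv, huv, hxu,
            Or.inr ⟨v', hv', hz, hvv, hc.trans (JChain.of_near hyO hz hyz)⟩⟩
        · refine Or.inr ⟨u, z, hu, hz, huv.trans (JChain.of_near hv hz ?_), hxu, Or.inl rfl⟩
          exact ((hvv.trans (hO v' y hv' hc)).trans hyz).mono (by omega)

/-- PROOF. `w = r + 1`, layers `L k = Slab f (k * w) w`, `k x = f x / w`. For even `k` take the colouring `χ k : V → Bool` of `h2 (k * w)` (jumps `D₁ + 2 r`), for odd `k` the one of `h1 (k * w)`. Colour of `x`: `k x` if `χ (k x) x = false`, `k x + 1` if `true`, modulo 3.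
Fix a colour `p`, `Z = {x | χ x = p}`. If `NearN G r x y` then `|f x - f y| ≤ r` (`f_near`), so `|k x - k y| ≤ 1`. So a chain in `Z` with steps `≤ r` stays in two consecutive layers: with `k₀ ≡ p - 1 mod 3`, the part `true` of `L k₀` and the part `false` of `L (k₀ + 1)` (if `k x ≡ p`: `k₀ = k x - 1`,
when `k x = 0` there is no layer `k₀`, only `L 0`; a convenient way: invariant `(k y + 1) / 3`-like index, or case analysis). One of the two layers is even (call its part of colour `p` `E`), the other odd (part `O`).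
A chain in `O` from `x` to `y` gives `NearN G D₁ x y` (`h1`), a chain in `E` with steps `≤ D₁ + 2 r` gives `NearN G D₂` (`h2`). Claim (induction along the chain, from `x` to `y` in `E ∪ O`, steps `≤ r`): either `x, y ∈ O` and `JChain G r O x y`, or there are `u, v ∈ E` with `JChain G (D₁ + 2 r) E u v`,
(`x = u` or there is `u' ∈ O`, `JChain G r O x u'`, `NearN G r u' u`) and (`y = v` or there is `v' ∈ O`, `NearN G r v v'`, `JChain G r O v' y`). Step from `O` to a point `z ∈ E`: `v → v' → y → z` has length `≤ r + D₁ + r`. In the end `NearN G (D₁ + r + D₂ + r + D₁) x y`. -/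
theorem cover3 {V : Type} {G : SimpleGraph V} {f : V → ℕ}
    (hlip : ∀ x y, G.Adj x y → f x ≤ f y + 1) {r D₁ D₂ : ℕ}
    (h1 : ∀ a, ∃ χ : V → Bool, ∀ x y, x ∈ Slab f a (r + 1) →
      JChain G r {p | p ∈ Slab f a (r + 1) ∧ χ p = χ x} x y → NearN G D₁ x y)
    (h2 : ∀ a, ∃ χ : V → Bool, ∀ x y, x ∈ Slab f a (r + 1) →
      JChain G (D₁ + 2 * r) {p | p ∈ Slab f a (r + 1) ∧ χ p = χ x} x y → NearN G D₂ x y) :
    ∃ χ : V → Fin 3, ∀ x y, JChain G r {p | χ p = χ x} x y →
      NearN G (D₂ + 2 * (D₁ + r)) x y := by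
  classical
  choose c1 hc1 using h1
  choose c2 hc2 using h2
  let w := r + 1
  have hw : 0 < w := Nat.succ_pos r
  -- the colouring of the layer `k`
  let c : ℕ → V → Bool := fun k => if k % 2 = 0 then c2 (k * w) else c1 (k * w)
  let col : V → ℕ := fun x => f x / w + (if c (f x / w) x = true then 1 else 0)
  refine ⟨fun x => ⟨col x % 3, Nat.mod_lt _ (by norm_num)⟩, fun x y hxy => ?_⟩
  have hslab : ∀ x, x ∈ Slab f (f x / w * w) (r + 1) := by
    intro x
    refine ⟨Nat.div_mul_le_self _ _, ?_⟩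
    have := Nat.lt_div_mul_add (a := f x) hw
    exact this
  -- the colour is constant along the chain
  have hstep : ∀ p q, NearN G r p q → col p % 3 = col q % 3 → col p = col q := by
    intro p q hpq hm
    have h3 := f_near hlip hpq
    have h4 := f_near hlip hpq.symm
    have h5 : f p / w ≤ f q / w + 1 := by
      have : f p ≤ f q + w := by omega
      calc f p / w ≤ (f q + w) / w := Nat.div_le_div_right this
        _ = f q / w + 1 := Nat.add_div_right _ hw
    have h6 : f q / w ≤ f p / w + 1 := by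
      have : f q ≤ f p + w := by omega
      calc f q / w ≤ (f p + w) / w := Nat.div_le_div_right this
        _ = f p / w + 1 := Nat.add_div_right _ hw
    simp only [col] at hm ⊢
    split_ifs at hm ⊢ <;> omega
  obtain ⟨Z, hZ⟩ : ∃ Z : Set V, Z = {p | col p = col x} := ⟨_, rfl⟩
  have hxZ : x ∈ Z := by rw [hZ]; rfl
  have hchain : JChain G r Z x y := by
    induction hxy with
    | refl => exact JChain.refl _
    | @tail y z h7 h8 ih =>
      have hy : y ∈ Z := ih.mem hxZ
      have hz : z ∈ Z := by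
        rw [hZ] at hy ⊢
        have h9 : col y % 3 = col z % 3 := by
          have e1 := h8.1
          have e2 := h8.2.1
          simp only [Set.mem_ofPred_eq] at e1 e2
          have e3 := e1.trans e2.symm
          exact congrArg Fin.val e3
        have h10 := hstep y z h8.2.2 h9
        show col z = col x
        rw [← h10]
        exact hy
      exact ih.tail ⟨hy, hz, h8.2.2⟩
  obtain ⟨O, hO⟩ : ∃ O : Set V, O = {p | p ∈ Z ∧ (f p / w) % 2 = 1} := ⟨_, rfl⟩
  obtain ⟨E, hE⟩ : ∃ E : Set V, E = {p | p ∈ Z ∧ (f p / w) % 2 = 0} := ⟨_, rfl⟩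
  have hcov : ∀ p ∈ Z, p ∈ O ∨ p ∈ E := by
    intro p hp
    rw [hO, hE]
    rcases Nat.mod_two_eq_zero_or_one (f p / w) with h | h
    · exact Or.inr ⟨hp, h⟩
    · exact Or.inl ⟨hp, h⟩
  have hsame : ∀ p q, p ∈ Z → q ∈ Z → (f p / w) % 2 = (f q / w) % 2 →
      q ∈ {t | t ∈ Slab f (f p / w * w) (r + 1) ∧ c (f p / w) t = c (f p / w) p} := by
    intro p q hp hq hpq
    have e : col p = col q := by
      rw [hZ] at hp hq
      exact Eq.trans hp (Eq.symm hq)
    have hk : f p / w = f q / w := by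
      simp only [col] at e
      split_ifs at e <;> omega
    refine ⟨?_, ?_⟩
    · rw [hk]; exact hslab q
    · simp only [col] at e
      rw [hk] at e ⊢
      by_cases h3 : c (f q / w) p = true <;> by_cases h4 : c (f q / w) q = true
      · rw [h3, h4]
      · simp [h3, h4] at e
      · simp [h3, h4] at e
      · simp only [Bool.not_eq_true] at h3 h4
        rw [h3, h4]
  have hnO : ∀ u v, u ∈ O → JChain G r O u v → NearN G D₁ u v := by
    intro u v hu huv
    have hu' := hu
    rw [hO] at hu'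
    have e1 : c (f u / w) = c1 (f u / w * w) := by
      have : ¬ (f u / w) % 2 = 0 := by
        have := hu'.2
        omega
      simp only [c, if_neg this]
    refine hc1 (f u / w * w) u v (hslab u) (huv.mono le_rfl ?_)
    intro q hq
    rw [hO] at hq
    have := hsame u q hu'.1 hq.1 (hu'.2.trans hq.2.symm)
    rw [e1] at this
    exact this
  have hnE : ∀ u v, u ∈ E → JChain G (D₁ + 2 * r) E u v → NearN G D₂ u v := by
    intro u v hu huv
    have hu' := hu
    rw [hE] at hu'
    have e1 : c (f u / w) = c2 (f u / w * w) := by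
      simp only [c, if_pos hu'.2]
    refine hc2 (f u / w * w) u v (hslab u) (huv.mono le_rfl ?_)
    intro q hq
    rw [hE] at hq
    have := hsame u q hu'.1 hq.1 (hu'.2.trans hq.2.symm)
    rw [e1] at this
    exact this
  rcases cover3_chain hcov hnO hxZ hchain with ⟨hx, hy, hc⟩ | ⟨u, v, hu, hv, huv, hxu, hyv⟩
  · exact (hnO x y hx hc).mono (by omega)
  · have h3 := hnE u v hu huv
    have h4 : NearN G (D₁ + r) x u := by
      rcases hxu with rfl | ⟨u', hx, hu', hc, hn⟩
      · exact NearN.refl _ _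
      · exact (hnO x u' hx hc).trans hn
    have h5 : NearN G (r + D₁) v y := by
      rcases hyv with rfl | ⟨v', hv', hy, hn, hc⟩
      · exact NearN.refl _ _
      · exact hn.trans (hnO v' y hv' hc)
    exact ((h4.trans h3).trans h5).mono (by omega)

end Pool.Agent.MP_fd1949_C
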