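import Mathlib
import Pool.Agent.Lib.MP_fd1949_C.Jump

/-!
# From a colouring to families of sets
-/

namespace Pool.Agent.MP_fd1949_C

open Pool.Agent.MP_fd1949_co Pool.Agent.MP_fd1949_P

theorem fam_of_col {V : Type} {G : SimpleGraph V} {r D : ℕ} (χ : V → Fin 3)
    (h : ∀ x y, JChain G r {p | χ p = χ x} x y → NearN G D x y) :
    ∃ 𝒰 : Fin 3 → Set (Set V), (∀ x, ∃ i, ∃ A ∈ 𝒰 i, x ∈ A) ∧ ∀ i,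
      (∀ A ∈ 𝒰 i, ∀ B ∈ 𝒰 i, A ≠ B → ∀ x ∈ A, ∀ y ∈ B, ¬ NearN G r x y) ∧
      ∀ A ∈ 𝒰 i, ∀ x ∈ A, ∀ y ∈ A, NearN G D x y := by
  refine ⟨fun i => {A | ∃ x, χ x = i ∧ A = {y | y ∈ {p | χ p = i} ∧ JChain G r {p | χ p = i} x y}},
    fun x => ⟨χ x, _, ⟨x, rfl, rfl⟩, rfl, JChain.refl x⟩, fun i => ⟨?_, ?_⟩⟩
  · rintro A ⟨x, hx, rfl⟩ B ⟨y, hy, rfl⟩ hAB u ⟨hu, hxu⟩ v ⟨hv, hyv⟩ hn
    apply hAB
    have hxy : JChain G r {p | χ p = i} x y := (hxu.trans (JChain.of_near hu hv hn)).trans hyv.symm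
    ext p
    exact ⟨fun hp => ⟨hp.1, hxy.symm.trans hp.2⟩, fun hp => ⟨hp.1, hxy.trans hp.2⟩⟩
  · rintro A ⟨x, hx, rfl⟩ u ⟨hu, hxu⟩ v ⟨hv, hxv⟩
    have hu' : χ u = i := hu
    subst hu'
    exact h u v (hxu.symm.trans hxv)

end Pool.Agent.MP_fd1949_C
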