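import Mathlib
import Pool.Agent.Lib.MP_fd1949_C.Pub
import Pool.Agent.Lib.MP_fd1949_C.Slow

/-!
# Hyperbolic graphs
-/

namespace Pool.Agent.MP_fd1949_C

open Pool.Agent.MP_fd1949_co Pool.Agent.MP_fd1949_P

/-- Every geodesic combing of a hyperbolic graph has bounded divergence. -/
theorem combable_of_fourPoint {V : Type} {G : SimpleGraph V} {δ : ℕ} (h : FourPoint δ G) :
    Combable (fun _ => δ + 2) G := by
  classical
  set o : V → V := fun x => (G.connectedComponentMk x).out with ho
  have hr : ∀ x, G.Reachable (o x) x := fun x =>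
    SimpleGraph.ConnectedComponent.exact (Quot.out_eq (G.connectedComponentMk x))
  have hoo : ∀ x y, G.Reachable x y → o x = o y := by
    intro x y h
    simp only [ho]
    rw [SimpleGraph.ConnectedComponent.sound h]
  have hw : ∀ x, ∃ w : G.Walk (o x) x, w.length = G.dist (o x) x := fun x =>
    (hr x).exists_walk_length_eq_dist
  choose w hw using hw
  have hstep : ∀ x m, m < G.dist (o x) x → G.Adj ((w x).getVert m) ((w x).getVert (m + 1)) := by
    intro x m hm
    exact (w x).adj_getVert_succ (by rw [hw]; exact hm)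
  refine ⟨o, fun x m => (w x).getVert m, hr, fun x y hxy => hoo x y hxy.reachable,
    fun x => ⟨(w x).getVert_zero, ?_, hstep x⟩, fun x y hxy m hx hy => ?_⟩
  · show (w x).getVert (G.dist (o x) x) = x
    rw [← hw x]
    exact (w x).getVert_length
  show NearN G (δ + 2) ((w x).getVert m) ((w y).getVert m)
  have hoxy : o x = o y := hoo x y hxy.reachable
  -- the distances of the points of the columns
  have key : ∀ z, m ≤ G.dist (o z) z → NearN G m (o z) ((w z).getVert m) ∧
      NearN G (G.dist (o z) z - m) ((w z).getVert m) z := by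
    intro z hz
    have hlen : m ≤ (w z).length := by rw [hw]; exact hz
    refine ⟨⟨(w z).take m, ?_⟩, ⟨(w z).drop m, ?_⟩⟩
    · rw [SimpleGraph.Walk.take_length]
      omega
    · rw [SimpleGraph.Walk.drop_length, hw]
  obtain ⟨a1, a2⟩ := key x hx
  obtain ⟨b1, b2⟩ := key y hy
  set p := (w x).getVert m
  set p' := (w y).getVert m
  have hpx : G.Reachable p x := a2.reachable
  have hpp : G.Reachable p p' := (hpx.trans hxy.reachable).trans b2.reachable.symm
  have hpo : G.Reachable p (o x) := a1.reachable.symm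
  have h5 := h p p' (o x) x hpp hpo hpx
  have d1 : G.dist p (o x) ≤ m := (nearN_iff.1 a1.symm).2
  have d2 : G.dist p' (o x) ≤ m := by
    rw [hoxy]
    exact (nearN_iff.1 b1.symm).2
  have d3 : G.dist p x ≤ G.dist (o x) x - m := (nearN_iff.1 a2).2
  have d4 : G.dist p' x ≤ G.dist (o y) y - m + 1 :=
    (nearN_iff.1 (b2.trans (NearN.of_adj hxy.symm))).2
  have d5 : G.dist (o y) y ≤ G.dist (o x) x + 1 := by
    rw [← hoxy]
    exact dist_adj (hr x) hxy.symm
  rw [nearN_iff]
  refine ⟨hpp, ?_⟩
  rcases le_total (G.dist p (o x) + G.dist p' x) (G.dist p x + G.dist p' (o x)) with h7 | h7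
  · rw [max_eq_right h7] at h5
    omega
  · rw [max_eq_left h7] at h5
    omega

end Pool.Agent.MP_fd1949_C
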