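import Mathlib
import Pool.Agent.Lib.MP_fd1949_C.LinBd
import Pool.Agent.Lib.MP_fd1949_C.Slow
import Pool.Agent.Lib.MP_fd1949_C.Cover3
import Pool.Agent.Lib.MP_fd1949_C.FamC
import Pool.Agent.Lib.MP_fd1949_C.Hyp
import Pool.Agent.Lib.MP_fd1949_P.CompI

/-!
# The theorems for graphs with slowly diverging columns
-/

namespace Pool.Agent.MP_fd1949_C

open Pool.Agent.MP_fd1949_co Pool.Agent.MP_fd1949_P

/-- Two colours in a slab, constant divergence. -/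
theorem slab_lin (t κ : ℕ) : ∃ C : ℕ, ∀ (V : Type) (G : SimpleGraph V) (f : V → ℕ) (F : V → ℕ → V)
    (q r w : ℕ), 1 ≤ q → (∀ H, Combing G κ H f F) →
    FatMinorFree G (⊤ : SimpleGraph (Fin t)) q →
    ∀ a, ∃ χ : V → Bool, ∀ x y, x ∈ Slab f a w →
      JChain G r {p | p ∈ Slab f a w ∧ χ p = χ x} x y → NearN G (C * (q + r + w + 1)) x y := by
  obtain ⟨N, hN⟩ := slab_num t
  obtain ⟨C, hC⟩ := nD_lin t N κ
  refine ⟨C, fun V G f F q r w hq hcomb hfree a => ?_⟩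
  obtain ⟨χ, hχ⟩ := hN V G f F q r w _ _ _ κ κ κ κ _ _ _ _ hq (hcomb _) (hcomb _) (hcomb _)
    (hcomb _) hfree rfl rfl rfl le_rfl le_rfl le_rfl le_rfl a
  exact ⟨χ, fun x y hx hxy => (hχ x y hx hxy).mono (hC q r w)⟩

/-- Two colours in a slab, sublinear divergence. -/
theorem slab_sub (t : ℕ) {k : ℕ → ℕ} (hk : Sublinear k) (q r w : ℕ) (hq : 1 ≤ q) : ∃ D : ℕ,
    ∀ (V : Type) (G : SimpleGraph V) (f : V → ℕ) (F : V → ℕ → V), (∀ H, Combing G (top k H) H f F) →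
    FatMinorFree G (⊤ : SimpleGraph (Fin t)) q →
    ∀ a, ∃ χ : V → Bool, ∀ x y, x ∈ Slab f a w →
      JChain G r {p | p ∈ Slab f a w ∧ χ p = χ x} x y → NearN G D x y := by
  obtain ⟨N, hN⟩ := slab_num t
  obtain ⟨H, hH⟩ := hk.solve (w + 2 * r + (2 * t + 1) * (4 * (2 * (q + nS N q) + 1) +
    2 * nS N q + q)) ((2 * t + 1) * (6 * r))
  set κ := top k H
  have hH' : w + 2 * r + nT t N q r κ ≤ H := by
    refine le_trans (le_of_eq ?_) hH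
    unfold nT nη nω
    ring
  set s := nSep t N q r w κ with hs
  obtain ⟨H₁, hH₁⟩ := hk.solve (w + 2 * s + t * (q + 1)) (2 * t * s)
  set κ₁ := top k H₁
  have hH₁' : w + 2 * s + nY t q s κ₁ ≤ H₁ := by
    refine le_trans (le_of_eq ?_) hH₁
    unfold nY
    ring
  set r₂ := nC t q w s κ₁ with hr₂
  obtain ⟨H₂, hH₂⟩ := hk.solve (w + 2 * r₂ + t * (q + 1)) (2 * t * r₂)
  set κ₂ := top k H₂
  have hH₂' : w + 2 * r₂ + nY t q r₂ κ₂ ≤ H₂ := by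
    refine le_trans (le_of_eq ?_) hH₂
    unfold nY
    ring
  set r₃ := nC t q w r₂ κ₂ with hr₃
  obtain ⟨H₃, hH₃⟩ := hk.solve (w + r + r₃ + (r + nT t N q r κ + r₃ + 2 * q +
    (2 * t + 1) * (4 * (2 * (q + nS N q) + 1) + 2 * nS N q + q))) (2 * r₃ + (2 * t + 1) * (6 * r))
  set κ₃ := top k H₃
  have hH₃' : w + r + r₃ + nΛ t N q r κ r₃ κ₃ ≤ H₃ := by
    refine le_trans (le_of_eq ?_) hH₃
    have h1 : nT t N q r κ₃ = (2 * t + 1) * (4 * (2 * (q + nS N q) + 1) + 2 * nS N q + q) +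
        (2 * t + 1) * (6 * r) * κ₃ := by
      unfold nT nη nω
      ring
    unfold nΛ
    rw [h1]
    ring
  refine ⟨nD t N q r w κ s r₂ r₃ κ₁ κ₂ κ₃, fun V G f F hcomb hfree => ?_⟩
  exact hN V G f F q r w s r₂ r₃ κ κ₁ κ₂ κ₃ H H₁ H₂ H₃ hq (hcomb _) (hcomb _) (hcomb _)
    (hcomb _) hfree hs hr₂ hr₃ hH' hH₁' hH₂' hH₃'

/-- Three colours, constant divergence. -/
theorem col_lin (t κ : ℕ) : ∃ C : ℕ, ∀ (V : Type) (G : SimpleGraph V) (q r : ℕ), 1 ≤ q → 1 ≤ r →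
    Combable (fun _ => κ) G → FatMinorFree G (⊤ : SimpleGraph (Fin t)) q →
    ∃ χ : V → Fin 3, ∀ x y, JChain G r {p | χ p = χ x} x y → NearN G (C * (q + r)) x y := by
  obtain ⟨C, hC⟩ := slab_lin t κ
  refine ⟨C * (4 * C + 5) + 2 * (4 * C + 1), fun V G q r hq hr hG hfree => ?_⟩
  obtain ⟨o, F, h1, h2, h3, h4⟩ := hG
  set f : V → ℕ := fun x => G.dist (o x) x
  have hcomb : ∀ H, Combing G κ H f F := by
    intro H
    have := combing_of (k := fun _ => κ) h1 h2 h3 h4 H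
    rwa [top_const] at this
  obtain ⟨χ, hχ⟩ := cover3 (D₁ := C * (q + r + (r + 1) + 1))
    (D₂ := C * (q + (C * (q + r + (r + 1) + 1) + 2 * r) + (r + 1) + 1)) (hcomb 0).lip
    (hC V G f F q r (r + 1) hq hcomb hfree) (hC V G f F q _ (r + 1) hq hcomb hfree)
  refine ⟨χ, fun x y hxy => (hχ x y hxy).mono ?_⟩
  have e1 : C * (q + r + (r + 1) + 1) ≤ C * (4 * (q + r)) :=
    Nat.mul_le_mul_left _ (by omega)
  have e2 : C * (q + (C * (q + r + (r + 1) + 1) + 2 * r) + (r + 1) + 1) ≤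
      C * (C * (4 * (q + r)) + 5 * (q + r)) := Nat.mul_le_mul_left _ (by omega)
  have e3 : C * (C * (4 * (q + r)) + 5 * (q + r)) + 2 * (C * (4 * (q + r)) + (q + r)) =
      (C * (4 * C + 5) + 2 * (4 * C + 1)) * (q + r) := by ring
  rw [← e3]
  omega

/-- Three colours, sublinear divergence. -/
theorem col_sub (t : ℕ) {k : ℕ → ℕ} (hk : Sublinear k) (q r : ℕ) (hq : 1 ≤ q) : ∃ D : ℕ,
    ∀ (V : Type) (G : SimpleGraph V), Combable k G →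
    FatMinorFree G (⊤ : SimpleGraph (Fin t)) q →
    ∃ χ : V → Fin 3, ∀ x y, JChain G r {p | χ p = χ x} x y → NearN G D x y := by
  obtain ⟨D₁, hD₁⟩ := slab_sub t hk q r (r + 1) hq
  obtain ⟨D₂, hD₂⟩ := slab_sub t hk q (D₁ + 2 * r) (r + 1) hq
  refine ⟨D₂ + 2 * (D₁ + r), fun V G hG hfree => ?_⟩
  obtain ⟨o, F, h1, h2, h3, h4⟩ := hG
  set f : V → ℕ := fun x => G.dist (o x) x
  have hcomb : ∀ H, Combing G (top k H) H f F := combing_of h1 h2 h3 h4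
  exact cover3 (hcomb 0).lip (hD₁ V G f F hcomb hfree) (hD₂ V G f F hcomb hfree)

/-- From a graph `H` to a complete graph. -/
lemma free_top {V W : Type} [Finite W] {G : SimpleGraph V} {H : SimpleGraph W} {q : ℕ}
    (h : FatMinorFree G H q) : FatMinorFree G (⊤ : SimpleGraph (Fin (Nat.card W))) q := by
  intro hf
  refine h (fat_of_inj (Finite.equivFin W) (Finite.equivFin W).injective ?_ hf)
  intro u v huv
  exact (Finite.equivFin W).injective.ne huv.ne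

/-- From natural numbers to real numbers. -/
lemma fam_real {V : Type} {G : SimpleGraph V} {r : ℝ} {D : ℕ}
    (h : ∃ χ : V → Fin 3, ∀ x y, JChain G ⌈r⌉₊ {p | χ p = χ x} x y → NearN G D x y) :
    ∃ 𝒰 : Fin (2 + 1) → Set (Set V),
      (∀ x, ∃ i, ∃ A ∈ 𝒰 i, x ∈ A) ∧ ∀ i, Disj G r (𝒰 i) ∧ Bdd G (D : ℝ) (𝒰 i) := by
  obtain ⟨χ, hχ⟩ := h
  obtain ⟨𝒰, hcov, hU⟩ := fam_of_col χ hχ
  refine ⟨𝒰, hcov, fun i => ⟨?_, ?_⟩⟩
  · rintro A hA B hB hAB x hx y hy ⟨w, hw⟩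
    refine (hU i).1 A hA B hB hAB x hx y hy ⟨w, ?_⟩
    have h3 : (w.length : ℝ) ≤ (⌈r⌉₊ : ℝ) := hw.trans (Nat.le_ceil r)
    exact_mod_cast h3
  · intro A hA x hx y hy
    exact near_of_nearN ((hU i).2 A hA x hx y hy)

/-- Constant divergence. -/
theorem comb_lin (κ : ℕ) (W : Type) [Finite W] (H : SimpleGraph W) : ∃ C : ℝ, 0 < C ∧
    ∀ q : ℕ, 1 ≤ q → AsdimWith (fun _ G => Combable (fun _ => κ) G ∧ FatMinorFree G H q) 2
      (fun r => C * (r + q)) := by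
  obtain ⟨C, hC⟩ := col_lin (Nat.card W) κ
  refine ⟨2 * (C : ℝ) + 1, by positivity, fun q hq => ?_⟩
  intro V _ G hG r hr
  have hr' : 0 < ⌈r⌉₊ := Nat.ceil_pos.2 hr
  obtain ⟨𝒰, hcov, hU⟩ := fam_real (hC V G q ⌈r⌉₊ hq hr' hG.1 (free_top hG.2))
  refine ⟨𝒰, hcov, fun i => ⟨(hU i).1, ?_⟩⟩
  intro A hA x hx y hy
  obtain ⟨w, hw⟩ := (hU i).2 A hA x hx y hy
  refine ⟨w, hw.trans ?_⟩
  have h4 : (⌈r⌉₊ : ℝ) < r + 1 := Nat.ceil_lt_add_one hr.le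
  have h5 : (1 : ℝ) ≤ (q : ℝ) := by exact_mod_cast hq
  push_cast
  have h6 : (C : ℝ) * ((q : ℝ) + (⌈r⌉₊ : ℝ)) ≤ (C : ℝ) * (2 * (r + q)) :=
    mul_le_mul_of_nonneg_left (by linarith) (Nat.cast_nonneg C)
  have h7 : (2 * (C : ℝ) + 1) * (r + q) = (C : ℝ) * (2 * (r + q)) + (r + q) := by ring
  rw [h7]
  linarith

/-- Hyperbolic graphs. -/
theorem hyp_lin (δ : ℕ) (W : Type) [Finite W] (H : SimpleGraph W) : ∃ C : ℝ, 0 < C ∧
    ∀ q : ℕ, 1 ≤ q → AsdimWith (fun _ G => FourPoint δ G ∧ FatMinorFree G H q) 2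
      (fun r => C * (r + q)) := by
  obtain ⟨C, hC0, hC⟩ := comb_lin (δ + 2) W H
  refine ⟨C, hC0, fun q hq => ?_⟩
  intro V _ G hG r hr
  exact hC q hq V G ⟨combable_of_fourPoint hG.1, hG.2⟩ r hr

/-- Sublinear divergence. -/
theorem comb_sub (k : ℕ → ℕ) (hk : Sublinear k) (W : Type) [Finite W] (H : SimpleGraph W) (q : ℕ)
    (hq : 1 ≤ q) : ∃ D : ℝ → ℝ,
    AsdimWith (fun _ G => Combable k G ∧ FatMinorFree G H q) 2 D := by
  choose D hD using fun r : ℕ => col_sub (Nat.card W) hk q r hq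
  refine ⟨fun r => D ⌈r⌉₊, ?_⟩
  intro V _ G hG r hr
  exact fam_real (hD ⌈r⌉₊ V G hG.1 (free_top hG.2))

end Pool.Agent.MP_fd1949_C
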