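import Mathlib
import Pool.Agent.Lib.MP_fd1949_C.FinalC

/-!
# The main theorem
-/

namespace Pool.Agent.MP_fd1949_C

open Pool.Agent.MP_fd1949_co Pool.Agent.MP_fd1949_P

lemma Combable.mono {V : Type} {G : SimpleGraph V} {k k' : ℕ → ℕ} (h : ∀ n, k n ≤ k' n)
    (hG : Combable k G) : Combable k' G := by
  obtain ⟨o, γ, h1, h2, h3, h4⟩ := hG
  exact ⟨o, γ, h1, h2, h3, fun x y hxy m hx hy => (h4 x y hxy m hx hy).mono (h _)⟩

theorem main (k : ℕ → ℕ) (hk : Sublinear k) (δ : ℕ) (W : Type) [Finite W] (H : SimpleGraph W) :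
    ∃ D : ℕ → ℝ → ℝ,
      (∀ q : ℕ, 1 ≤ q → AsdimWith
        (fun _ G => (Combable k G ∨ FourPoint δ G) ∧ FatMinorFree G H q) 2 (D q)) ∧
      ((∃ κ, ∀ n, k n ≤ κ) → ∃ C : ℝ, ∀ q : ℕ, 1 ≤ q → ∀ r : ℝ, 0 < r → D q r ≤ C * (r + q)) := by
  by_cases hb : ∃ κ, ∀ n, k n ≤ κ
  · obtain ⟨κ, hκ⟩ := hb
    obtain ⟨C, -, hC⟩ := comb_lin (max κ (δ + 2)) W H
    refine ⟨fun q r => C * (r + q), fun q hq => ?_, fun _ => ⟨C, fun q _ r _ => le_rfl⟩⟩
    intro V _ G hG r hr
    refine hC q hq V G ⟨?_, hG.2⟩ r hr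
    rcases hG.1 with h | h
    · exact h.mono fun n => (hκ n).trans (le_max_left _ _)
    · exact (combable_of_fourPoint h).mono fun n => le_max_right _ _
  · have hk' : Sublinear fun n => max (k n) (δ + 2) := by
      intro M
      obtain ⟨n₀, hn₀⟩ := hk M
      refine ⟨max n₀ (M * (δ + 2)), fun n hn => ?_⟩
      have h1 := hn₀ n ((le_max_left _ _).trans hn)
      have h2 := (le_max_right n₀ (M * (δ + 2))).trans hn
      show M * max (k n) (δ + 2) ≤ n
      rcases le_total (k n) (δ + 2) with h | h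
      · rw [max_eq_right h]
        exact h2
      · rw [max_eq_left h]
        exact h1
    choose D hD using fun q : ℕ => fun hq : 1 ≤ q => comb_sub _ hk' W H q hq
    refine ⟨fun q r => if hq : 1 ≤ q then D q hq r else 0, fun q hq => ?_, fun h => absurd h hb⟩
    have hDq : (fun r : ℝ => if hq : 1 ≤ q then D q hq r else 0) = D q hq := by
      funext r
      rw [dif_pos hq]
    show AsdimWith _ 2 (fun r : ℝ => if hq : 1 ≤ q then D q hq r else 0)
    rw [hDq]
    intro V _ G hG r hr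
    refine hD q hq V G ⟨?_, hG.2⟩ r hr
    rcases hG.1 with h | h
    · exact h.mono fun n => le_max_left _ _
    · exact (combable_of_fourPoint h).mono fun n => le_max_right _ _

end Pool.Agent.MP_fd1949_C
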